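import Pool.Agent.U465.SR.Part

set_option autoImplicit false

/-!
# Typical configuration-free subsets of `L ^ n`
-/

open Finset Filter Topology

namespace Pool.Agent.U465.SR

section

open scoped Classical

variable {p : ℕ} [hp : Fact p.Prime] {L : Type} [AddCommGroup L] [Module (ZMod p) L] [Fintype L]
  {k : ℕ}

theorem rr_le_pow (a : Fin k → L) (n : ℕ) : (rr p a n : ℝ) ≤ (Fintype.card L : ℝ) ^ n := by
  have h1 : rr p a n ≤ (univ : Finset (Fin n → L)).card := alph_le_card _
  rw [card_univ, Fintype.card_fun, Fintype.card_fin] at h1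
  exact_mod_cast h1

/-- **Only a fraction `2 ^ (-rr / 2)` of the configuration-free sets has less than `ε rr` elements.** -/
theorem typical (a : Fin k → L) (ha : Function.Injective a) (hk : 2 ≤ k) (hL : p ≤ Fintype.card L)
    (θ K : ℝ) (hθ1 : 1 ≤ θ) (hθp : θ < (p : ℝ) ^ (1 / ((k : ℝ) - 1))) (hθL : θ ≤ Fintype.card L)
    (hK0 : 0 < K)
    (hK : ∀ m s : ℕ, (rr p a m : ℝ) * (Fintype.card L : ℝ) ^ s ≤ K * θ ^ s * rr p a (m + s)) :
    ∃ ε : ℝ, 0 < ε ∧ ∀ n : ℕ,
      (((univ : Finset (Fin n → L)).powerset.filter (fun A => Free (ptv (p := p) a n) A ∧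
        (A.card : ℝ) < ε * rr p a n)).card : ℝ) * (2 : ℝ) ^ ((rr p a n : ℝ) / 2) ≤
      (((univ : Finset (Fin n → L)).powerset.filter (Free (ptv (p := p) a n))).card : ℝ) := by
  obtain ⟨c, C, hc, hC, _, g2, _⟩ := partAll a ha hk hL θ K hθ1 hθp hθL hK0 hK
  have hp1 : (1 : ℝ) < p := by exact_mod_cast hp.out.one_lt
  have hp0 : (0 : ℝ) < p := by linarith
  have hk2 : (2 : ℝ) ≤ k := by exact_mod_cast hk
  have hk1 : (0 : ℝ) < (k : ℝ) - 1 := by linarith
  have hB1 : (1 : ℝ) ≤ (Fintype.card L : ℝ) := hθ1.trans hθL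
  have hkc : ((k - 1 : ℕ) : ℝ) = (k : ℝ) - 1 := by
    rw [Nat.cast_sub (by omega), Nat.cast_one]
  have hl2 : 0 < Real.log 2 := Real.log_pos (by norm_num)
  have hlp : 0 < Real.log p := Real.log_pos hp1
  -- the ratio
  have hψ1 : θ ^ (k - 1) < p := by
    have h1 : θ ^ (k - 1) < ((p : ℝ) ^ (1 / ((k : ℝ) - 1))) ^ (k - 1) :=
      pow_lt_pow_left₀ hθp (by linarith) (by omega)
    rwa [← Real.rpow_natCast, ← Real.rpow_natCast, ← Real.rpow_mul hp0.le, hkc,
      one_div, inv_mul_cancel₀ hk1.ne', Real.rpow_one, ← hkc, Real.rpow_natCast] at h1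
  have hψ0 : 0 ≤ θ ^ (k - 1) / p := by positivity
  have hψ : θ ^ (k - 1) / p < 1 := by
    rw [div_lt_one hp0]
    exact hψ1
  obtain ⟨j, hj⟩ : ∃ j : ℕ, C * K * (θ ^ (k - 1) / p) ^ j ≤ Real.log 2 / 4 := by
    have h1 := (tendsto_pow_atTop_nhds_zero_of_lt_one hψ0 hψ).const_mul (C * K)
    rw [mul_zero] at h1
    obtain ⟨j, hj⟩ := (h1.eventually (gt_mem_nhds (show 0 < Real.log 2 / 4 by linarith))).exists
    exact ⟨j, hj.le⟩
  set n₀ : ℕ := (k - 1) * j with hn₀
  set β : ℝ := ((p : ℝ) ^ j)⁻¹ with hβ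
  have hpj : 1 ≤ (p : ℝ) ^ j := one_le_pow₀ hp1.le
  have hβ0 : 0 < β := by positivity
  have hβ1 : β ≤ 1 := inv_le_one_of_one_le₀ hpj
  have hlogβ : Real.log β = -(j * Real.log p) := by
    rw [hβ, Real.log_inv, Real.log_pow]
  set ε : ℝ := min (Real.log 2 / 4 / ((j : ℝ) * Real.log p + 1)) (1 / (Fintype.card L : ℝ) ^ n₀)
    with hε
  have hε0 : 0 < ε := by
    rw [hε]
    have : 0 < (j : ℝ) * Real.log p + 1 := by positivity
    positivity
  refine ⟨ε, hε0, fun n => ?_⟩
  set r : ℝ := (rr p a n : ℝ) with hr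
  have hr0 : 0 ≤ r := Nat.cast_nonneg _
  set F := (univ : Finset (Fin n → L)).powerset.filter (fun A => Free (ptv (p := p) a n) A ∧
        (A.card : ℝ) < ε * r) with hF
  have h0 : Free (ptv (p := p) a n) ∅ := fun t ht => notMem_empty _ (ht ⟨0, by omega⟩)
  have hmono : ∀ I J : Finset (Fin n → L), J ⊆ I → Free (ptv (p := p) a n) I →
      Free (ptv (p := p) a n) J := fun I J h hI => hI.mono h
  have hlow : (2 : ℝ) ^ r ≤
      (((univ : Finset (Fin n → L)).powerset.filter (Free (ptv (p := p) a n))).card : ℝ) := by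
    rw [card_eq_ZZ]
    have h1 := ZZ_lower (β := 1) zero_le_one h0 hmono (univ : Finset (Fin n → L))
    rw [hr, Real.rpow_natCast]
    norm_num at h1
    exact h1
  refine le_trans ?_ hlow
  have h2r : (2 : ℝ) ^ r = (2 : ℝ) ^ (r / 2) * (2 : ℝ) ^ (r / 2) := by
    rw [← Real.rpow_add (by norm_num)]
    congr 1
    ring
  rw [h2r]
  refine mul_le_mul_of_nonneg_right ?_ (by positivity)
  by_cases hn : n₀ ≤ n
  · have hnβ : 1 ≤ (p : ℝ) ^ n * β ^ (k - 1) := by
      rw [hβ, inv_pow, ← pow_mul, mul_comm j, ← div_eq_mul_inv, one_le_div (by positivity)]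
      exact pow_le_pow_right₀ hp1.le hn
    have hh : n₀ = ⌈((k : ℝ) - 1) * Real.logb p (1 / β)⌉₊ := by
      have h1 : ((k : ℝ) - 1) * Real.logb p (1 / β) = (n₀ : ℝ) := by
        rw [hβ, one_div, inv_inv, Real.logb_pow, Real.logb_self_eq_one hp1, mul_one, hn₀,
          Nat.cast_mul, hkc]
      rw [h1, Nat.ceil_natCast]
    obtain ⟨_, _, h3⟩ := g2 n β hβ0 hβ1 hnβ n₀ hh
    have h4 := hK (n - n₀) n₀
    rw [Nat.sub_add_cancel hn] at h4
    have h5 : β * θ ^ n₀ = (θ ^ (k - 1) / p) ^ j := by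
      rw [hβ, hn₀, pow_mul, div_pow]
      field_simp
    have h6 : Real.log (ZZ β (Free (ptv (p := p) a n)) univ) ≤ Real.log 2 / 4 * r := by
      refine h3.trans ?_
      calc C * (β * (rr p a (n - n₀) * (Fintype.card L : ℝ) ^ n₀))
          ≤ C * (β * (K * θ ^ n₀ * rr p a n)) := by gcongr
        _ = C * K * (θ ^ (k - 1) / p) ^ j * r := by
            rw [← h5]
            ring
        _ ≤ _ := by gcongr
    have hZ := ZZ_pos hβ0 h0 (univ : Finset (Fin n → L))
    have h7 : (F.card : ℝ) * β ^ (ε * r) ≤ ZZ β (Free (ptv (p := p) a n)) univ := by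
      unfold ZZ
      rw [← nsmul_eq_mul, ← sum_const]
      refine le_trans (sum_le_sum (g := fun I => β ^ I.card) fun I hI => ?_)
        (sum_le_sum_of_subset_of_nonneg (fun I hI => ?_) fun _ _ _ => by positivity)
      · rw [hF, mem_filter] at hI
        rw [← Real.rpow_natCast]
        exact Real.rpow_le_rpow_of_exponent_ge hβ0 hβ1 hI.2.2.le
      · rw [hF, mem_filter] at hI
        rw [mem_filter]
        exact ⟨hI.1, hI.2.1⟩
    have h8 : β ^ (ε * r) = Real.exp (-(ε * r * (j * Real.log p))) := by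
      rw [Real.rpow_def_of_pos hβ0, hlogβ]
      congr 1
      ring
    have h9 : ZZ β (Free (ptv (p := p) a n)) univ ≤ Real.exp (Real.log 2 / 4 * r) := by
      rw [← Real.log_le_iff_le_exp hZ]
      exact h6
    rw [h8, Real.exp_neg, ← div_eq_mul_inv, div_le_iff₀ (Real.exp_pos _)] at h7
    refine h7.trans ?_
    calc ZZ β (Free (ptv (p := p) a n)) univ * Real.exp (ε * r * (j * Real.log p))
        ≤ Real.exp (Real.log 2 / 4 * r) * Real.exp (Real.log 2 / 4 * r) := by
          refine mul_le_mul h9 (Real.exp_le_exp.2 ?_) (Real.exp_pos _).le (Real.exp_pos _).le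
          have h10 : ε * (j * Real.log p) ≤ Real.log 2 / 4 := by
            have h11 : 0 < (j : ℝ) * Real.log p + 1 := by positivity
            calc ε * (j * Real.log p) ≤ Real.log 2 / 4 / ((j : ℝ) * Real.log p + 1) *
                  ((j : ℝ) * Real.log p + 1) := by
                  gcongr
                  · exact min_le_left _ _
                  · linarith
              _ = _ := div_mul_cancel₀ _ h11.ne'
          calc ε * r * (j * Real.log p) = ε * (j * Real.log p) * r := by ring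
            _ ≤ _ := by gcongr
      _ = (2 : ℝ) ^ (r / 2) := by
          rw [← Real.exp_add, Real.rpow_def_of_pos (by norm_num)]
          congr 1
          ring
  · have h1 : ε * r ≤ 1 := by
      have h2 := rr_le_pow (p := p) a n
      have h3 : (Fintype.card L : ℝ) ^ n ≤ (Fintype.card L : ℝ) ^ n₀ :=
        pow_le_pow_right₀ hB1 (by omega)
      have h4 : 0 < (Fintype.card L : ℝ) ^ n₀ := by positivity
      calc ε * r ≤ 1 / (Fintype.card L : ℝ) ^ n₀ * (Fintype.card L : ℝ) ^ n₀ := by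
            refine mul_le_mul (min_le_right _ _) (h2.trans h3) hr0 (by positivity)
        _ = 1 := by field_simp
    have h2 : F.card ≤ 1 := by
      rw [card_le_one]
      have h3 : ∀ I ∈ F, I = ∅ := by
        intro I hI
        rw [hF, mem_filter] at hI
        have h4 : (I.card : ℝ) < 1 := hI.2.2.trans_le h1
        have h5 : I.card < 1 := by exact_mod_cast h4
        rw [← card_eq_zero]
        omega
      intro I hI J hJ
      rw [h3 I hI, h3 J hJ]
    have h3 : (1 : ℝ) ≤ (2 : ℝ) ^ (r / 2) := Real.one_le_rpow (by norm_num) (by positivity)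
    refine le_trans ?_ h3
    exact_mod_cast h2

end

end Pool.Agent.U465.SR
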