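import Pool.Agent.U465.SR.Vec4

set_option autoImplicit false

/-!
# Low densities, and large activities
-/

open Finset

namespace Pool.Agent.U465.SR

section

open scoped Classical

/-- The mean of a monotone function is monotone in the density. -/
theorem EE_mono_q {X : Type} {q q' : ℝ} (hq0 : 0 ≤ q) (hqq : q ≤ q') (hq1 : q' ≤ 1)
    (V : Finset X) : ∀ f : Finset X → ℝ, (∀ S S' : Finset X, S ⊆ S' → f S ≤ f S') →
    EE q V f ≤ EE q' V f := by
  induction V using Finset.induction_on with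
  | empty =>
    intro f _
    simp [EE]
  | insert v V hv ih =>
    intro f hf
    rw [EE_insert hv, EE_insert hv]
    have h1 := ih (fun S => f (insert v S)) (fun S S' h => hf _ _ (insert_subset_insert v h))
    have h2 := ih f hf
    have h3 : EE q' V f ≤ EE q' V (fun S => f (insert v S)) :=
      EE_mono (hq0.trans hqq) hq1 fun S _ => hf _ _ (subset_insert v S)
    have h4 := mul_le_mul_of_nonneg_left h1 hq0
    have h5 := mul_le_mul_of_nonneg_left h2 (by linarith : 0 ≤ 1 - q)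
    nlinarith

theorem EE_card_self {X : Type} (q : ℝ) (V : Finset X) :
    EE q V (fun S => (S.card : ℝ)) = q * V.card := by
  rw [← EE_card V V (Subset.refl V)]
  exact EE_congr fun S hS => by rw [inter_eq_left.2 hS]

theorem ZZ_pos {X : Type} {β : ℝ} (hβ : 0 < β) {P : Finset X → Prop} (h0 : P ∅) (V : Finset X) :
    0 < ZZ β P V := by
  unfold ZZ
  refine sum_pos (fun I _ => by positivity) ⟨∅, ?_⟩
  rw [mem_filter]
  exact ⟨mem_powerset.2 (empty_subset _), h0⟩

theorem ZZ_mono {X : Type} {β β' : ℝ} (hβ : 0 ≤ β) (h : β ≤ β') (P : Finset X → Prop)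
    (V : Finset X) : ZZ β P V ≤ ZZ β' P V :=
  sum_le_sum fun I _ => pow_le_pow_left₀ hβ h _

theorem ZZ_le {X : Type} {β : ℝ} (hβ : 0 ≤ β) (P : Finset X → Prop) (V : Finset X) :
    ZZ β P V ≤ Real.exp (β * V.card) := by
  have h1 : ZZ β P V ≤ ∑ I ∈ V.powerset, β ^ I.card :=
    sum_le_sum_of_subset_of_nonneg (filter_subset _ _) fun _ _ _ => by positivity
  have h7 := Finset.sum_pow_mul_eq_add_pow β 1 V
  simp only [one_pow, mul_one] at h7
  rw [h7] at h1
  refine h1.trans ?_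
  rw [mul_comm, Real.exp_nat_mul]
  refine pow_le_pow_left₀ (by positivity) ?_ _
  have := Real.add_one_le_exp β
  linarith

/-- Large activities. -/
theorem ZZ_large {X : Type} {β : ℝ} (hβ : 1 ≤ β) (P : Finset X → Prop) (V : Finset X) :
    ZZ β P V ≤ ZZ 1 P V * β ^ alph P V := by
  unfold ZZ
  rw [sum_mul]
  refine sum_le_sum fun I hI => ?_
  rw [mem_filter, mem_powerset] at hI
  rw [one_pow, one_mul]
  exact pow_le_pow_right₀ hβ (card_le_alph hI.1 hI.2)

theorem ZZ_lower {X : Type} {β : ℝ} (hβ : 0 ≤ β) {P : Finset X → Prop} (h0 : P ∅)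
    (hP : ∀ I J : Finset X, J ⊆ I → P I → P J) (V : Finset X) :
    (1 + β) ^ alph P V ≤ ZZ β P V := by
  obtain ⟨I, hIV, hPI, hI⟩ := exists_alph h0 V
  have h7 := Finset.sum_pow_mul_eq_add_pow β 1 I
  simp only [one_pow, mul_one] at h7
  rw [← hI, add_comm, ← h7]
  refine sum_le_sum_of_subset_of_nonneg (fun J hJ => ?_) fun _ _ _ => by positivity
  rw [mem_powerset] at hJ
  rw [mem_filter, mem_powerset]
  exact ⟨hJ.trans hIV, hP I J hJ hPI⟩

variable {p : ℕ} [hp : Fact p.Prime] {L : Type} [AddCommGroup L] [Module (ZMod p) L] [Fintype L]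
  {k : ℕ}

theorem range_le (hk : 2 ≤ k) {n : ℕ} {q : ℝ} (hq0 : 0 ≤ q) (h : 1 ≤ (p : ℝ) ^ n * q ^ (k - 1)) :
    (p : ℝ) ^ (-((n : ℝ) / ((k : ℝ) - 1))) ≤ q := by
  have hp0 : (0 : ℝ) < p := by exact_mod_cast hp.out.pos
  have hk1 : (0 : ℝ) < (k : ℝ) - 1 := by
    have : (2 : ℝ) ≤ k := by exact_mod_cast hk
    linarith
  have hk2 : ((k - 1 : ℕ) : ℝ) = (k : ℝ) - 1 := by
    rw [Nat.cast_sub (by omega), Nat.cast_one]
  have h1 : ((p : ℝ) ^ (-((n : ℝ) / ((k : ℝ) - 1)))) ^ (k - 1) ≤ q ^ (k - 1) := by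
    rw [← Real.rpow_natCast, ← Real.rpow_mul hp0.le, hk2, neg_mul, div_mul_cancel₀ _ hk1.ne',
      Real.rpow_neg hp0.le, Real.rpow_natCast, inv_le_iff_one_le_mul₀ (by positivity), mul_comm]
    exact h
  exact le_of_pow_le_pow_left₀ (by omega) hq0 h1

/-- **Low densities.** -/
theorem lowV (a : Fin k → L) (ha : Function.Injective a) (hk : 2 ≤ k) (n : ℕ) (q : ℝ)
    (hq0 : 0 ≤ q) (hq1 : q ≤ 1) (hq : (p : ℝ) ^ n * q ^ (k - 1) ≤ 1) :
    1 / 4 * (q * (Fintype.card L : ℝ) ^ n) ≤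
      EE (q / 2) (univ : Finset (Fin n → L)) (fun S => (alph (Free (ptv (p := p) a n)) S : ℝ)) ∧
    EE (q / 2) (univ : Finset (Fin n → L)) (fun S => (alph (Free (ptv (p := p) a n)) S : ℝ)) ≤
      EE q (univ : Finset (Fin n → L)) (fun S => (alph (Free (ptv (p := p) a n)) S : ℝ)) ∧
    EE q (univ : Finset (Fin n → L)) (fun S => (alph (Free (ptv (p := p) a n)) S : ℝ)) ≤
      q * (Fintype.card L : ℝ) ^ n := by
  set B : ℝ := (Fintype.card L : ℝ) with hB
  have hX : ((univ : Finset (Fin n → L)).card : ℝ) = B ^ n := by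
    rw [card_univ, Fintype.card_fun, Fintype.card_fin, Nat.cast_pow]
  refine ⟨?_, ?_, ?_⟩
  · have h3 := lower (by omega) (sysv (p := p) ha n) (q := q / 2) (by linarith) (by linarith)
      (univ : Finset (Fin n → L))
    refine le_trans ?_ h3
    have h4 : (cnt (ptv (p := p) a n) univ : ℝ) ≤ B ^ n * (p : ℝ) ^ n := by
      have h5 : cnt (ptv (p := p) a n) univ ≤
          Fintype.card {z : (Fin n → L) × (Fin n → ZMod p) // z.2 ≠ 0} := card_le_univ _
      have h6 := h5.trans (Fintype.card_subtype_le _)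
      rw [Fintype.card_prod, Fintype.card_fun, Fintype.card_fun, Fintype.card_fin,
        ZMod.card] at h6
      have h7 : (cnt (ptv (p := p) a n) univ : ℝ) ≤ (Fintype.card L : ℝ) ^ n * (p : ℝ) ^ n := by
        exact_mod_cast h6
      exact h7
    rw [hX]
    have hB0 : 0 ≤ B ^ n := by positivity
    have h7 : (q / 2) ^ k = q / 2 * (q / 2) ^ (k - 1) := by
      rw [← pow_succ']
      congr 1
      omega
    have h8 : (q / 2) ^ (k - 1) * (p : ℝ) ^ n ≤ 1 / 2 := by
      rw [div_pow]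
      have h9 : (2 : ℝ) ≤ 2 ^ (k - 1) := by
        calc (2 : ℝ) = 2 ^ 1 := (pow_one _).symm
          _ ≤ 2 ^ (k - 1) := pow_le_pow_right₀ (by norm_num) (by omega)
      rw [div_mul_eq_mul_div, div_le_iff₀ (by positivity)]
      linarith
    have h9 : (q / 2) ^ k * (cnt (ptv (p := p) a n) univ : ℝ) ≤ q / 2 * B ^ n * (1 / 2) := by
      calc (q / 2) ^ k * (cnt (ptv (p := p) a n) univ : ℝ)
          ≤ (q / 2) ^ k * (B ^ n * (p : ℝ) ^ n) := by gcongr
        _ = q / 2 * B ^ n * ((q / 2) ^ (k - 1) * (p : ℝ) ^ n) := by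
            rw [h7]
            ring
        _ ≤ _ := by gcongr
    linarith
  · refine EE_mono_q (by linarith) (by linarith) hq1 _ _ fun S S' h => ?_
    exact_mod_cast alph_mono h
  · rw [← hX, ← EE_card_self q]
    exact EE_mono hq0 hq1 fun S _ => Nat.cast_le.2 (alph_le_card S)

end

end Pool.Agent.U465.SR
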