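import Pool.Agent.U465.SR.Lim
import Pool.Agent.U465.APCor
import Pool.Agent.Results.MP_b30443_co.NormFormBound

set_option autoImplicit false

/-!
# Arithmetic progressions in random subsets of `F_p ^ n`
-/

open Finset Filter Topology

namespace Pool.Agent.U465.SR

open Pool.Agent.U465.AP (APFree r lam card_le_r exists_r r_le_lam lam_ge r_ge)

section

open scoped Classical

variable {p : ℕ} [hp : Fact p.Prime] {k : ℕ}

/-- The letters of the progressions. -/
def aAP (p k : ℕ) (j : Fin k) : ZMod p := ((j : ℕ) : ZMod p)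

theorem aAP_inj (hkp : k ≤ p) : Function.Injective (aAP p k) := by
  intro i j hij
  unfold aAP at hij
  have h1 := (ZMod.natCast_eq_natCast_iff' i j p).mp hij
  rw [Nat.mod_eq_of_lt (lt_of_lt_of_le i.2 hkp), Nat.mod_eq_of_lt (lt_of_lt_of_le j.2 hkp)] at h1
  exact Fin.ext h1

theorem free_eq (k n : ℕ) : Free (ptv (p := p) (aAP p k) n) =
    (APFree k : Finset (Fin n → ZMod p) → Prop) := by
  funext A
  refine propext ⟨fun h x y hxy => ?_, fun h t ht => ?_⟩
  · by_contra hy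
    refine h ⟨(x, y), hy⟩ fun j => ?_
    have h1 := hxy j j.2
    have h2 : ptv (p := p) (aAP p k) n ⟨(x, y), hy⟩ j = x + (j : ℕ) • y := by
      funext i
      change x i + y i • (((j : ℕ) : ℕ) : ZMod p) = x i + (j : ℕ) • y i
      rw [smul_eq_mul, nsmul_eq_mul]
      ring
    rw [h2]
    exact h1
  · refine t.2 (h t.1.1 t.1.2 fun j hj => ?_)
    have h1 := ht ⟨j, hj⟩
    have h2 : ptv (p := p) (aAP p k) n t ⟨j, hj⟩ = t.1.1 + j • t.1.2 := by
      funext i
      change t.1.1 i + t.1.2 i • ((j : ℕ) : ZMod p) = t.1.1 i + j • t.1.2 i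
      rw [smul_eq_mul, nsmul_eq_mul]
      ring
    rwa [h2] at h1

theorem rr_eq (hk : 0 < k) (n : ℕ) : rr p (aAP p k) n = r k p n := by
  unfold rr
  rw [free_eq]
  apply le_antisymm
  · obtain ⟨I, _, hI, hc⟩ := exists_alph (P := APFree k)
      (fun x y h => absurd (h 0 hk) (notMem_empty _)) (univ : Finset (Fin n → ZMod p))
    rw [← hc]
    exact card_le_r hI
  · obtain ⟨A, hA, hc⟩ := exists_r (p := p) hk n
    rw [← hc]
    exact card_le_alph (subset_univ _) hA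

theorem lam_le : lam k p ≤ p := by
  unfold lam
  refine ciSup_le fun n => ?_
  have h1 : (r k p (n + 1) : ℝ) ≤ (p : ℝ) ^ (n + 1) := by
    exact_mod_cast Pool.Agent.U465.AP.r_le (p := p) k (n + 1)
  have h2 : (0 : ℝ) ≤ (r k p (n + 1) : ℝ) := by positivity
  calc (r k p (n + 1) : ℝ) ^ (1 / ((n : ℝ) + 1))
      ≤ ((p : ℝ) ^ (n + 1)) ^ (1 / ((n : ℝ) + 1)) :=
        Real.rpow_le_rpow h2 h1 (by positivity)
    _ = (p : ℝ) := by
        have : ((n : ℝ) + 1) = ((n + 1 : ℕ) : ℝ) := by push_cast; ring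
        rw [this, one_div, Real.pow_rpow_inv_natCast (by positivity) (by omega)]

theorem lt_lam (hk : 3 ≤ k) (hkp : k ≤ p) : (p : ℝ) < lam k p * (p : ℝ) ^ (1 / ((k : ℝ) - 1)) := by
  have h1 : (p : ℝ) ^ (1 - 2 / ((k : ℝ) * ((k : ℝ) - 1))) ≤ lam k p :=
    Pool.Agent.Results.MP_b30443_co.NormFormBound.result p k (by omega) hkp
  have hp0 : (0 : ℝ) < p := by exact_mod_cast hp.out.pos
  have hp1 : (1 : ℝ) < p := by exact_mod_cast hp.out.one_lt
  have hk3 : (3 : ℝ) ≤ k := by exact_mod_cast hk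
  calc (p : ℝ) = (p : ℝ) ^ (1 : ℝ) := (Real.rpow_one _).symm
    _ < (p : ℝ) ^ (1 - 2 / ((k : ℝ) * ((k : ℝ) - 1)) + 1 / ((k : ℝ) - 1)) := by
        refine Real.rpow_lt_rpow_of_exponent_lt hp1 ?_
        have h2 : 2 / ((k : ℝ) * ((k : ℝ) - 1)) < 1 / ((k : ℝ) - 1) := by
          rw [div_lt_div_iff₀ (by nlinarith) (by linarith)]
          nlinarith
        linarith
    _ = (p : ℝ) ^ (1 - 2 / ((k : ℝ) * ((k : ℝ) - 1))) * (p : ℝ) ^ (1 / ((k : ℝ) - 1)) :=
        Real.rpow_add hp0 _ _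
    _ ≤ _ := by gcongr

end

end Pool.Agent.U465.SR
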