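import Mathlib

set_option autoImplicit false

/-!
# Random subsets: expectation, Efron–Stein inequality, hereditary properties
-/

open Finset

namespace Pool.Agent.U465.SR

section

open scoped Classical

/-- The expectation of `f (S)` for the random subset `S` of `V` which contains each element with
probability `q`, independently. -/
noncomputable def EE {X : Type} (q : ℝ) (V : Finset X) (f : Finset X → ℝ) : ℝ :=
  ∑ S ∈ V.powerset, q ^ S.card * (1 - q) ^ (V.card - S.card) * f S

variable {X : Type} {q : ℝ}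

theorem EE_one (V : Finset X) : EE q V (fun _ => 1) = 1 := by
  unfold EE
  simp only [mul_one]
  rw [Finset.sum_pow_mul_eq_add_pow]
  norm_num

theorem EE_const (V : Finset X) (c : ℝ) : EE q V (fun _ => c) = c := by
  have h := EE_one (q := q) V
  unfold EE at *
  simp only [mul_one] at h
  rw [← sum_mul, h, one_mul]

theorem EE_congr {V : Finset X} {f g : Finset X → ℝ} (h : ∀ S ⊆ V, f S = g S) :
    EE q V f = EE q V g :=
  sum_congr rfl fun S hS => by rw [h S (mem_powerset.1 hS)]

theorem EE_mono (hq0 : 0 ≤ q) (hq1 : q ≤ 1) {V : Finset X} {f g : Finset X → ℝ}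
    (h : ∀ S ⊆ V, f S ≤ g S) : EE q V f ≤ EE q V g := by
  refine sum_le_sum fun S hS => mul_le_mul_of_nonneg_left (h S (mem_powerset.1 hS)) ?_
  have : 0 ≤ 1 - q := by linarith
  positivity

theorem EE_nonneg (hq0 : 0 ≤ q) (hq1 : q ≤ 1) {V : Finset X} {f : Finset X → ℝ}
    (h : ∀ S ⊆ V, 0 ≤ f S) : 0 ≤ EE q V f := by
  rw [← EE_const (q := q) V 0]
  exact EE_mono hq0 hq1 h

theorem EE_add (V : Finset X) (f g : Finset X → ℝ) :
    EE q V (fun S => f S + g S) = EE q V f + EE q V g := by
  unfold EE
  rw [← sum_add_distrib]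
  exact sum_congr rfl fun S _ => by ring

theorem EE_sub (V : Finset X) (f g : Finset X → ℝ) :
    EE q V (fun S => f S - g S) = EE q V f - EE q V g := by
  unfold EE
  rw [← sum_sub_distrib]
  exact sum_congr rfl fun S _ => by ring

theorem EE_mul (V : Finset X) (c : ℝ) (f : Finset X → ℝ) :
    EE q V (fun S => c * f S) = c * EE q V f := by
  unfold EE
  rw [mul_sum]
  exact sum_congr rfl fun S _ => by ring

theorem EE_sum {ι : Type} (V : Finset X) (s : Finset ι) (f : ι → Finset X → ℝ) :
    EE q V (fun S => ∑ i ∈ s, f i S) = ∑ i ∈ s, EE q V (f i) := by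
  unfold EE
  rw [sum_comm]
  exact sum_congr rfl fun S _ => by rw [mul_sum]

theorem EE_insert {v : X} {V : Finset X} (hv : v ∉ V) (f : Finset X → ℝ) :
    EE q (insert v V) f = q * EE q V (fun S => f (insert v S)) + (1 - q) * EE q V f := by
  unfold EE
  rw [sum_powerset_insert hv, mul_sum, mul_sum, add_comm]
  congr 1
  · refine sum_congr rfl fun S hS => ?_
    have h1 : v ∉ S := fun h => hv (mem_powerset.1 hS h)
    rw [card_insert_of_notMem h1, card_insert_of_notMem hv, Nat.add_sub_add_right, pow_succ]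
    ring
  · refine sum_congr rfl fun S hS => ?_
    have h1 : S.card ≤ V.card := card_le_card (mem_powerset.1 hS)
    rw [card_insert_of_notMem hv, Nat.sub_add_comm h1, pow_succ]
    ring

theorem EE_prod (V : Finset X) (a b : X → ℝ) :
    EE q V (fun S => ∏ v ∈ V, if v ∈ S then a v else b v) = ∏ v ∈ V, (q * a v + (1 - q) * b v) := by
  induction V using Finset.induction_on with
  | empty =>
    simp [EE]
  | insert w V hw ih =>
    rw [EE_insert hw, prod_insert hw, ← ih]
    have h1 : EE q V (fun S => ∏ v ∈ insert w V, if v ∈ insert w S then a v else b v) =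
        a w * EE q V (fun S => ∏ v ∈ V, if v ∈ S then a v else b v) := by
      rw [← EE_mul]
      refine EE_congr fun S _ => ?_
      rw [prod_insert hw, if_pos (mem_insert_self w S)]
      congr 1
      refine prod_congr rfl fun v hv => ?_
      have h2 : v ≠ w := fun h => hw (h ▸ hv)
      simp only [mem_insert, h2, false_or]
    have h3 : EE q V (fun S => ∏ v ∈ insert w V, if v ∈ S then a v else b v) =
        b w * EE q V (fun S => ∏ v ∈ V, if v ∈ S then a v else b v) := by
      rw [← EE_mul]
      refine EE_congr fun S hS => ?_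
      rw [prod_insert hw, if_neg (fun h => hw (hS h))]
    rw [h1, h3]
    ring

/-- Jensen's inequality for the square. -/
theorem EE_sq (hq0 : 0 ≤ q) (hq1 : q ≤ 1) (V : Finset X) (f : Finset X → ℝ) :
    EE q V f ^ 2 ≤ EE q V (fun S => f S ^ 2) := by
  have h1 : 0 ≤ EE q V (fun S => (f S - EE q V f) ^ 2) :=
    EE_nonneg hq0 hq1 fun S _ => sq_nonneg _
  have h2 : EE q V (fun S => (f S - EE q V f) ^ 2) =
      EE q V (fun S => f S ^ 2) - 2 * EE q V f * EE q V f + EE q V f ^ 2 := by
    rw [← EE_mul V (2 * EE q V f) f, ← EE_sub, ← EE_const (q := q) V (EE q V f ^ 2), ← EE_add]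
    refine EE_congr fun S _ => ?_
    ring
  rw [h2] at h1
  linarith

/-- **The Efron–Stein inequality** for random subsets. -/
theorem efron_stein (hq0 : 0 ≤ q) (hq1 : q ≤ 1) (V : Finset X) : ∀ f : Finset X → ℝ,
    EE q V (fun S => f S ^ 2) - EE q V f ^ 2 ≤
      q * (1 - q) * ∑ v ∈ V, EE q (V.erase v) (fun S => (f (insert v S) - f S) ^ 2) := by
  induction V using Finset.induction_on with
  | empty =>
    intro f
    simp [EE]
  | insert w V hw ih =>
    intro f
    have h1 := ih f
    have h2 := ih (fun S => f (insert w S))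
    rw [EE_insert hw, EE_insert hw, sum_insert hw, erase_insert hw]
    have h3 : ∀ v ∈ V, EE q ((insert w V).erase v) (fun S => (f (insert v S) - f S) ^ 2) =
        q * EE q (V.erase v) (fun S => (f (insert w (insert v S)) - f (insert w S)) ^ 2) +
        (1 - q) * EE q (V.erase v) (fun S => (f (insert v S) - f S) ^ 2) := by
      intro v hv
      have hvw : v ≠ w := fun h => hw (h ▸ hv)
      rw [erase_insert_of_ne hvw.symm, EE_insert (fun h => hw (mem_of_mem_erase h))]
      congr 3
      funext S
      rw [insert_comm]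
    rw [sum_congr rfl h3, sum_add_distrib, ← mul_sum, ← mul_sum]
    have h4 : (EE q V (fun S => f (insert w S)) - EE q V f) ^ 2 ≤
        EE q V (fun S => (f (insert w S) - f S) ^ 2) := by
      rw [← EE_sub]
      exact EE_sq hq0 hq1 V _
    have h5 : 0 ≤ q * (1 - q) := mul_nonneg hq0 (by linarith)
    have h6 := mul_le_mul_of_nonneg_left h4 h5
    have h7 := mul_le_mul_of_nonneg_left h1 (by linarith : 0 ≤ 1 - q)
    have h8 := mul_le_mul_of_nonneg_left h2 hq0
    nlinarith

/-- The largest size of a subset of `S` with the property `P`. -/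
noncomputable def alph (P : Finset X → Prop) (S : Finset X) : ℕ :=
  (S.powerset.filter P).sup card

theorem card_le_alph {P : Finset X → Prop} {I S : Finset X} (hI : I ⊆ S) (hP : P I) :
    I.card ≤ alph P S :=
  le_sup (f := card) (mem_filter.2 ⟨mem_powerset.2 hI, hP⟩)

theorem exists_alph {P : Finset X → Prop} (h0 : P ∅) (S : Finset X) :
    ∃ I ⊆ S, P I ∧ I.card = alph P S := by
  obtain ⟨I, hI, h⟩ := exists_mem_eq_sup (S.powerset.filter P)
    ⟨∅, mem_filter.2 ⟨mem_powerset.2 (empty_subset _), h0⟩⟩ card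
  rw [mem_filter, mem_powerset] at hI
  exact ⟨I, hI.1, hI.2, h.symm⟩

theorem alph_mono {P : Finset X → Prop} {S S' : Finset X} (h : S ⊆ S') : alph P S ≤ alph P S' := by
  refine Finset.sup_le fun I hI => ?_
  rw [mem_filter, mem_powerset] at hI
  exact card_le_alph (hI.1.trans h) hI.2

theorem alph_le_card {P : Finset X → Prop} (S : Finset X) : alph P S ≤ S.card := by
  refine Finset.sup_le fun I hI => ?_
  rw [mem_filter, mem_powerset] at hI
  exact card_le_card hI.1

theorem alph_insert_le {P : Finset X → Prop} (hP : ∀ I J : Finset X, J ⊆ I → P I → P J)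
    (S : Finset X) (v : X) : alph P (insert v S) ≤ alph P S + 1 := by
  refine Finset.sup_le fun I hI => ?_
  rw [mem_filter, mem_powerset] at hI
  have h1 : I.erase v ⊆ S := by
    intro x hx
    rw [mem_erase] at hx
    exact (mem_insert.1 (hI.1 hx.2)).resolve_left hx.1
  have h2 := card_le_alph h1 (hP I _ (erase_subset _ _) hI.2)
  have h3 := pred_card_le_card_erase (s := I) (a := v)
  omega

/-- **Concentration**: the variance of the largest size of a subset with a hereditary property is at
most its mean. -/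
theorem var_alph (hq0 : 0 ≤ q) (hq1 : q ≤ 1) {P : Finset X → Prop} (h0 : P ∅)
    (hP : ∀ I J : Finset X, J ⊆ I → P I → P J) (V : Finset X) :
    EE q V (fun S => ((alph P S : ℝ) - EE q V (fun S => (alph P S : ℝ))) ^ 2) ≤
      EE q V (fun S => (alph P S : ℝ)) := by
  set m := EE q V (fun S => (alph P S : ℝ)) with hm
  have h1 : EE q V (fun S => ((alph P S : ℝ) - m) ^ 2) =
      EE q V (fun S => (alph P S : ℝ) ^ 2) - m ^ 2 := by
    have h2 : EE q V (fun S => ((alph P S : ℝ) - m) ^ 2) =
        EE q V (fun S => (alph P S : ℝ) ^ 2) - 2 * m * m + m ^ 2 := by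
      conv_rhs => rw [hm]
      rw [← hm]
      have h3 : 2 * m * m = EE q V (fun S => 2 * m * (alph P S : ℝ)) := by
        rw [EE_mul]
      rw [h3, ← EE_sub, ← EE_const (q := q) V (m ^ 2), ← EE_add]
      refine EE_congr fun S _ => ?_
      ring
    rw [h2]
    ring
  rw [h1, hm]
  refine (efron_stein hq0 hq1 V _).trans ?_
  have h2 : ∀ v ∈ V, (1 - q) * EE q (V.erase v)
      (fun S => ((alph P (insert v S) : ℝ) - alph P S) ^ 2) * q ≤
      EE q V (fun S => (alph P S : ℝ) - alph P (S.erase v)) := by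
    intro v hv
    conv_rhs => rw [← insert_erase hv]
    rw [EE_insert (notMem_erase v V)]
    have h3 : EE q (V.erase v) (fun S => (alph P (insert v S) : ℝ) -
        alph P ((insert v S).erase v)) =
        EE q (V.erase v) (fun S => (alph P (insert v S) : ℝ) - alph P S) :=
      EE_congr fun S hS => by
        rw [erase_insert (fun h => notMem_erase v V (hS h))]
    have h4 : EE q (V.erase v) (fun S => (alph P S : ℝ) - alph P (S.erase v)) = 0 := by
      rw [← EE_const (q := q) (V.erase v) 0]
      refine EE_congr fun S hS => ?_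
      rw [erase_eq_of_notMem (fun h => notMem_erase v V (hS h)), sub_self]
    have h5 : EE q (V.erase v) (fun S => ((alph P (insert v S) : ℝ) - alph P S) ^ 2) ≤
        EE q (V.erase v) (fun S => (alph P (insert v S) : ℝ) - alph P S) := by
      refine EE_mono hq0 hq1 fun S _ => ?_
      have h6 : (alph P S : ℝ) ≤ alph P (insert v S) := by
        exact_mod_cast alph_mono (subset_insert v S)
      have h7 : (alph P (insert v S) : ℝ) ≤ alph P S + 1 := by
        exact_mod_cast alph_insert_le hP S v
      nlinarith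
    have h6 : 0 ≤ EE q (V.erase v) (fun S => ((alph P (insert v S) : ℝ) - alph P S) ^ 2) :=
      EE_nonneg hq0 hq1 fun S _ => sq_nonneg _
    rw [h3, h4, mul_zero, add_zero]
    calc (1 - q) * EE q (V.erase v) (fun S => ((alph P (insert v S) : ℝ) - alph P S) ^ 2) * q
        ≤ 1 * EE q (V.erase v) (fun S => ((alph P (insert v S) : ℝ) - alph P S) ^ 2) * q := by
          gcongr
          linarith
      _ ≤ 1 * EE q (V.erase v) (fun S => (alph P (insert v S) : ℝ) - alph P S) * q := by
          gcongr
      _ = _ := by ring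
  calc q * (1 - q) * ∑ v ∈ V, EE q (V.erase v)
        (fun S => ((alph P (insert v S) : ℝ) - alph P S) ^ 2)
      = ∑ v ∈ V, (1 - q) * EE q (V.erase v)
        (fun S => ((alph P (insert v S) : ℝ) - alph P S) ^ 2) * q := by
        rw [mul_sum]
        exact sum_congr rfl fun v _ => by ring
    _ ≤ ∑ v ∈ V, EE q V (fun S => (alph P S : ℝ) - alph P (S.erase v)) := sum_le_sum h2
    _ = EE q V (fun S => ∑ v ∈ V, ((alph P S : ℝ) - alph P (S.erase v))) := (EE_sum V V _).symm
    _ ≤ _ := by
      refine EE_mono hq0 hq1 fun S hS => ?_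
      obtain ⟨I, hIS, hPI, hI⟩ := exists_alph h0 S
      have h3 : ∀ v ∈ V, (alph P S : ℝ) - alph P (S.erase v) ≤ if v ∈ I then 1 else 0 := by
        intro v _
        split_ifs with hvI
        · have h4 := alph_insert_le hP (S.erase v) v
          rw [insert_erase (hIS hvI)] at h4
          have h5 : (alph P S : ℝ) ≤ alph P (S.erase v) + 1 := by exact_mod_cast h4
          linarith
        · have h4 : I ⊆ S.erase v := fun x hx => mem_erase.2 ⟨fun h => hvI (h ▸ hx), hIS hx⟩
          have h5 := card_le_alph h4 hPI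
          rw [hI] at h5
          have h6 : (alph P S : ℝ) ≤ alph P (S.erase v) := by exact_mod_cast h5
          linarith
      refine (sum_le_sum h3).trans ?_
      rw [sum_ite_mem, sum_const, nsmul_eq_mul, mul_one, ← hI]
      exact_mod_cast card_le_card inter_subset_right

/-- The probability of an event. -/
noncomputable def Pr (q : ℝ) (V : Finset X) (E : Finset X → Prop) : ℝ :=
  EE q V (fun S => if E S then 1 else 0)

theorem Pr_mono (hq0 : 0 ≤ q) (hq1 : q ≤ 1) {V : Finset X} {E E' : Finset X → Prop}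
    (h : ∀ S ⊆ V, E S → E' S) : Pr q V E ≤ Pr q V E' := by
  refine EE_mono hq0 hq1 fun S hS => ?_
  by_cases h1 : E S
  · rw [if_pos h1, if_pos (h S hS h1)]
  · rw [if_neg h1]
    split_ifs <;> norm_num

/-- Chebyshev's inequality for `alph`. -/
theorem cheb_alph (hq0 : 0 ≤ q) (hq1 : q ≤ 1) {P : Finset X → Prop} (h0 : P ∅)
    (hP : ∀ I J : Finset X, J ⊆ I → P I → P J) (V : Finset X) (t : ℝ) (ht : 0 < t) :
    Pr q V (fun S => t ≤ |(alph P S : ℝ) - EE q V (fun S => (alph P S : ℝ))|) ≤
      EE q V (fun S => (alph P S : ℝ)) / t ^ 2 := by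
  have h1 := var_alph hq0 hq1 h0 hP V
  set m := EE q V (fun S => (alph P S : ℝ)) with hm
  rw [le_div_iff₀ (by positivity), mul_comm]
  refine le_trans ?_ h1
  unfold Pr
  rw [← EE_mul]
  refine EE_mono hq0 hq1 fun S _ => ?_
  split_ifs with h2
  · rw [mul_one, ← sq_abs ((alph P S : ℝ) - m)]
    exact pow_le_pow_left₀ ht.le h2 2
  · rw [mul_zero]
    positivity

/-- The exponential moment of `|S ∩ C|` on the event `T ⊆ S`. -/
theorem EE_moment (hq0 : 0 ≤ q) (hq1 : q ≤ 1) {V T C : Finset X} (hT : T ⊆ V) (hC : C ⊆ V)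
    (hTC : Disjoint T C) :
    EE q V (fun S => if T ⊆ S then Real.exp ((S ∩ C).card) else 0) ≤
      q ^ T.card * Real.exp (2 * q * C.card) := by
  have h1 : EE q V (fun S => if T ⊆ S then Real.exp ((S ∩ C).card) else 0) ≤
      EE q V (fun S => ∏ v ∈ V, if v ∈ S then (if v ∈ C then Real.exp 1 else 1)
        else (if v ∈ T then 0 else 1)) := by
    refine EE_mono hq0 hq1 fun S hS => ?_
    split_ifs with hTS
    · have h2 : ∀ v ∈ V, (if v ∈ S then (if v ∈ C then Real.exp 1 else 1)
          else (if v ∈ T then (0 : ℝ) else 1)) = if v ∈ S ∩ C then Real.exp 1 else 1 := by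
        intro v _
        by_cases hvS : v ∈ S
        · by_cases hvC : v ∈ C
          · rw [if_pos hvS, if_pos hvC, if_pos (mem_inter.2 ⟨hvS, hvC⟩)]
          · rw [if_pos hvS, if_neg hvC, if_neg (fun h => hvC (mem_inter.1 h).2)]
        · rw [if_neg hvS, if_neg (fun h => hvS (hTS h)), if_neg (fun h => hvS (mem_inter.1 h).1)]
      rw [prod_congr rfl h2, prod_ite_mem, prod_const, inter_eq_right.2
        (inter_subset_left.trans hS), ← Real.exp_nat_mul, mul_one]
    · refine prod_nonneg fun v _ => ?_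
      split_ifs <;> positivity
  refine h1.trans ?_
  rw [EE_prod]
  have h2 : ∀ v ∈ V, q * (if v ∈ C then Real.exp 1 else 1) + (1 - q) * (if v ∈ T then 0 else 1) ≤
      (if v ∈ T then q else 1) * (if v ∈ C then Real.exp (2 * q) else 1) := by
    intro v _
    have h3 : ¬ (v ∈ T ∧ v ∈ C) := fun h => disjoint_left.1 hTC h.1 h.2
    by_cases hvT : v ∈ T
    · have hvC : v ∉ C := fun h => h3 ⟨hvT, h⟩
      rw [if_pos hvT, if_pos hvT, if_neg hvC, if_neg hvC]
      linarith
    · by_cases hvC : v ∈ C
      · rw [if_neg hvT, if_neg hvT, if_pos hvC, if_pos hvC]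
        have h4 := Real.exp_one_lt_d9
        have h5 := Real.add_one_le_exp (2 * q)
        nlinarith
      · rw [if_neg hvT, if_neg hvT, if_neg hvC, if_neg hvC]
        linarith
  have h3 : ∀ v ∈ V, 0 ≤ q * (if v ∈ C then Real.exp 1 else 1) +
      (1 - q) * (if v ∈ T then (0 : ℝ) else 1) := by
    intro v _
    have h4 : 0 ≤ 1 - q := by linarith
    have h5 : (0 : ℝ) ≤ if v ∈ T then (0 : ℝ) else 1 := by split_ifs <;> norm_num
    have h6 : (0 : ℝ) ≤ if v ∈ C then Real.exp 1 else 1 := by split_ifs <;> positivity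
    positivity
  refine (prod_le_prod h3 h2).trans (le_of_eq ?_)
  rw [prod_mul_distrib, prod_ite_mem, prod_ite_mem, prod_const, prod_const,
    inter_eq_right.2 hT, inter_eq_right.2 hC, ← Real.exp_nat_mul]
  congr 2
  ring

/-- **Union bound over containers.** -/
theorem tail (hq0 : 0 ≤ q) (hq1 : q ≤ 1) {P : Finset X → Prop} {V : Finset X} {ι : Type}
    (s : Finset ι) (T C : ι → Finset X) {n γ : ℝ}
    (hn : ∑ i ∈ s, (Real.exp 1 * q) ^ (T i).card ≤ n)
    (hs : ∀ i ∈ s, T i ⊆ V ∧ C i ⊆ V ∧ Disjoint (T i) (C i) ∧ ((C i).card : ℝ) ≤ γ)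
    (hcov : ∀ I ⊆ V, P I → ∃ i ∈ s, T i ⊆ I ∧ I ⊆ T i ∪ C i) (l : ℝ) (h0 : P ∅) :
    Pr q V (fun S => l ≤ alph P S) ≤ n * Real.exp (2 * q * γ - l) := by
  have h1 : Pr q V (fun S => l ≤ alph P S) ≤ EE q V (fun S => ∑ i ∈ s,
      Real.exp ((T i).card - l) * (if T i ⊆ S then Real.exp ((S ∩ C i).card) else 0)) := by
    refine EE_mono hq0 hq1 fun S hS => ?_
    have h2 : ∀ i ∈ s, 0 ≤ Real.exp ((T i).card - l) *
        (if T i ⊆ S then Real.exp ((S ∩ C i).card) else 0) := by
      intro i _
      have h3 : (0 : ℝ) ≤ if T i ⊆ S then Real.exp ((S ∩ C i).card) else 0 := by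
        split_ifs <;> positivity
      positivity
    split_ifs with hl
    · obtain ⟨I, hIS, hPI, hI⟩ := exists_alph h0 S
      obtain ⟨i, hi, h3, h4⟩ := hcov I (hIS.trans hS) hPI
      refine le_trans ?_ (single_le_sum h2 hi)
      rw [if_pos (h3.trans hIS), ← Real.exp_add]
      refine Real.one_le_exp ?_
      have h5 : I.card ≤ (T i).card + (S ∩ C i).card := by
        refine le_trans (card_le_card ?_) (card_union_le _ _)
        intro x hx
        rcases mem_union.1 (h4 hx) with h | h
        · exact mem_union_left _ h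
        · exact mem_union_right _ (mem_inter.2 ⟨hIS hx, h⟩)
      have h6 : (I.card : ℝ) ≤ (T i).card + (S ∩ C i).card := by exact_mod_cast h5
      rw [hI] at h6
      linarith
    · exact sum_nonneg h2
  refine h1.trans ?_
  rw [EE_sum]
  have h2 : ∀ i ∈ s, EE q V (fun S => Real.exp ((T i).card - l) *
      (if T i ⊆ S then Real.exp ((S ∩ C i).card) else 0)) ≤
      (Real.exp 1 * q) ^ (T i).card * Real.exp (2 * q * γ - l) := by
    intro i hi
    obtain ⟨h3, h4, h5, h6⟩ := hs i hi
    rw [EE_mul]
    calc Real.exp ((T i).card - l) *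
        EE q V (fun S => if T i ⊆ S then Real.exp ((S ∩ C i).card) else 0)
        ≤ Real.exp ((T i).card - l) * (q ^ (T i).card * Real.exp (2 * q * (C i).card)) :=
          mul_le_mul_of_nonneg_left (EE_moment hq0 hq1 h3 h4 h5) (Real.exp_pos _).le
      _ ≤ Real.exp ((T i).card - l) * (q ^ (T i).card * Real.exp (2 * q * γ)) := by
          gcongr
      _ = _ := by
          rw [mul_pow, ← Real.exp_nat_mul, mul_one, sub_eq_add_neg, sub_eq_add_neg, Real.exp_add,
            Real.exp_add]
          ring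
  refine (sum_le_sum h2).trans ?_
  rw [← sum_mul]
  exact mul_le_mul_of_nonneg_right hn (Real.exp_pos _).le

/-- The mean of `|S ∩ B|` minus the mean number of configurations in `S ∩ B`. -/
theorem EE_card (V B : Finset X) (hB : B ⊆ V) :
    EE q V (fun S => ((S ∩ B).card : ℝ)) = q * B.card := by
  have h1 : ∀ v ∈ B, EE q V (fun S => if v ∈ S then (1 : ℝ) else 0) = q := by
    intro v hv
    rw [← insert_erase (hB hv), EE_insert (notMem_erase v V)]
    have h2 : EE q (V.erase v) (fun S => if v ∈ insert v S then (1 : ℝ) else 0) = 1 :=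
      (EE_congr fun S _ => if_pos (mem_insert_self v S)).trans (EE_one _)
    have h3 : EE q (V.erase v) (fun S => if v ∈ S then (1 : ℝ) else 0) = 0 :=
      (EE_congr fun S hS => if_neg (fun h => notMem_erase v V (hS h))).trans (EE_const _ 0)
    rw [h2, h3]
    ring
  have h4 : ∀ S : Finset X, ((S ∩ B).card : ℝ) = ∑ v ∈ B, if v ∈ S then (1 : ℝ) else 0 := by
    intro S
    rw [sum_ite_mem, sum_const, nsmul_eq_mul, mul_one, inter_comm]
  simp only [h4]
  rw [EE_sum, sum_congr rfl h1, sum_const, nsmul_eq_mul, mul_comm]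

theorem EE_subset {V T : Finset X} (hT : T ⊆ V) :
    EE q V (fun S => if T ⊆ S then (1 : ℝ) else 0) = q ^ T.card := by
  have h1 : EE q V (fun S => if T ⊆ S then (1 : ℝ) else 0) =
      EE q V (fun S => ∏ v ∈ V, if v ∈ S then 1 else (if v ∈ T then 0 else 1)) := by
    refine EE_congr fun S hS => ?_
    split_ifs with hTS
    · rw [eq_comm]
      refine prod_eq_one fun v _ => ?_
      split_ifs with h2 h3
      · rfl
      · exact absurd (hTS h3) h2
      · rfl
    · obtain ⟨v, hvT, hvS⟩ := not_subset.1 hTS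
      rw [eq_comm]
      refine prod_eq_zero (hT hvT) ?_
      rw [if_neg hvS, if_pos hvT]
  rw [h1, EE_prod]
  have h2 : ∀ v ∈ V, q * 1 + (1 - q) * (if v ∈ T then (0 : ℝ) else 1) = if v ∈ T then q else 1 := by
    intro v _
    split_ifs <;> ring
  rw [prod_congr rfl h2, prod_ite_mem, prod_const, inter_eq_right.2 hT]

end

end Pool.Agent.U465.SR
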