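import Pool.Agent.Y940.CT.Iter2

set_option autoImplicit false

/-!
# Containers for systems of configurations in which two points determine the configuration

`pt t 0, …, pt t (k - 1)` are the points of the configuration `t`. If every large set contains many
configurations, then the sets without configurations have few containers, with weighted fingerprints.
The container lemma is `Pool.Agent.Y940.CT.rcontainers`.
-/

open Finset

namespace Pool.Agent.U465.SR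

open Pool.Agent.Y940.CT (Spread RCov Ind deg rcontainers rcost)

section

open scoped Classical

/-- The configurations inside `W`. -/
noncomputable def cop {T : Type} [Fintype T] {k : ℕ} {X : Type} (pt : T → Fin k → X)
    (W : Finset X) : Finset T :=
  univ.filter fun t => ∀ j, pt t j ∈ W

/-- The number of the configurations inside `W`. -/
noncomputable def cnt {T : Type} [Fintype T] {k : ℕ} {X : Type} (pt : T → Fin k → X)
    (W : Finset X) : ℕ :=
  (cop pt W).card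

/-- `I` contains no configuration. -/
def Free {T : Type} {k : ℕ} {X : Type} (pt : T → Fin k → X) (I : Finset X) : Prop :=
  ∀ t, ¬ ∀ j, pt t j ∈ I

/-- The points of a configuration are distinct, and two of them determine it. -/
structure Sys {T : Type} {k : ℕ} {X : Type} (pt : T → Fin k → X) : Prop where
  inj : ∀ t, Function.Injective (pt t)
  det : ∀ t t' i j, i ≠ j → pt t i = pt t' i → pt t j = pt t' j → t = t'

theorem Free.mono {T : Type} {k : ℕ} {X : Type} {pt : T → Fin k → X} {I J : Finset X}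
    (h : Free pt I) (hJ : J ⊆ I) : Free pt J :=
  fun t ht => h t fun j => hJ (ht j)

theorem mem_cop {T : Type} [Fintype T] {k : ℕ} {X : Type} {pt : T → Fin k → X} {W : Finset X}
    {t : T} : t ∈ cop pt W ↔ ∀ j, pt t j ∈ W := by
  simp [cop]

theorem cop_mono {T : Type} [Fintype T] {k : ℕ} {X : Type} {pt : T → Fin k → X} {W W' : Finset X}
    (h : W ⊆ W') : cop pt W ⊆ cop pt W' := by
  intro t ht
  rw [mem_cop] at *
  exact fun j => h (ht j)

variable {T : Type} [Fintype T] {k : ℕ} {pt : T → Fin k → ℕ}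

/-- The set of the points of a configuration. -/
noncomputable def edg (pt : T → Fin k → ℕ) (t : T) : Finset ℕ := univ.image (pt t)

theorem card_edg (h : Sys pt) (t : T) : (edg pt t).card = k := by
  rw [edg, card_image_of_injective _ (h.inj t), card_univ, Fintype.card_fin]

theorem mem_edg {t : T} {v : ℕ} : v ∈ edg pt t ↔ ∃ j, pt t j = v := by
  simp [edg]

/-- two vertices are in at most `k²` configurations -/
theorem pair_le (h : Sys pt) {v v' : ℕ} (hv : v ≠ v') (S : Finset T)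
    (hS : ∀ t ∈ S, v ∈ edg pt t ∧ v' ∈ edg pt t) : S.card ≤ k ^ 2 := by
  have h1 : ∀ t : {t // t ∈ S}, ∃ q : Fin k × Fin k, pt t q.1 = v ∧ pt t q.2 = v' := by
    rintro ⟨t, ht⟩
    obtain ⟨h2, h3⟩ := hS t ht
    obtain ⟨i, hi⟩ := mem_edg.1 h2
    obtain ⟨j, hj⟩ := mem_edg.1 h3
    exact ⟨(i, j), hi, hj⟩
  choose g hg using h1
  have h4 : Function.Injective g := by
    intro t t' htt
    refine Subtype.ext (h.det t.1 t'.1 (g t).1 (g t).2 ?_ ?_ ?_)
    · intro h5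
      apply hv
      rw [← (hg t).1, ← (hg t).2, h5]
    · rw [(hg t).1, htt, (hg t').1]
    · rw [(hg t).2, htt, (hg t').2]
  have h5 := Fintype.card_le_of_injective g h4
  rw [Fintype.card_coe, Fintype.card_prod, Fintype.card_fin] at h5
  rwa [sq]

/-- The labelled degree of a vertex. -/
noncomputable def ld (pt : T → Fin k → ℕ) (𝓜 : Finset T) (v : ℕ) : ℕ :=
  (𝓜.filter fun t => v ∈ edg pt t).card

theorem sum_ld (h : Sys pt) (𝓜 : Finset T) (U : Finset ℕ) (hU : ∀ t ∈ 𝓜, edg pt t ⊆ U) :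
    ∑ v ∈ U, ld pt 𝓜 v = k * 𝓜.card := by
  unfold ld
  simp only [card_filter]
  rw [sum_comm]
  have h1 : ∀ t ∈ 𝓜, (∑ v ∈ U, if v ∈ edg pt t then 1 else 0) = k := by
    intro t ht
    rw [← card_filter, filter_mem_eq_inter, inter_eq_right.2 (hU t ht), card_edg h]
  rw [sum_congr rfl h1, sum_const, smul_eq_mul, mul_comm]

/-- A maximal family of configurations with bounded degrees is large. -/
theorem exists_fam (h : Sys pt) (hk : 2 ≤ k) (U : Finset ℕ) (d : ℕ) (hd : 1 ≤ d)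
    (hss : ∀ W ⊆ U, (U.card : ℝ) / 2 ≤ W.card → (d : ℝ) * W.card ≤ cnt pt W) :
    ∃ 𝓜 ⊆ cop pt U, (∀ v, ld pt 𝓜 v ≤ d) ∧ (U.card : ℝ) * (d / (2 * k)) ≤ 𝓜.card := by
  have hk0 : (0 : ℝ) < k := by exact_mod_cast (by omega : 0 < k)
  obtain ⟨𝓜, h1, h2⟩ := exists_max_image
    ((cop pt U).powerset.filter fun 𝓜 => ∀ v, ld pt 𝓜 v ≤ d) (fun 𝓜 => 𝓜.card)
    ⟨∅, mem_filter.2 ⟨mem_powerset.2 (empty_subset _), fun v => by
      rw [ld, filter_empty, card_empty]
      exact Nat.zero_le _⟩⟩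
  rw [mem_filter, mem_powerset] at h1
  refine ⟨𝓜, h1.1, h1.2, ?_⟩
  set Z := U.filter fun v => d ≤ ld pt 𝓜 v with hZ
  have hU : ∀ t ∈ 𝓜, edg pt t ⊆ U := by
    intro t ht v hv
    obtain ⟨j, rfl⟩ := mem_edg.1 hv
    exact mem_cop.1 (h1.1 ht) j
  have h3 : Z.card * d ≤ k * 𝓜.card := by
    rw [← sum_ld h 𝓜 U hU]
    calc Z.card * d = ∑ v ∈ Z, d := by rw [sum_const, smul_eq_mul]
      _ ≤ ∑ v ∈ Z, ld pt 𝓜 v := sum_le_sum fun v hv => (mem_filter.1 hv).2
      _ ≤ _ := sum_le_sum_of_subset (filter_subset _ _)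
  have h4 : cop pt (U \ Z) ⊆ 𝓜 := by
    intro t ht
    by_contra htM
    have h5 : insert t 𝓜 ∈ (cop pt U).powerset.filter fun 𝓜 => ∀ v, ld pt 𝓜 v ≤ d := by
      rw [mem_filter, mem_powerset]
      refine ⟨insert_subset (cop_mono sdiff_subset ht) h1.1, fun v => ?_⟩
      unfold ld
      rw [filter_insert]
      split_ifs with hv
      · obtain ⟨j, rfl⟩ := mem_edg.1 hv
        have h6 := mem_cop.1 ht j
        rw [mem_sdiff, hZ, mem_filter] at h6
        have h7 : ld pt 𝓜 (pt t j) < d := by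
          by_contra h8
          exact h6.2 ⟨h6.1, not_lt.1 h8⟩
        refine (card_insert_le _ _).trans ?_
        unfold ld at h7
        omega
      · exact h1.2 v
    have h6 := h2 _ h5
    rw [card_insert_of_notMem htM] at h6
    omega
  by_cases h5 : (U.card : ℝ) / 2 ≤ ((U \ Z).card : ℝ)
  · have h6 := hss _ sdiff_subset h5
    have h7 : (cnt pt (U \ Z) : ℝ) ≤ 𝓜.card := by exact_mod_cast card_le_card h4
    have h8 : (1 : ℝ) ≤ k := by exact_mod_cast (by omega : 1 ≤ k)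
    calc (U.card : ℝ) * (d / (2 * k)) ≤ (U.card : ℝ) * (d / (2 * 1)) := by
          gcongr
      _ = d * (U.card / 2) := by ring
      _ ≤ d * ((U \ Z).card : ℝ) := by gcongr
      _ ≤ _ := h6.trans h7
  · have h6 : ((U \ Z).card : ℝ) + Z.card = U.card := by
      exact_mod_cast card_sdiff_add_card_eq_card (filter_subset (fun v => d ≤ ld pt 𝓜 v) U)
    have h7 : (U.card : ℝ) / 2 ≤ Z.card := by linarith
    have h8 : (Z.card : ℝ) * d ≤ k * 𝓜.card := by exact_mod_cast h3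
    rw [mul_div_assoc', div_le_iff₀ (by positivity)]
    have hd0 : (0 : ℝ) ≤ d := Nat.cast_nonneg d
    nlinarith

/-- The weight of an edge: the number of the configurations of `𝓜` with these points. -/
noncomputable def wt (pt : T → Fin k → ℕ) (𝓜 : Finset T) (e : Finset ℕ) : ℝ :=
  ((𝓜.filter fun t => edg pt t = e).card : ℝ)

theorem deg_wt {𝓜 : Finset T} {U : Finset ℕ} (hU : ∀ t ∈ 𝓜, edg pt t ⊆ U) (J : Finset ℕ) :
    deg U (wt pt 𝓜) J = ((𝓜.filter fun t => J ⊆ edg pt t).card : ℝ) := by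
  unfold deg wt
  have h1 : ∀ e ∈ U.powerset, (if J ⊆ e then (((𝓜.filter fun t => edg pt t = e).card : ℕ) : ℝ)
      else 0) = (((𝓜.filter fun t => J ⊆ edg pt t).filter fun t => edg pt t = e).card : ℝ) := by
    intro e _
    split_ifs with h2
    · congr 2
      ext t
      simp only [mem_filter]
      constructor
      · rintro ⟨h3, rfl⟩
        exact ⟨⟨h3, h2⟩, rfl⟩
      · rintro ⟨⟨h3, _⟩, h4⟩
        exact ⟨h3, h4⟩
    · rw [eq_comm, Nat.cast_eq_zero, card_eq_zero, filter_eq_empty_iff]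
      intro t ht h3
      rw [mem_filter] at ht
      exact h2 (h3 ▸ ht.2)
  rw [sum_congr rfl h1, ← Nat.cast_sum, Nat.cast_inj]
  refine (card_eq_sum_card_fiberwise fun t ht => ?_).symm
  rw [mem_coe, mem_filter] at ht
  exact mem_coe.2 (mem_powerset.2 (hU t ht.1))

theorem sum_wt {𝓜 : Finset T} {U : Finset ℕ} (hU : ∀ t ∈ 𝓜, edg pt t ⊆ U) :
    ∑ e ∈ U.powerset, wt pt 𝓜 e = 𝓜.card := by
  have h1 := deg_wt hU ∅
  rw [filter_true_of_mem (fun t _ => empty_subset _)] at h1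
  rw [← h1, deg]
  exact sum_congr rfl fun e _ => by rw [if_pos (empty_subset e)]

/-- The configurations of a family with bounded degrees form a spread hypergraph. -/
theorem spread (h : Sys pt) (hk : 2 ≤ k) {U : Finset ℕ} {d : ℕ} {τ : ℝ}
    {𝓜 : Finset T} (h1 : 𝓜 ⊆ cop pt U) (h2 : ∀ v, ld pt 𝓜 v ≤ d)
    (h3 : (U.card : ℝ) * (d / (2 * k)) ≤ 𝓜.card) (hτ0 : 0 < τ) (hτ1 : τ ≤ 1)
    (hdτ : 1 ≤ d * τ ^ (k - 1)) :
    Spread U k (wt pt 𝓜) (d / (2 * k)) (2 * k ^ 3) τ := by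
  have hk0 : (0 : ℝ) < k := by exact_mod_cast (by omega : 0 < k)
  have hk1 : (1 : ℝ) ≤ k := by exact_mod_cast (by omega : 1 ≤ k)
  have hU : ∀ t ∈ 𝓜, edg pt t ⊆ U := by
    intro t ht v hv
    obtain ⟨j, rfl⟩ := mem_edg.1 hv
    exact mem_cop.1 (h1 ht) j
  refine ⟨fun e => Nat.cast_nonneg _, fun e he => ?_, ?_, fun J hJ => ?_⟩
  · have h4 : (𝓜.filter fun t => edg pt t = e).Nonempty := by
      rw [← card_pos]
      refine Nat.pos_of_ne_zero fun h5 => he ?_
      unfold wt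
      rw [h5, Nat.cast_zero]
    obtain ⟨t, ht⟩ := h4
    obtain ⟨h5, rfl⟩ := mem_filter.1 ht
    exact ⟨hU t h5, card_edg h t⟩
  · rw [sum_wt hU]
    exact h3
  · rw [deg_wt hU]
    have hKD : (2 * (k : ℝ) ^ 3) * (d / (2 * k)) = k ^ 2 * d := by
      field_simp
    rw [hKD]
    obtain ⟨v, hv⟩ := hJ
    by_cases hJ1 : ∃ v' ∈ J, v' ≠ v
    · obtain ⟨v', hv', hne⟩ := hJ1
      by_cases hemp : (𝓜.filter fun t => J ⊆ edg pt t).Nonempty
      · obtain ⟨t, ht⟩ := hemp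
        have h5 : J.card ≤ k := by
          rw [← card_edg h t]
          exact card_le_card (mem_filter.1 ht).2
        have h6 : ((𝓜.filter fun t => J ⊆ edg pt t).card : ℝ) ≤ k ^ 2 := by
          exact_mod_cast pair_le h hne.symm _ fun t ht => by
            rw [mem_filter] at ht
            exact ⟨ht.2 hv, ht.2 hv'⟩
        have h7 : 1 ≤ J.card := card_pos.2 ⟨v, hv⟩
        have h8 : τ ^ (k - 1) ≤ τ ^ (J.card - 1) :=
          pow_le_pow_of_le_one hτ0.le hτ1 (by omega)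
        have h9 : τ ^ J.card = τ ^ (J.card - 1) * τ := by
          rw [← pow_succ]
          congr 1
          omega
        have hd0 : (0 : ℝ) ≤ d := Nat.cast_nonneg d
        have h10 : 1 ≤ d * τ ^ (J.card - 1) := hdτ.trans (mul_le_mul_of_nonneg_left h8 hd0)
        rw [h9]
        calc ((𝓜.filter fun t => J ⊆ edg pt t).card : ℝ) * τ ≤ k ^ 2 * τ := by gcongr
          _ ≤ (k ^ 2 * τ) * (d * τ ^ (J.card - 1)) := le_mul_of_one_le_right (by positivity) h10
          _ = _ := by ring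
      · rw [not_nonempty_iff_eq_empty] at hemp
        rw [hemp, card_empty, Nat.cast_zero, zero_mul]
        positivity
    · push Not at hJ1
      have h5 : J = {v} := eq_singleton_iff_unique_mem.2 ⟨hv, hJ1⟩
      have h6 : ((𝓜.filter fun t => J ⊆ edg pt t).card : ℝ) ≤ d := by
        have h7 := h2 v
        unfold ld at h7
        rw [h5]
        simp only [singleton_subset_iff]
        exact_mod_cast h7
      have hd0 : (0 : ℝ) ≤ d := Nat.cast_nonneg d
      rw [h5, card_singleton, pow_one, ← h5]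
      refine mul_le_mul_of_nonneg_right (h6.trans ?_) hτ0.le
      refine le_mul_of_one_le_left hd0 ?_
      nlinarith

/-- One step of the container algorithm. -/
theorem step (k : ℕ) (hk : 2 ≤ k) : ∃ δ : ℝ, 0 < δ ∧ δ ≤ 1 ∧
    ∀ {T : Type} [Fintype T] (pt : T → Fin k → ℕ), Sys pt → ∀ (U : Finset ℕ) (d : ℕ) (τ ρ ζ : ℝ),
      1 ≤ d → 0 < τ → τ ≤ 1 → 1 ≤ d * τ ^ (k - 1) → τ ≤ ρ → 0 < ζ → 1 ≤ U.card * τ →
      (∀ W ⊆ U, (U.card : ℝ) / 2 ≤ W.card → (d : ℝ) * W.card ≤ cnt pt W) →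
      RCov ρ ∅ (fun I => I ⊆ U ∧ Free pt I) U
        (Real.exp ((k - 1 : ℕ) * (2 / ζ + 1) * (U.card * (ρ ^ ζ * τ ^ (1 - ζ)))))
        ((1 - δ) * U.card) := by
  have hk1 : (1 : ℝ) ≤ k := by exact_mod_cast (by omega : 1 ≤ k)
  obtain ⟨δ, hδ0, hδ1, hcont⟩ := rcontainers k (by omega) (2 * k ^ 3)
    (by nlinarith [one_le_pow₀ hk1 (n := 3)])
  refine ⟨δ, hδ0, hδ1, ?_⟩
  intro T _ pt h U d τ ρ ζ hd hτ0 hτ1 hdτ hτρ hζ hUτ hss
  obtain ⟨𝓜, h1, h2, h3⟩ := exists_fam h hk U d hd hss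
  have hsp := spread h hk h1 h2 h3 hτ0 hτ1 hdτ
  have hd0 : (0 : ℝ) < d := by exact_mod_cast hd
  have hq1 : U.card * τ ≤ (⌈U.card * τ⌉₊ : ℝ) := Nat.le_ceil _
  have hq2 : (⌈U.card * τ⌉₊ : ℝ) ≤ 2 * τ * U.card := by
    have := (Nat.ceil_lt_add_one (by positivity : 0 ≤ U.card * τ)).le
    linarith
  have h4 := hcont U (wt pt 𝓜) (d / (2 * k)) τ ρ ⌈U.card * τ⌉₊ (by positivity) hτ0 hτρ hq1 hq2
    hsp ∅ (empty_subset _)
  refine h4.mono ?_ (rcost rfl hτ0 hτρ hζ hq2) le_rfl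
  rintro I _ ⟨h5, h6⟩
  refine ⟨h5, fun e he => ?_⟩
  unfold wt
  rw [Nat.cast_eq_zero, card_eq_zero, filter_eq_empty_iff]
  rintro t _ rfl
  exact h6 t fun j => he (mem_edg.2 ⟨j, rfl⟩)

/-- Iteration of the step down to the size `M`. -/
theorem reduce {k : ℕ} {δ : ℝ} (hδ0 : 0 < δ) (hδ1 : δ ≤ 1)
    (hstep : ∀ {T : Type} [Fintype T] (pt : T → Fin k → ℕ), Sys pt →
      ∀ (U : Finset ℕ) (d : ℕ) (τ ρ ζ : ℝ),
      1 ≤ d → 0 < τ → τ ≤ 1 → 1 ≤ d * τ ^ (k - 1) → τ ≤ ρ → 0 < ζ → 1 ≤ U.card * τ →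
      (∀ W ⊆ U, (U.card : ℝ) / 2 ≤ W.card → (d : ℝ) * W.card ≤ cnt pt W) →
      RCov ρ ∅ (fun I => I ⊆ U ∧ Free pt I) U
        (Real.exp ((k - 1 : ℕ) * (2 / ζ + 1) * (U.card * (ρ ^ ζ * τ ^ (1 - ζ)))))
        ((1 - δ) * U.card))
    {T : Type} [Fintype T] {pt : T → Fin k → ℕ} (h : Sys pt) {d : ℕ} {τ ρ ζ M : ℝ}
    (hd : 1 ≤ d) (hτ0 : 0 < τ) (hτ1 : τ ≤ 1) (hdτ : 1 ≤ d * τ ^ (k - 1)) (hτρ : τ ≤ ρ)
    (hζ : 0 < ζ) (hM : 1 ≤ M * τ) (V₀ : Finset ℕ)
    (hss : ∀ W ⊆ V₀, M / 2 ≤ W.card → (d : ℝ) * W.card ≤ cnt pt W) :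
    ∀ (u : ℕ) (U : Finset ℕ), U ⊆ V₀ → U.card = u →
      RCov ρ ∅ (fun I => I ⊆ U ∧ Free pt I) U
        (Real.exp ((k - 1 : ℕ) * (2 / ζ + 1) / δ * (U.card * (ρ ^ ζ * τ ^ (1 - ζ))))) M := by
  intro u
  have hρ0 : 0 < ρ := hτ0.trans_le hτρ
  set R : ℝ := ρ ^ ζ * τ ^ (1 - ζ) with hR
  have hR0 : 0 ≤ R := by positivity
  set A : ℝ := (k - 1 : ℕ) * (2 / ζ + 1) with hA
  have hA0 : 0 ≤ A := by positivity
  induction u using Nat.strong_induction_on with
  | _ u ih =>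
  intro U hUV hU
  by_cases hUM : (U.card : ℝ) ≤ M
  · refine (RCov.one (ρ := ρ) (F := ∅) (C := U) (Subset.refl U) (disjoint_empty_left _) hUM
      (P := fun I => I ⊆ U) (fun I _ hI => by rwa [empty_union])).mono (fun I _ hI => hI.1) ?_ le_rfl
    exact Real.one_le_exp (by positivity)
  · push Not at hUM
    have h1 : 1 ≤ U.card * τ := hM.trans (mul_le_mul_of_nonneg_right hUM.le hτ0.le)
    have h2 := hstep pt h U d τ ρ ζ hd hτ0 hτ1 hdτ hτρ hζ h1
      (fun W hWU hW => hss W (hWU.trans hUV) (le_trans (by linarith) hW))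
    have hU0 : (0 : ℝ) < U.card := by
      by_contra h3
      have h4 : (U.card : ℝ) = 0 := le_antisymm (not_lt.1 h3) (Nat.cast_nonneg _)
      rw [h4, zero_mul] at h1
      linarith
    have h3 := RCov.comp (n' := Real.exp (A / δ * (((1 - δ) * U.card) * R))) (γ' := M)
      hρ0.le (fun I J hJI hI => ⟨hJI.trans hI.1, hI.2.mono hJI⟩) h2 (Real.exp_pos _).le
      (fun C hCU hCc => ?_)
    · refine h3.mono (fun I _ hI => hI) (le_of_eq ?_) le_rfl
      rw [← Real.exp_add]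
      congr 1
      rw [← hR, ← hA]
      field_simp
      ring
    · have h4 : C.card < u := by
        rw [← hU]
        have h5 : (C.card : ℝ) < U.card := by
          refine hCc.trans_lt ?_
          nlinarith
        exact_mod_cast h5
      refine (ih C.card h4 C (hCU.trans hUV) rfl).mono (fun I _ hI => ⟨hI.1, hI.2.2⟩) ?_ le_rfl
      refine Real.exp_le_exp.2 (mul_le_mul_of_nonneg_left ?_ (by positivity))
      exact mul_le_mul_of_nonneg_right hCc hR0

/-- **Containers for a chain of levels.** Suppose that at the level `j` the sets with at least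
`M j / 2` elements contain at least `d j` configurations for each of their elements. Then the
configuration-free subsets of a set with at most `M J` elements have containers with at most `M 0`
elements. -/
theorem chain (k : ℕ) (hk : 2 ≤ k) : ∃ A₀ : ℝ, 0 < A₀ ∧
    ∀ {T : Type} [Fintype T] (pt : T → Fin k → ℕ), Sys pt →
    ∀ (V₀ : Finset ℕ) (M τ : ℕ → ℝ) (d : ℕ → ℕ) (ρ ζ : ℝ) (J : ℕ), 0 < ζ → ζ ≤ 1 →
      (∀ j < J, 1 ≤ d j ∧ 0 < τ j ∧ τ j ≤ 1 ∧ 1 ≤ d j * τ j ^ (k - 1) ∧ τ j ≤ ρ ∧ 1 ≤ M j * τ j ∧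
        ∀ W ⊆ V₀, M j / 2 ≤ W.card → (d j : ℝ) * W.card ≤ cnt pt W) → 0 < ρ →
      ∀ U ⊆ V₀, (U.card : ℝ) ≤ M J →
      RCov ρ ∅ (fun I => I ⊆ U ∧ Free pt I) U
        (Real.exp (A₀ / ζ * ∑ j ∈ range J, M (j + 1) * (ρ ^ ζ * τ j ^ (1 - ζ)))) (M 0) := by
  obtain ⟨δ, hδ0, hδ1, hstep⟩ := step k hk
  have hk1 : (0 : ℝ) < (k - 1 : ℕ) := by exact_mod_cast (by omega : 0 < k - 1)
  refine ⟨(k - 1 : ℕ) * 3 / δ, by positivity, ?_⟩
  intro T _ pt h V₀ M τ d ρ ζ J hζ hζ1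
  induction J with
  | zero =>
    intro _ _ U _ hU
    rw [sum_range_zero, mul_zero, Real.exp_zero]
    exact (RCov.one (ρ := ρ) (F := ∅) (C := U) (Subset.refl U) (disjoint_empty_left _) hU
      (P := fun I => I ⊆ U) (fun I _ hI => by rwa [empty_union])).mono (fun I _ hI => hI.1)
      le_rfl le_rfl
  | succ J ih =>
    intro hj hρ0 U hUV hU
    obtain ⟨h1, h2, h3, h4, h5, h6, h7⟩ := hj J (by omega)
    have h8 := reduce hδ0 hδ1 hstep h h1 h2 h3 h4 h5 hζ h6 V₀ h7 U.card U hUV rfl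
    have h9 := RCov.comp (n' := Real.exp ((k - 1 : ℕ) * 3 / δ / ζ *
        ∑ j ∈ range J, M (j + 1) * (ρ ^ ζ * τ j ^ (1 - ζ)))) (γ' := M 0)
      hρ0.le (fun I J hJI hI => ⟨hJI.trans hI.1, hI.2.mono hJI⟩) h8 (Real.exp_pos _).le
      (fun C hCU hCc => (ih (fun j hjJ => hj j (by omega)) hρ0 C (hCU.trans hUV) hCc).mono
        (fun I _ hI => ⟨hI.1, hI.2.2⟩) le_rfl le_rfl)
    refine h9.mono (fun I _ hI => hI) ?_ le_rfl
    rw [← Real.exp_add, sum_range_succ]
    refine Real.exp_le_exp.2 ?_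
    have h10 : ((k - 1 : ℕ) : ℝ) * (2 / ζ + 1) / δ * (U.card * (ρ ^ ζ * τ J ^ (1 - ζ))) ≤
        (k - 1 : ℕ) * 3 / δ / ζ * (M (J + 1) * (ρ ^ ζ * τ J ^ (1 - ζ))) := by
      refine mul_le_mul ?_ (mul_le_mul_of_nonneg_right hU (by positivity)) (by positivity)
        (by positivity)
      have h11 : 2 / ζ + 1 ≤ 3 / ζ := by
        rw [div_add_one hζ.ne', div_le_div_iff_of_pos_right hζ]
        linarith
      calc ((k - 1 : ℕ) : ℝ) * (2 / ζ + 1) / δ ≤ (k - 1 : ℕ) * (3 / ζ) / δ := by gcongr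
        _ = _ := by ring
    linarith

end

end Pool.Agent.U465.SR
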