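import Pool.Agent.U465.SR.AP
import Pool.Agent.U465.CoCor
import Pool.Agent.Results.MP_db4732_co.CornerFreeLower

set_option autoImplicit false

/-!
# Corners in random subsets of `(F_p ^ n) ^ 2`
-/

open Finset Filter Topology

namespace Pool.Agent.U465.SR

section

open scoped Classical

theorem EE_map {X Y : Type} [Fintype X] [Fintype Y] (e : X ≃ Y) (q : ℝ) (f : Finset Y → ℝ) :
    EE q (univ : Finset Y) f = EE q (univ : Finset X) (fun S => f (S.map e.toEmbedding)) := by
  unfold EE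
  rw [powerset_univ, powerset_univ]
  symm
  refine Fintype.sum_equiv (Equiv.finsetCongr e) _ _ fun S => ?_
  rw [Equiv.finsetCongr_apply, card_map, card_univ, card_univ, Fintype.card_congr e]

theorem alph_map {X Y : Type} (e : X ≃ Y) (P : Finset Y → Prop) (S : Finset X) :
    alph P (S.map e.toEmbedding) = alph (fun I : Finset X => P (I.map e.toEmbedding)) S := by
  apply le_antisymm
  · refine Finset.sup_le fun I hI => ?_
    rw [mem_filter, mem_powerset] at hI
    obtain ⟨J, hJ, rfl⟩ := subset_map_iff.1 hI.1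
    rw [card_map]
    exact card_le_alph hJ hI.2
  · refine Finset.sup_le fun I hI => ?_
    rw [mem_filter, mem_powerset] at hI
    rw [← card_map e.toEmbedding]
    exact card_le_alph (map_subset_map.2 hI.1) hI.2

open Pool.Agent.U465.Co (CornerFree)

variable {p : ℕ} [hp : Fact p.Prime]

/-- The letters of the corners. -/
def aCo (p : ℕ) (j : Fin 3) : ZMod p × ZMod p :=
  ((if j = 2 then 1 else 0), (if j = 1 then 1 else 0))

theorem aCo_inj : Function.Injective (aCo p) := by
  intro i j hij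
  unfold aCo at hij
  rw [Prod.mk.injEq] at hij
  obtain ⟨h1, h2⟩ := hij
  have h10 : (1 : ZMod p) ≠ 0 := one_ne_zero
  fin_cases i <;> fin_cases j <;> simp_all

/-- Pairs of vectors and vectors of pairs. -/
def ee (p n : ℕ) : (Fin n → ZMod p × ZMod p) ≃ (Fin n → ZMod p) × (Fin n → ZMod p) :=
  Equiv.arrowProdEquivProdArrow _ _ _

theorem corner_eq (n : ℕ) : Free (ptv (p := p) (aCo p) n) =
    (fun I : Finset (Fin n → ZMod p × ZMod p) => CornerFree (I.map (ee p n).toEmbedding)) := by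
  have hmem : ∀ (A : Finset (Fin n → ZMod p × ZMod p)) (x y : Fin n → ZMod p),
      (x, y) ∈ A.map (ee p n).toEmbedding ↔ (fun i => (x i, y i)) ∈ A := by
    intro A x y
    rw [mem_map_equiv]
    rfl
  funext A
  refine propext ⟨fun h x y z h1 h2 h3 => ?_, fun h t ht => ?_⟩
  · by_contra hz
    rw [hmem] at h1 h2 h3
    refine h ⟨(fun i => (x i, y i), z), hz⟩ fun j => ?_
    fin_cases j
    · have h4 : ptv (p := p) (aCo p) n ⟨(fun i => (x i, y i), z), hz⟩ 0 = fun i => (x i, y i) := by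
        funext i
        simp [ptv, aCo]
      change ptv (p := p) (aCo p) n ⟨(fun i => (x i, y i), z), hz⟩ 0 ∈ A
      rw [h4]
      exact h1
    · have h4 : ptv (p := p) (aCo p) n ⟨(fun i => (x i, y i), z), hz⟩ 1 =
          fun i => (x i, (y + z) i) := by
        funext i
        simp [ptv, aCo]
      change ptv (p := p) (aCo p) n ⟨(fun i => (x i, y i), z), hz⟩ 1 ∈ A
      rw [h4]
      exact h2
    · have h4 : ptv (p := p) (aCo p) n ⟨(fun i => (x i, y i), z), hz⟩ 2 =
          fun i => ((x + z) i, y i) := by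
        funext i
        simp [ptv, aCo]
      change ptv (p := p) (aCo p) n ⟨(fun i => (x i, y i), z), hz⟩ 2 ∈ A
      rw [h4]
      exact h3
  · refine t.2 (h (fun i => (t.1.1 i).1) (fun i => (t.1.1 i).2) t.1.2 ?_ ?_ ?_)
    · rw [hmem]
      have h4 : ptv (p := p) (aCo p) n t 0 = fun i => ((t.1.1 i).1, (t.1.1 i).2) := by
        funext i
        simp [ptv, aCo]
      rw [← h4]
      exact ht 0
    · rw [hmem]
      have h4 : ptv (p := p) (aCo p) n t 1 =
          fun i => ((t.1.1 i).1, ((fun i => (t.1.1 i).2) + t.1.2) i) := by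
        funext i
        refine Prod.ext ?_ ?_ <;> simp [ptv, aCo]
      rw [← h4]
      exact ht 1
    · rw [hmem]
      have h4 : ptv (p := p) (aCo p) n t 2 =
          fun i => (((fun i => (t.1.1 i).1) + t.1.2) i, (t.1.1 i).2) := by
        funext i
        refine Prod.ext ?_ ?_ <;> simp [ptv, aCo]
      rw [← h4]
      exact ht 2

theorem al_corner (n : ℕ) (S : Finset (Fin n → ZMod p × ZMod p)) :
    alph CornerFree (S.map (ee p n).toEmbedding) = alph (Free (ptv (p := p) (aCo p) n)) S := by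
  rw [alph_map, corner_eq]

theorem rrCo_eq (n : ℕ) : rr p (aCo p) n = Pool.Agent.U465.Co.r (ZMod p) n := by
  unfold rr
  have h1 : alph (Free (ptv (p := p) (aCo p) n)) univ =
      alph CornerFree (univ : Finset ((Fin n → ZMod p) × (Fin n → ZMod p))) := by
    rw [← al_corner, map_univ_equiv]
  rw [h1]
  apply le_antisymm
  · obtain ⟨I, _, hI, hc⟩ := exists_alph (P := CornerFree)
      (fun x y z h => absurd h (notMem_empty _))
      (univ : Finset ((Fin n → ZMod p) × (Fin n → ZMod p)))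
    rw [← hc]
    exact Pool.Agent.U465.Co.card_le_r hI
  · obtain ⟨A, hA, hc⟩ := Pool.Agent.U465.Co.exists_r (H := ZMod p) n
    rw [← hc]
    exact card_le_alph (subset_univ _) hA

theorem lamCo_le : Pool.Agent.U465.Co.lam (ZMod p) ≤ (p : ℝ) ^ 2 := by
  unfold Pool.Agent.U465.Co.lam
  refine ciSup_le fun n => ?_
  have h1 := Pool.Agent.U465.Co.r_le (H := ZMod p) (n + 1)
  rw [Nat.card_zmod] at h1
  have h2 : (Pool.Agent.U465.Co.r (ZMod p) (n + 1) : ℝ) ≤ ((p : ℝ) ^ 2) ^ (n + 1) := by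
    exact_mod_cast h1
  have h3 : (0 : ℝ) ≤ (Pool.Agent.U465.Co.r (ZMod p) (n + 1) : ℝ) := by positivity
  calc (Pool.Agent.U465.Co.r (ZMod p) (n + 1) : ℝ) ^ (1 / ((n : ℝ) + 1))
      ≤ (((p : ℝ) ^ 2) ^ (n + 1)) ^ (1 / ((n : ℝ) + 1)) :=
        Real.rpow_le_rpow h3 h2 (by positivity)
    _ = (p : ℝ) ^ 2 := by
        have : ((n : ℝ) + 1) = ((n + 1 : ℕ) : ℝ) := by push_cast; ring
        rw [this, one_div, Real.pow_rpow_inv_natCast (by positivity) (by omega)]

/-- Corner-free sets from sets without three-term progressions. -/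
theorem r3_le (n : ℕ) : p ^ n * Pool.Agent.U465.AP.r 3 p n ≤ Pool.Agent.U465.Co.r (ZMod p) n := by
  obtain ⟨S, hS, hc⟩ := Pool.Agent.U465.AP.exists_r (p := p) (k := 3) (by norm_num) n
  set A : Finset ((Fin n → ZMod p) × (Fin n → ZMod p)) := univ.filter fun u => u.1 - u.2 ∈ S with hA
  have h1 : CornerFree A := by
    intro x y z h1 h2 h3
    simp only [hA, mem_filter, mem_univ, true_and] at h1 h2 h3
    refine hS (x - (y + z)) z fun j hj => ?_
    interval_cases j
    · rw [zero_smul, add_zero]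
      exact h2
    · rw [one_smul]
      have h4 : x - (y + z) + z = x - y := by abel
      rw [h4]
      exact h1
    · have h4 : x - (y + z) + 2 • z = x + z - y := by
        rw [two_nsmul]
        abel
      rw [h4]
      exact h3
  have h2 : A.card = p ^ n * S.card := by
    have h3 : A.card = ((univ : Finset (Fin n → ZMod p)) ×ˢ S).card := by
      refine card_bij (fun u _ => (u.2, u.1 - u.2)) ?_ ?_ ?_
      · intro u hu
        rw [mem_product]
        exact ⟨mem_univ _, (mem_filter.1 hu).2⟩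
      · intro u _ v _ huv
        rw [Prod.mk.injEq] at huv
        refine Prod.ext ?_ huv.1
        have h4 := huv.2
        rw [huv.1] at h4
        exact sub_left_injective h4
      · rintro ⟨y, s⟩ hu
        rw [mem_product] at hu
        refine ⟨(s + y, y), ?_, ?_⟩
        · rw [hA, mem_filter]
          refine ⟨mem_univ _, ?_⟩
          simp only [add_sub_cancel_right]
          exact hu.2
        · simp only [add_sub_cancel_right]
    rw [h3, card_product, card_univ, Fintype.card_fun, Fintype.card_fin, ZMod.card]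
  rw [← hc, ← h2]
  exact Pool.Agent.U465.Co.card_le_r h1

theorem lamCo_ge : (p : ℝ) * Pool.Agent.U465.AP.lam 3 p ≤ Pool.Agent.U465.Co.lam (ZMod p) := by
  have hp0 : (0 : ℝ) < p := by exact_mod_cast hp.out.pos
  have hΛ : (2 : ℝ) ≤ Pool.Agent.U465.Co.lam (ZMod p) := Pool.Agent.U465.Co.lam_ge
  rw [mul_comm, ← le_div_iff₀ hp0]
  unfold Pool.Agent.U465.AP.lam
  refine ciSup_le fun n => ?_
  have h1 : (p : ℝ) ^ (n + 1) * (Pool.Agent.U465.AP.r 3 p (n + 1) : ℝ) ≤
      Pool.Agent.U465.Co.lam (ZMod p) ^ (n + 1) := by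
    refine le_trans ?_ (Pool.Agent.U465.Co.r_le_lam (H := ZMod p) (n + 1))
    exact_mod_cast r3_le (p := p) (n + 1)
  have h2 : (Pool.Agent.U465.AP.r 3 p (n + 1) : ℝ) ≤
      (Pool.Agent.U465.Co.lam (ZMod p) / p) ^ (n + 1) := by
    rw [div_pow, le_div_iff₀ (by positivity), mul_comm]
    exact h1
  calc (Pool.Agent.U465.AP.r 3 p (n + 1) : ℝ) ^ (1 / ((n : ℝ) + 1))
      ≤ ((Pool.Agent.U465.Co.lam (ZMod p) / p) ^ (n + 1)) ^ (1 / ((n : ℝ) + 1)) :=
        Real.rpow_le_rpow (by positivity) h2 (by positivity)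
    _ = _ := by
        have : ((n : ℝ) + 1) = ((n + 1 : ℕ) : ℝ) := by push_cast; ring
        rw [this, one_div, Real.pow_rpow_inv_natCast (by positivity) (by omega)]

theorem lamCo_two : (3.458 : ℝ) ≤ Pool.Agent.U465.Co.lam (ZMod 2) := by
  obtain ⟨n₀, h⟩ := Pool.Agent.Results.MP_db4732_co.CornerFreeLower.result
  set n := n₀ + 1 with hn
  obtain ⟨A, hA, h1, h2⟩ := h n (by omega)
  have h3 : CornerFree A := by
    intro x y z g1 g2 g3
    by_contra hz
    exact hA x y z hz ⟨g1, g2, g3⟩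
  have h4 : (3.458 : ℝ) ^ n ≤ Pool.Agent.U465.Co.lam (ZMod 2) ^ n := by
    refine (h1.trans h2).trans (le_trans ?_ (Pool.Agent.U465.Co.r_le_lam (H := ZMod 2) n))
    exact_mod_cast Pool.Agent.U465.Co.card_le_r h3
  have h5 : (2 : ℝ) ≤ Pool.Agent.U465.Co.lam (ZMod 2) := Pool.Agent.U465.Co.lam_ge
  exact le_of_pow_le_pow_left₀ (by omega) (by linarith) h4

theorem lt_lamCo : (p : ℝ) ^ 2 < Pool.Agent.U465.Co.lam (ZMod p) *
    (p : ℝ) ^ (1 / (((3 : ℕ) : ℝ) - 1)) := by
  have hp0 : (0 : ℝ) < p := by exact_mod_cast hp.out.pos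
  have hp1 : (1 : ℝ) < p := by exact_mod_cast hp.out.one_lt
  have he : (1 : ℝ) / (((3 : ℕ) : ℝ) - 1) = 1 / 2 := by norm_num
  rw [he]
  rcases hp.out.eq_two_or_odd with h2 | h2
  · subst h2
    have h3 := lamCo_two
    have h4 : (1.4 : ℝ) ≤ ((2 : ℕ) : ℝ) ^ ((1 : ℝ) / 2) := by
      rw [← Real.sqrt_eq_rpow]
      refine Real.le_sqrt_of_sq_le ?_
      norm_num
    push_cast at *
    nlinarith
  · have h3 : 3 ≤ p := by
      have := hp.out.two_le
      omega
    have h4 : (p : ℝ) ^ (1 - 2 / (((3 : ℕ) : ℝ) * (((3 : ℕ) : ℝ) - 1))) ≤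
        Pool.Agent.U465.AP.lam 3 p :=
      Pool.Agent.Results.MP_b30443_co.NormFormBound.result p 3 (by norm_num) h3
    have he2 : (1 : ℝ) - 2 / (((3 : ℕ) : ℝ) * (((3 : ℕ) : ℝ) - 1)) = 2 / 3 := by norm_num
    rw [he2] at h4
    have h5 := lamCo_ge (p := p)
    calc (p : ℝ) ^ 2 = (p : ℝ) ^ (2 : ℝ) := by rw [← Real.rpow_natCast]; norm_num
      _ < (p : ℝ) ^ (1 + 2 / 3 + 1 / 2 : ℝ) :=
          Real.rpow_lt_rpow_of_exponent_lt hp1 (by norm_num)
      _ = (p : ℝ) * (p : ℝ) ^ (2 / 3 : ℝ) * (p : ℝ) ^ (1 / 2 : ℝ) := by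
          rw [Real.rpow_add hp0, Real.rpow_add hp0, Real.rpow_one]
      _ ≤ (p : ℝ) * Pool.Agent.U465.AP.lam 3 p * (p : ℝ) ^ (1 / 2 : ℝ) := by gcongr
      _ ≤ _ := by gcongr

end

end Pool.Agent.U465.SR
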