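import Pool.Agent.U465.SR.Vec5
import Mathlib.NumberTheory.Bertrand

set_option autoImplicit false

/-!
# Arithmetic progressions in intervals: supersaturation

The progressions are counted with the help of a prime between `2 N` and `4 N`.
-/

open Finset

namespace Pool.Agent.U465.SR

section

open scoped Classical

/-- The progressions with `k` terms in `{0, …, N - 1}`: first term and difference. -/
abbrev TN (k N : ℕ) : Type := {t : Fin N × Fin N // 0 < (t.2 : ℕ) ∧ (t.1 : ℕ) + (k - 1) * t.2 < N}

/-- The points of a progression. -/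
def ptN (k N : ℕ) (t : TN k N) (j : Fin k) : Fin N :=
  ⟨(t.1.1 : ℕ) + j * t.1.2, lt_of_le_of_lt
    (Nat.add_le_add_left (Nat.mul_le_mul_right _ (by omega)) _) t.2.2⟩

theorem ptN_val {k N : ℕ} (t : TN k N) (j : Fin k) :
    ((ptN k N t j : Fin N) : ℕ) = (t.1.1 : ℕ) + j * t.1.2 := rfl

theorem sysN (k N : ℕ) : Sys (ptN k N) := by
  constructor
  · intro t i j h
    have h1 := congrArg Fin.val h
    rw [ptN_val, ptN_val] at h1
    have h2 := Nat.add_left_cancel h1
    exact Fin.ext (Nat.eq_of_mul_eq_mul_right t.2.1 h2)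
  · intro t t' i j hij h1 h2
    have h3 := congrArg Fin.val h1
    have h4 := congrArg Fin.val h2
    rw [ptN_val, ptN_val] at h3 h4
    have hij' : ((i : ℕ) : ℤ) - ((j : ℕ) : ℤ) ≠ 0 := by
      intro h
      apply hij
      apply Fin.ext
      omega
    have h5 : ((t.1.2 : ℕ) : ℤ) = ((t'.1.2 : ℕ) : ℤ) := by
      zify at h3 h4
      have h6 : (((i : ℕ) : ℤ) - ((j : ℕ) : ℤ)) * (((t.1.2 : ℕ) : ℤ) - ((t'.1.2 : ℕ) : ℤ)) = 0 := by
        linear_combination h3 - h4
      rcases mul_eq_zero.1 h6 with h | h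
      · exact absurd h hij'
      · linarith
    have h6 : (t.1.2 : ℕ) = (t'.1.2 : ℕ) := by exact_mod_cast h5
    have h7 : (t.1.1 : ℕ) = (t'.1.1 : ℕ) := by
      rw [h6] at h3
      omega
    exact Subtype.ext (Prod.ext (Fin.ext h7) (Fin.ext h6))

/-- The largest size of a subset of `{0, …, N - 1}` without `k`-term progressions. -/
noncomputable def rN (k N : ℕ) : ℕ := alph (Free (ptN k N)) univ

theorem card_TN (k N : ℕ) : Fintype.card (TN k N) ≤ N * N := by
  have h1 := Fintype.card_subtype_le (fun t : Fin N × Fin N =>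
    0 < (t.2 : ℕ) ∧ (t.1 : ℕ) + (k - 1) * t.2 < N)
  rwa [Fintype.card_prod, Fintype.card_fin] at h1

/-- The progressions of a set in `ℤ / P`. -/
noncomputable def GP (k P : ℕ) [NeZero P] (W : Finset (ZMod P)) : ℕ :=
  (univ.filter fun z : ZMod P × ZMod P => z.2 ≠ 0 ∧ ∀ j : Fin k, z.1 + (j : ℕ) * z.2 ∈ W).card

/-- Averaging over the affine images of `{0, …, m - 1}` in `ℤ / P`. -/
theorem avg {k m P : ℕ} [hP : Fact P.Prime] (hk : 0 < k) (hm : m ≤ P) (W : Finset (ZMod P)) :
    m * (P - 1) * W.card ≤ P * (P - 1) * rN k m + m * m * GP k P W := by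
  have hne : ∀ y : ZMod P, y ∈ (univ : Finset (ZMod P)).erase 0 → y ≠ 0 := fun y hy =>
    (mem_erase.1 hy).1
  have hcardE : ((univ : Finset (ZMod P)).erase 0).card = P - 1 := by
    rw [card_erase_of_mem (mem_univ _), card_univ, ZMod.card]
  set Q : ZMod P → ZMod P → Finset (Fin m) := fun x y =>
    univ.filter fun u => x + (u : ℕ) * y ∈ W with hQ
  have h1 : ∀ x y, (Q x y).card ≤ rN k m + cnt (ptN k m) (Q x y) := fun x y =>
    del hk (ptN k m) (Q x y)
  have h2 : ∑ y ∈ (univ : Finset (ZMod P)).erase 0, ∑ x : ZMod P, (Q x y).card ≤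
      ∑ y ∈ (univ : Finset (ZMod P)).erase 0, ∑ x : ZMod P, (rN k m + cnt (ptN k m) (Q x y)) :=
    sum_le_sum fun y _ => sum_le_sum fun x _ => h1 x y
  have h3 : ∑ y ∈ (univ : Finset (ZMod P)).erase 0, ∑ x : ZMod P, (Q x y).card =
      m * (P - 1) * W.card := by
    have h4 : ∀ y ∈ (univ : Finset (ZMod P)).erase 0, ∑ x : ZMod P, (Q x y).card = m * W.card := by
      intro y _
      simp only [hQ, card_filter]
      rw [sum_comm]
      have h5 : ∀ u ∈ (univ : Finset (Fin m)),
          (∑ x : ZMod P, if x + (u : ℕ) * y ∈ W then 1 else 0) = W.card := by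
        intro u _
        rw [← card_filter]
        refine card_bij (fun x _ => x + (u : ℕ) * y) ?_ ?_ ?_
        · intro x hx
          exact (mem_filter.1 hx).2
        · intro x _ x' _ h
          exact add_right_cancel h
        · intro w hw
          refine ⟨w - (u : ℕ) * y, ?_, sub_add_cancel _ _⟩
          rw [mem_filter, sub_add_cancel]
          exact ⟨mem_univ _, hw⟩
      rw [sum_congr rfl h5, sum_const, card_univ, Fintype.card_fin, smul_eq_mul]
    rw [sum_congr rfl h4, sum_const, hcardE, smul_eq_mul]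
    ring
  have h4 : ∑ y ∈ (univ : Finset (ZMod P)).erase 0, ∑ x : ZMod P,
      (rN k m + cnt (ptN k m) (Q x y)) ≤ P * (P - 1) * rN k m + m * m * GP k P W := by
    simp only [sum_add_distrib, sum_const, card_univ, ZMod.card, hcardE, smul_eq_mul]
    have h5 : ∑ y ∈ (univ : Finset (ZMod P)).erase 0, ∑ x : ZMod P, cnt (ptN k m) (Q x y) ≤
        m * m * GP k P W := by
      have h6 : ∀ x y, cnt (ptN k m) (Q x y) = ∑ t : TN k m,
          if ∀ j : Fin k, x + ((ptN k m t j : Fin m) : ℕ) * y ∈ W then 1 else 0 := by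
        intro x y
        rw [← card_filter]
        unfold cnt
        congr 1
        ext t
        rw [mem_cop, mem_filter]
        simp only [hQ, mem_filter, mem_univ, true_and]
      simp only [h6]
      have h7 : ∑ y ∈ (univ : Finset (ZMod P)).erase 0, ∑ x : ZMod P, ∑ t : TN k m,
          (if ∀ j : Fin k, x + ((ptN k m t j : Fin m) : ℕ) * y ∈ W then 1 else 0) =
          ∑ t : TN k m, ∑ y ∈ (univ : Finset (ZMod P)).erase 0, ∑ x : ZMod P,
          (if ∀ j : Fin k, x + ((ptN k m t j : Fin m) : ℕ) * y ∈ W then 1 else 0) := by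
        rw [sum_comm]
        rw [show (∑ t : TN k m, ∑ y ∈ (univ : Finset (ZMod P)).erase 0, ∑ x : ZMod P,
          (if ∀ j : Fin k, x + ((ptN k m t j : Fin m) : ℕ) * y ∈ W then 1 else 0)) =
          ∑ t : TN k m, ∑ x : ZMod P, ∑ y ∈ (univ : Finset (ZMod P)).erase 0,
          (if ∀ j : Fin k, x + ((ptN k m t j : Fin m) : ℕ) * y ∈ W then 1 else 0) from
          sum_congr rfl fun t _ => sum_comm]
        rw [sum_comm (s := (univ : Finset (TN k m)))]
        refine sum_congr rfl fun x _ => ?_
        rw [sum_comm]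
      rw [h7]
      have h8 : ∀ t ∈ (univ : Finset (TN k m)), ∑ y ∈ (univ : Finset (ZMod P)).erase 0,
          ∑ x : ZMod P, (if ∀ j : Fin k, x + ((ptN k m t j : Fin m) : ℕ) * y ∈ W then 1 else 0) ≤
          GP k P W := by
        intro t _
        rw [← sum_product', ← card_filter]
        unfold GP
        have htd : (((t.1.2 : Fin m) : ℕ) : ZMod P) ≠ 0 := by
          intro h
          rw [ZMod.natCast_eq_zero_iff] at h
          have h9 := Nat.le_of_dvd t.2.1 h
          have h10 := t.1.2.2
          omega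
        refine card_le_card_of_injOn (fun z => (z.2 + ((t.1.1 : Fin m) : ℕ) * z.1,
          ((t.1.2 : Fin m) : ℕ) * z.1)) ?_ ?_
        · intro z hz
          rw [mem_coe, mem_filter, mem_product] at hz
          rw [mem_coe, mem_filter]
          refine ⟨mem_univ _, mul_ne_zero htd (hne _ hz.1.1), fun j => ?_⟩
          have h9 := hz.2 j
          rw [ptN_val] at h9
          push_cast at h9
          have h10 : z.2 + (((t.1.1 : Fin m) : ℕ) : ZMod P) * z.1 +
              ((j : ℕ) : ZMod P) * ((((t.1.2 : Fin m) : ℕ) : ZMod P) * z.1) =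
              z.2 + ((((t.1.1 : Fin m) : ℕ) : ZMod P) +
              ((j : ℕ) : ZMod P) * (((t.1.2 : Fin m) : ℕ) : ZMod P)) * z.1 := by ring
          rw [h10]
          exact h9
        · intro z _ z' _ h
          simp only [Prod.mk.injEq] at h
          obtain ⟨h9, h10⟩ := h
          have h11 : z.1 = z'.1 := mul_left_cancel₀ htd h10
          rw [h11] at h9
          exact Prod.ext h11 (add_right_cancel h9)
      refine (sum_le_sum h8).trans ?_
      rw [sum_const, card_univ, smul_eq_mul]
      exact Nat.mul_le_mul_right _ (card_TN k m)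
    have h9 : (P - 1) * (P * rN k m) = P * (P - 1) * rN k m := by ring
    omega
  rw [h3] at h2
  exact h2.trans h4

end

end Pool.Agent.U465.SR
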