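import Pool.Agent.U465.SR.Int1

set_option autoImplicit false

/-!
# Arithmetic progressions in intervals: supersaturation
-/

open Finset

namespace Pool.Agent.U465.SR

section

open scoped Classical

theorem GP_le {k N P : ℕ} [hP : Fact P.Prime] (hk : 2 ≤ k) (hNP : 2 * N < P) (W : Finset (Fin N)) :
    GP k P (W.image fun x : Fin N => ((x : ℕ) : ZMod P)) ≤ 2 * cnt (ptN k N) W := by
  set fp : TN k N → ZMod P × ZMod P := fun t => (((t.1.1 : ℕ) : ZMod P), ((t.1.2 : ℕ) : ZMod P))
    with hfp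
  set fm : TN k N → ZMod P × ZMod P := fun t =>
    (((t.1.1 : ℕ) : ZMod P) + ((k - 1 : ℕ) : ZMod P) * ((t.1.2 : ℕ) : ZMod P),
      -((t.1.2 : ℕ) : ZMod P)) with hfm
  unfold GP
  have hsub : (univ.filter fun z : ZMod P × ZMod P => z.2 ≠ 0 ∧ ∀ j : Fin k,
      z.1 + (j : ℕ) * z.2 ∈ W.image fun x : Fin N => ((x : ℕ) : ZMod P)) ⊆
      (cop (ptN k N) W).image fp ∪ (cop (ptN k N) W).image fm := by
    intro z hz
    rw [mem_filter] at hz
    obtain ⟨_, hz0, hzW⟩ := hz
    have hy : ∀ j : Fin k, ∃ y : Fin N, y ∈ W ∧ ((y : ℕ) : ZMod P) = z.1 + (j : ℕ) * z.2 :=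
      fun j => mem_image.1 (hzW j)
    choose y hyW hyz using hy
    set i0 : Fin k := ⟨0, by omega⟩ with hi0
    set i1 : Fin k := ⟨1, by omega⟩ with hi1
    have hlt : ∀ j : Fin k, ((y j : ℕ) : ℤ) < N ∧ 0 ≤ ((y j : ℕ) : ℤ) := fun j =>
      ⟨by exact_mod_cast (y j).2, by positivity⟩
    set δ : ℤ := ((y i1 : ℕ) : ℤ) - ((y i0 : ℕ) : ℤ) with hδ
    have hyz0 : ((y i0 : ℕ) : ZMod P) = z.1 := by
      rw [hyz, hi0]
      simp
    have hyz1 : ((y i1 : ℕ) : ZMod P) = z.1 + z.2 := by
      rw [hyz, hi1]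
      simp
    have hδz : ((δ : ℤ) : ZMod P) = z.2 := by
      rw [hδ]
      push_cast
      rw [hyz0, hyz1]
      ring
    have hstep : ∀ (j : ℕ) (hj : j < k), ((y ⟨j, hj⟩ : ℕ) : ℤ) = ((y i0 : ℕ) : ℤ) + j * δ := by
      intro j
      induction j with
      | zero =>
        intro hj
        simp [hi0]
      | succ j ih =>
        intro hj
        have h1 := ih (by omega)
        have h2 : ((((y ⟨j + 1, hj⟩ : ℕ) : ℤ) - ((y ⟨j, by omega⟩ : ℕ) : ℤ) - δ : ℤ) : ZMod P) = 0 := by
          rw [Int.cast_sub, hδz]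
          push_cast
          rw [hyz, hyz]
          push_cast
          ring
        have h3 := (ZMod.intCast_zmod_eq_zero_iff_dvd _ _).1 h2
        have h4 := Int.eq_zero_of_abs_lt_dvd h3 (by
          have h5 := hlt ⟨j + 1, hj⟩
          have h6 := hlt ⟨j, by omega⟩
          have h7 := hlt i0
          have h8 := hlt i1
          have h9 : (2 * (N : ℤ)) < P := by exact_mod_cast hNP
          rw [abs_lt]
          constructor <;> omega)
        push_cast
        linarith
    have hlast : ((y ⟨k - 1, by omega⟩ : ℕ) : ℤ) = ((y i0 : ℕ) : ℤ) + ((k - 1 : ℕ) : ℤ) * δ :=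
      hstep (k - 1) (by omega)
    have hδ0 : δ ≠ 0 := by
      intro h
      rw [h, Int.cast_zero] at hδz
      exact hz0 hδz.symm
    rw [mem_union]
    rcases lt_or_gt_of_ne hδ0 with h | h
    · right
      set e : ℕ := (y i0 : ℕ) - (y i1 : ℕ) with he
      have he1 : ((e : ℕ) : ℤ) = -δ := by
        rw [he, hδ]
        omega
      have heN : e < N := by
        have := (y i0).2
        omega
      have he0 : 0 < e := by omega
      have hend : (y ⟨k - 1, by omega⟩ : ℕ) + (k - 1) * e = (y i0 : ℕ) := by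
        have h1 : ((y ⟨k - 1, by omega⟩ : ℕ) : ℤ) + ((k - 1 : ℕ) : ℤ) * (e : ℤ) =
            ((y i0 : ℕ) : ℤ) := by
          rw [he1, hlast]
          ring
        exact_mod_cast h1
      refine mem_image.2 ⟨⟨(y ⟨k - 1, by omega⟩, ⟨e, heN⟩), he0, ?_⟩, ?_, ?_⟩
      · change (y ⟨k - 1, by omega⟩ : ℕ) + (k - 1) * e < N
        rw [hend]
        exact (y i0).2
      · rw [mem_cop]
        intro j
        have h1 : ptN k N ⟨(y ⟨k - 1, by omega⟩, ⟨e, heN⟩), he0, by
            change (y ⟨k - 1, by omega⟩ : ℕ) + (k - 1) * e < N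
            rw [hend]
            exact (y i0).2⟩ j = y ⟨k - 1 - j, by omega⟩ := by
          apply Fin.ext
          rw [ptN_val]
          change (y ⟨k - 1, by omega⟩ : ℕ) + j * e = (y ⟨k - 1 - j, by omega⟩ : ℕ)
          have h2 := hstep (k - 1 - j) (by omega)
          have h3 : ((k - 1 - (j : ℕ) : ℕ) : ℤ) = ((k - 1 : ℕ) : ℤ) - ((j : ℕ) : ℤ) := by
            have := j.2
            omega
          rw [h3] at h2
          have h4 : ((y ⟨k - 1, by omega⟩ : ℕ) : ℤ) + ((j : ℕ) : ℤ) * (e : ℤ) =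
              ((y ⟨k - 1 - j, by omega⟩ : ℕ) : ℤ) := by
            rw [h2, he1, hlast]
            ring
          exact_mod_cast h4
        rw [h1]
        exact hyW _
      · have h1 : ((e : ℕ) : ZMod P) = -z.2 := by
          have h2 : (((e : ℕ) : ℤ) : ZMod P) = ((-δ : ℤ) : ZMod P) := by rw [he1]
          rw [Int.cast_neg, hδz] at h2
          rw [← h2]
          push_cast
          rfl
        have h2 : ((y ⟨k - 1, by omega⟩ : ℕ) : ZMod P) = z.1 + ((k - 1 : ℕ) : ZMod P) * z.2 := hyz _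
        simp only [hfm]
        refine Prod.ext ?_ ?_
        · change ((y ⟨k - 1, by omega⟩ : ℕ) : ZMod P) + ((k - 1 : ℕ) : ZMod P) * ((e : ℕ) : ZMod P) = z.1
          rw [h1, h2]
          ring
        · change -((e : ℕ) : ZMod P) = z.2
          rw [h1, neg_neg]
    · left
      set e : ℕ := (y i1 : ℕ) - (y i0 : ℕ) with he
      have he1 : ((e : ℕ) : ℤ) = δ := by
        rw [he, hδ]
        omega
      have heN : e < N := by
        have := (y i1).2
        omega
      have he0 : 0 < e := by omega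
      have hend : (y i0 : ℕ) + (k - 1) * e = (y ⟨k - 1, by omega⟩ : ℕ) := by
        have h1 : ((y i0 : ℕ) : ℤ) + ((k - 1 : ℕ) : ℤ) * (e : ℤ) =
            ((y ⟨k - 1, by omega⟩ : ℕ) : ℤ) := by
          rw [he1, hlast]
        exact_mod_cast h1
      refine mem_image.2 ⟨⟨(y i0, ⟨e, heN⟩), he0, ?_⟩, ?_, ?_⟩
      · change (y i0 : ℕ) + (k - 1) * e < N
        rw [hend]
        exact (y ⟨k - 1, by omega⟩).2
      · rw [mem_cop]
        intro j
        have h1 : ptN k N ⟨(y i0, ⟨e, heN⟩), he0, by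
            change (y i0 : ℕ) + (k - 1) * e < N
            rw [hend]
            exact (y ⟨k - 1, by omega⟩).2⟩ j = y j := by
          apply Fin.ext
          rw [ptN_val]
          change (y i0 : ℕ) + j * e = (y j : ℕ)
          have h2 := hstep j j.2
          rw [← he1] at h2
          exact_mod_cast h2.symm
        rw [h1]
        exact hyW _
      · have h1 : ((e : ℕ) : ZMod P) = z.2 := by
          have h2 : (((e : ℕ) : ℤ) : ZMod P) = ((δ : ℤ) : ZMod P) := by rw [he1]
          rw [hδz] at h2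
          rw [← h2]
          push_cast
          rfl
        simp only [hfp]
        refine Prod.ext ?_ ?_
        · exact hyz0
        · exact h1
  refine (card_le_card hsub).trans ((card_union_le _ _).trans ?_)
  have h1 := card_image_le (s := cop (ptN k N) W) (f := fp)
  have h2 := card_image_le (s := cop (ptN k N) W) (f := fm)
  unfold cnt
  omega

/-- **Supersaturation.** -/
theorem supersatN {k N m : ℕ} (hk : 2 ≤ k) (hm : 1 ≤ m) (hmN : m ≤ N) (W : Finset (Fin N))
    (hW : 8 * N * rN k m ≤ m * W.card) : N * W.card ≤ 2 * m * cnt (ptN k N) W := by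
  obtain ⟨P, hP, h1, h2⟩ := Nat.exists_prime_lt_and_le_two_mul (2 * N) (by omega)
  haveI : Fact P.Prime := ⟨hP⟩
  have h3 := avg (k := k) (m := m) (P := P) (by omega) (by omega)
    (W.image fun x : Fin N => ((x : ℕ) : ZMod P))
  have h4 := GP_le hk h1 W
  have h5 : (W.image fun x : Fin N => ((x : ℕ) : ZMod P)).card = W.card := by
    refine card_image_of_injective _ fun x x' h => ?_
    have h6 : ((x : ℕ) : ZMod P) = ((x' : ℕ) : ZMod P) := h
    rw [ZMod.natCast_eq_natCast_iff'] at h6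
    rw [Nat.mod_eq_of_lt (by omega), Nat.mod_eq_of_lt (by omega)] at h6
    exact Fin.ext h6
  rw [h5] at h3
  obtain ⟨Q, rfl⟩ : ∃ Q, P = Q + 1 := ⟨P - 1, by omega⟩
  rw [Nat.add_sub_cancel] at h3
  set w := W.card
  set c := cnt (ptN k N) W
  set r := rN k m
  set G := GP k (Q + 1) (W.image fun x : Fin N => ((x : ℕ) : ZMod (Q + 1)))
  have h6 : 2 * ((Q + 1) * r) ≤ m * w := by
    calc 2 * ((Q + 1) * r) ≤ 2 * ((4 * N) * r) := by gcongr; omega
      _ = 8 * N * r := by ring
      _ ≤ _ := hW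
  have h7 : 2 * ((Q + 1) * Q * r) ≤ Q * (m * w) := by
    calc 2 * ((Q + 1) * Q * r) = Q * (2 * ((Q + 1) * r)) := by ring
      _ ≤ _ := Nat.mul_le_mul_left _ h6
  have h8 : m * m * G ≤ m * m * (2 * c) := Nat.mul_le_mul_left _ h4
  have h9 : m * (Q * w) ≤ m * (4 * m * c) := by nlinarith
  have h10 : Q * w ≤ 4 * m * c := Nat.le_of_mul_le_mul_left h9 (by omega)
  have h11 : 2 * N * w ≤ Q * w := Nat.mul_le_mul_right _ (by omega)
  nlinarith

end

end Pool.Agent.U465.SR
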