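import Pool.Agent.U465.SR.Int2
import Mathlib.Combinatorics.Additive.AP.Three.Behrend

set_option autoImplicit false

/-!
# Progression-free subsets of intervals at different scales
-/

open Finset

namespace Pool.Agent.U465.SR

section

open scoped Classical

/-- `A` contains no `k` terms `x, x + d, …, x + (k - 1) d` with `d > 0`. -/
def NAP (k : ℕ) (A : Finset ℕ) : Prop := ∀ x d : ℕ, 0 < d → ¬ ∀ j < k, x + j * d ∈ A

theorem NAP.mono {k : ℕ} {A B : Finset ℕ} (h : NAP k A) (hB : B ⊆ A) : NAP k B :=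
  fun x d hd hx => h x d hd fun j hj => hB (hx j hj)

/-- The shift of `{0, …, N - 1}` by `c`. -/
def fN (N c : ℕ) : Fin N ↪ ℕ := ⟨fun x => (x : ℕ) + c, fun x y h => Fin.ext (by
  have h1 : (x : ℕ) + c = (y : ℕ) + c := h
  omega)⟩

theorem fN_apply (N c : ℕ) (x : Fin N) : fN N c x = (x : ℕ) + c := rfl

theorem free_map {k N c : ℕ} (hk : 2 ≤ k) (I : Finset (Fin N)) :
    Free (ptN k N) I ↔ NAP k (I.map (fN N c)) := by
  constructor
  · intro h x d hd hx
    obtain ⟨x0, hx0, h0⟩ := mem_map.1 (hx 0 (by omega))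
    obtain ⟨y, hy, h1⟩ := mem_map.1 (hx (k - 1) (by omega))
    rw [fN_apply] at h0 h1
    have h2 : (x0 : ℕ) + (k - 1) * d < N := by
      have := y.2
      omega
    have h3 : d < N := by
      have h4 : 1 * d ≤ (k - 1) * d := Nat.mul_le_mul_right _ (by omega)
      omega
    refine h ⟨(x0, ⟨d, h3⟩), hd, h2⟩ fun j => ?_
    obtain ⟨z, hz, h5⟩ := mem_map.1 (hx j j.2)
    rw [fN_apply] at h5
    have h6 : ptN k N ⟨(x0, ⟨d, h3⟩), hd, h2⟩ j = z := by
      apply Fin.ext
      rw [ptN_val]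
      change (x0 : ℕ) + j * d = z
      omega
    rw [h6]
    exact hz
  · intro h t ht
    refine h ((t.1.1 : ℕ) + c) t.1.2 t.2.1 fun j hj => ?_
    refine mem_map.2 ⟨_, ht ⟨j, hj⟩, ?_⟩
    rw [fN_apply, ptN_val]
    change (t.1.1 : ℕ) + j * t.1.2 + c = _
    ring

theorem alph_mapN {k N c : ℕ} (hk : 2 ≤ k) (S : Finset (Fin N)) :
    alph (NAP k) (S.map (fN N c)) = alph (Free (ptN k N)) S := by
  apply le_antisymm
  · refine Finset.sup_le fun I hI => ?_
    rw [mem_filter, mem_powerset] at hI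
    obtain ⟨J, hJ, rfl⟩ := subset_map_iff.1 hI.1
    rw [card_map]
    exact card_le_alph hJ ((free_map hk J).2 hI.2)
  · refine Finset.sup_le fun I hI => ?_
    rw [mem_filter, mem_powerset] at hI
    rw [← card_map (fN N c)]
    exact card_le_alph (map_subset_map.2 hI.1) ((free_map hk I).1 hI.2)

theorem map_range (N : ℕ) : (univ : Finset (Fin N)).map (fN N 0) = range N := by
  ext x
  rw [mem_map, mem_range]
  constructor
  · rintro ⟨y, _, rfl⟩
    rw [fN_apply]
    omega
  · intro h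
    exact ⟨⟨x, h⟩, mem_univ _, by rw [fN_apply, add_zero]⟩

theorem map_Icc (N : ℕ) : (univ : Finset (Fin N)).map (fN N 1) = Icc 1 N := by
  ext x
  rw [mem_map, mem_Icc]
  constructor
  · rintro ⟨y, _, rfl⟩
    rw [fN_apply]
    omega
  · intro h
    exact ⟨⟨x - 1, by omega⟩, mem_univ _, by
      rw [fN_apply]
      change x - 1 + 1 = x
      omega⟩

theorem rN_range {k : ℕ} (hk : 2 ≤ k) (N : ℕ) : rN k N = alph (NAP k) (range N) := by
  rw [← map_range, alph_mapN hk]
  rfl

theorem rN_Icc {k : ℕ} (hk : 2 ≤ k) (N : ℕ) : rN k N = alph (NAP k) (Icc 1 N) := by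
  rw [← map_Icc, alph_mapN hk]
  rfl

theorem NAP_empty {k : ℕ} (hk : 0 < k) : NAP k ∅ := fun _ _ _ h => absurd (h 0 hk) (notMem_empty _)

theorem exists_rN {k : ℕ} (hk : 2 ≤ k) (N : ℕ) : ∃ A ⊆ range N, NAP k A ∧ A.card = rN k N := by
  obtain ⟨A, h1, h2, h3⟩ := exists_alph (NAP_empty (k := k) (by omega)) (range N)
  exact ⟨A, h1, h2, by rw [h3, rN_range hk]⟩

theorem card_le_rN {k N : ℕ} (hk : 2 ≤ k) {A : Finset ℕ} (h1 : A ⊆ range N) (h2 : NAP k A) :
    A.card ≤ rN k N := by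
  rw [rN_range hk]
  exact card_le_alph h1 h2

theorem rN_mono {k : ℕ} (hk : 2 ≤ k) {m n : ℕ} (h : m ≤ n) : rN k m ≤ rN k n := by
  rw [rN_range hk, rN_range hk]
  exact alph_mono (range_subset_range.2 h)

theorem rN_le (k N : ℕ) : rN k N ≤ N := by
  have h := alph_le_card (P := Free (ptN k N)) univ
  rwa [card_univ, Fintype.card_fin] at h

theorem rN_pos {k N : ℕ} (hk : 2 ≤ k) (hN : 1 ≤ N) : 1 ≤ rN k N := by
  have h1 : NAP k {0} := by
    intro x d hd h
    have h2 := h 0 (by omega)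
    have h3 := h 1 (by omega)
    rw [mem_singleton] at h2 h3
    omega
  have h2 := card_le_rN (N := N) hk (singleton_subset_iff.2 (mem_range.2 (by omega))) h1
  rwa [card_singleton] at h2

/-- A progression of natural numbers inside a progression-free set is constant. -/
theorem NAP.const {k : ℕ} (hk : 2 ≤ k) {A : Finset ℕ} (h : NAP k A) (y : ℕ → ℕ)
    (hyA : ∀ j < k, y j ∈ A) (hy : ∀ j, j + 2 < k → y (j + 2) + y j = 2 * y (j + 1)) :
    ∀ j < k, y j = y 0 := by
  have h1 : ∀ j, j < k → (y j : ℤ) = y 0 + j * ((y 1 : ℤ) - y 0) := by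
    intro j
    induction j using Nat.twoStepInduction with
    | zero => intro _; simp
    | one => intro _; simp
    | more j ih1 ih2 =>
      intro hj
      have h2 := hy j hj
      have h3 := ih1 (by omega)
      have h4 := ih2 (by omega)
      zify at h2
      push_cast at h3 h4 ⊢
      linarith
  have h2 : y 1 = y 0 := by
    rcases lt_trichotomy (y 0) (y 1) with h3 | h3 | h3
    · exfalso
      refine h (y 0) (y 1 - y 0) (by omega) fun j hj => ?_
      have h4 := h1 j hj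
      have h5 : y 0 + j * (y 1 - y 0) = y j := by
        zify [h3.le]
        rw [h4]
      rw [h5]
      exact hyA j hj
    · exact h3.symm
    · exfalso
      refine h (y (k - 1)) (y 0 - y 1) (by omega) fun j hj => ?_
      have h4 := h1 (k - 1) (by omega)
      have h5 := h1 (k - 1 - j) (by omega)
      have h6 : y (k - 1) + j * (y 0 - y 1) = y (k - 1 - j) := by
        have h7 : ((k - 1 - j : ℕ) : ℤ) = ((k - 1 : ℕ) : ℤ) - (j : ℤ) := by omega
        rw [h7] at h5
        zify [h3.le]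
        rw [h4, h5]
        ring
      rw [h6]
      exact hyA _ (by omega)
  intro j hj
  have h3 := h1 j hj
  rw [h2, sub_self, mul_zero, add_zero] at h3
  exact_mod_cast h3

/-- The second differences of the parts of the terms of a progression. -/
theorem split {L l x d j : ℕ} (hl : 2 * l ≤ L + 1) (a c : ℕ → ℕ)
    (hx : ∀ i, i ≤ 2 → x + (j + i) * d = L * a i + c i) (hc : ∀ i, i ≤ 2 → c i < l) :
    a 2 + a 0 = 2 * a 1 := by
  have h0 := hx 0 (by norm_num)
  have h1 := hx 1 (by norm_num)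
  have h2 := hx 2 (by norm_num)
  have g0 := hc 0 (by norm_num)
  have g1 := hc 1 (by norm_num)
  have g2 := hc 2 (by norm_num)
  have h3 : (L : ℤ) * ((a 2 : ℤ) + a 0 - 2 * a 1) = 2 * (c 1 : ℤ) - c 0 - c 2 := by
    zify at h0 h1 h2
    linear_combination 2 * h1 - h2 - h0
  have h4 : (L : ℤ) ∣ 2 * (c 1 : ℤ) - c 0 - c 2 := ⟨_, h3.symm⟩
  have h5 := Int.eq_zero_of_abs_lt_dvd h4 (by
    rw [abs_lt]
    constructor <;> omega)
  rw [h5] at h3
  rcases mul_eq_zero.1 h3 with h | h
  · omega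
  · omega

/-- The numbers `x` with `⌊x / L⌋ ∈ A` and `x mod L < l`. -/
noncomputable def blow (L l : ℕ) (A : Finset ℕ) : Finset ℕ :=
  (A ×ˢ range l).image fun z => L * z.1 + z.2

theorem mem_blow {L l : ℕ} {A : Finset ℕ} {x : ℕ} :
    x ∈ blow L l A ↔ ∃ a c, a ∈ A ∧ c < l ∧ L * a + c = x := by
  unfold blow
  rw [mem_image]
  constructor
  · rintro ⟨⟨a, c⟩, h, rfl⟩
    rw [mem_product, mem_range] at h
    exact ⟨a, c, h.1, h.2, rfl⟩
  · rintro ⟨a, c, h1, h2, rfl⟩
    exact ⟨(a, c), mem_product.2 ⟨h1, mem_range.2 h2⟩, rfl⟩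

theorem blow_inj {L l : ℕ} (hl : l ≤ L) {a a' c c' : ℕ} (hc : c < l) (hc' : c' < l)
    (h : L * a + c = L * a' + c') : a = a' ∧ c = c' := by
  have h1 : (L * a + c) / L = a := by
    rw [Nat.mul_add_div (by omega), Nat.div_eq_of_lt (by omega), add_zero]
  have h2 : (L * a' + c') / L = a' := by
    rw [Nat.mul_add_div (by omega), Nat.div_eq_of_lt (by omega), add_zero]
  have h3 : a = a' := by rw [← h1, h, h2]
  subst h3
  exact ⟨rfl, by omega⟩

theorem card_blow {L l : ℕ} (hl : l ≤ L) (A : Finset ℕ) : (blow L l A).card = A.card * l := by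
  unfold blow
  rw [card_image_of_injOn, card_product, card_range]
  intro z hz z' hz' h
  rw [mem_coe, mem_product, mem_range] at hz hz'
  obtain ⟨h1, h2⟩ := blow_inj hl hz.2 hz'.2 h
  exact Prod.ext h1 h2

theorem blow_sub {L l m : ℕ} (hl : l ≤ L) {A : Finset ℕ} (hA : A ⊆ range m) :
    blow L l A ⊆ range (L * m) := by
  intro x hx
  obtain ⟨a, c, ha, hc, rfl⟩ := mem_blow.1 hx
  have h1 := mem_range.1 (hA ha)
  rw [mem_range]
  calc L * a + c < L * a + L := by omega
    _ = L * (a + 1) := by ring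
    _ ≤ L * m := Nat.mul_le_mul_left _ h1

/-- The progressions in a blow-up of a progression-free set are inside one block. -/
theorem blow_ap {k L l : ℕ} (hk : 3 ≤ k) (hl : 2 * l ≤ L + 1) {A : Finset ℕ} (hA : NAP k A)
    {x d : ℕ} (h : ∀ j < k, x + j * d ∈ blow L l A) :
    ∃ a ∈ A, ∀ j < k, ∃ c < l, x + j * d = L * a + c := by
  have h1 : ∀ j : ℕ, ∃ z : ℕ × ℕ, j < k → z.1 ∈ A ∧ z.2 < l ∧ L * z.1 + z.2 = x + j * d := by
    intro j
    by_cases hj : j < k
    · obtain ⟨a, c, h2, h3, h4⟩ := mem_blow.1 (h j hj)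
      exact ⟨(a, c), fun _ => ⟨h2, h3, h4⟩⟩
    · exact ⟨(0, 0), fun h' => absurd h' hj⟩
  choose z hz using h1
  have h2 := hA.const (by omega) (fun j => (z j).1) (fun j hj => (hz j hj).1) (fun j hj => by
    have h3 := split (L := L) (l := l) (x := x) (d := d) (j := j) hl (fun i => (z (j + i)).1)
      (fun i => (z (j + i)).2) (fun i hi => ((hz (j + i) (by omega)).2.2).symm)
      (fun i hi => (hz (j + i) (by omega)).2.1)
    exact h3)
  refine ⟨(z 0).1, (hz 0 (by omega)).1, fun j hj => ⟨(z j).2, (hz j hj).2.1, ?_⟩⟩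
  rw [← h2 j hj]
  exact ((hz j hj).2.2).symm

/-- Supermultiplicativity. -/
theorem rN_mul {k : ℕ} (hk : 3 ≤ k) (m s : ℕ) (hm : 1 ≤ m) :
    rN k m * rN k s ≤ rN k (2 * m * s) := by
  obtain ⟨A, hA1, hA2, hA3⟩ := exists_rN (k := k) (by omega) m
  obtain ⟨B, hB1, hB2, hB3⟩ := exists_rN (k := k) (by omega) s
  set C : Finset ℕ := (blow (2 * m) m B).filter fun x => x % (2 * m) ∈ A with hC
  have hCsub : C ⊆ range (2 * m * s) := (filter_subset _ _).trans (blow_sub (by omega) hB1)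
  have hCN : NAP k C := by
    intro x d hd hx
    obtain ⟨b, hb, h1⟩ := blow_ap hk (L := 2 * m) (l := m) (by omega) hB2
      (fun j hj => (mem_filter.1 (hx j hj)).1)
    -- all the terms are in one block
    choose! c hc using h1
    have h2 : ∀ j < k, c j ∈ A := by
      intro j hj
      have h3 := (mem_filter.1 (hx j hj)).2
      rw [(hc j hj).2, Nat.mul_add_mod, Nat.mod_eq_of_lt (by have := (hc j hj).1; omega)] at h3
      exact h3
    have h3 := hA2.const (by omega) c h2 (fun j hj => by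
      have g0 := (hc j (by omega)).2
      have g1 := (hc (j + 1) (by omega)).2
      have g2 := (hc (j + 2) (by omega)).2
      zify at g0 g1 g2 ⊢
      linear_combination 2 * g1 - g0 - g2)
    have h4 := h3 1 (by omega)
    have g0 := (hc 0 (by omega)).2
    have g1 := (hc 1 (by omega)).2
    rw [h4] at g1
    omega
  have hCc : A.card * B.card ≤ C.card := by
    rw [← card_product]
    refine card_le_card_of_injOn (fun z => 2 * m * z.2 + z.1) ?_ ?_
    · intro z hz
      rw [mem_coe, mem_product] at hz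
      have h1 := mem_range.1 (hA1 hz.1)
      rw [mem_coe, hC, mem_filter, mem_blow]
      refine ⟨⟨z.2, z.1, hz.2, h1, rfl⟩, ?_⟩
      rw [Nat.mul_add_mod, Nat.mod_eq_of_lt (by omega)]
      exact hz.1
    · intro z hz z' hz' h
      rw [mem_coe, mem_product] at hz hz'
      have h1 := mem_range.1 (hA1 hz.1)
      have h2 := mem_range.1 (hA1 hz'.1)
      obtain ⟨h3, h4⟩ := blow_inj (L := 2 * m) (l := m) (by omega) h1 h2 h
      exact Prod.ext h4 h3
  rw [← hA3, ← hB3]
  exact hCc.trans (card_le_rN (by omega) hCsub hCN)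

/-- Behrend's lower bound. -/
theorem rN_behrend {k : ℕ} (hk : 3 ≤ k) {η : ℝ} (hη : 0 < η) {s : ℕ} (hs : 1 ≤ s) :
    Real.exp (-(4 / η)) * ((s : ℝ) * (s : ℝ) ^ (-η)) ≤ rN k s := by
  have hs0 : (0 : ℝ) < s := by exact_mod_cast hs
  obtain ⟨t, ht1, ht2, ht3⟩ := rothNumberNat_spec s
  have h1 : NAP k t := by
    intro x d hd h
    have g0 := h 0 (by omega)
    have g1 := h 1 (by omega)
    have g2 := h 2 (by omega)
    have h2 := ht3 (mem_coe.2 g0) (mem_coe.2 g1) (mem_coe.2 g2) (by ring)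
    omega
  have h2 := card_le_rN (k := k) (by omega) ht1 h1
  rw [ht2] at h2
  have h3 : (rothNumberNat s : ℝ) ≤ rN k s := by exact_mod_cast h2
  refine le_trans ?_ (Behrend.roth_lower_bound.trans h3)
  have hl : 0 ≤ Real.log s := Real.log_nonneg (by exact_mod_cast hs)
  have h4 : 4 * √(Real.log s) ≤ η * Real.log s + 4 / η := by
    set y := √(Real.log s) with hy
    have h5 : Real.log s = y ^ 2 := (Real.sq_sqrt hl).symm
    rw [h5]
    have h6 : 0 ≤ (η * y - 2) ^ 2 / η := by positivity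
    have h7 : (η * y - 2) ^ 2 / η = η * y ^ 2 + 4 / η - 4 * y := by
      field_simp
      ring
    linarith
  rw [mul_left_comm]
  refine mul_le_mul_of_nonneg_left ?_ hs0.le
  rw [Real.rpow_def_of_pos hs0, ← Real.exp_add]
  refine Real.exp_le_exp.2 ?_
  linarith

/-- **Comparison of the densities at different scales.** -/
theorem scaleN {k : ℕ} (hk : 3 ≤ k) {η : ℝ} (hη : 0 < η) :
    ∃ K : ℝ, 1 ≤ K ∧ ∀ m M : ℕ, 1 ≤ m → m ≤ M →
      (rN k m : ℝ) * M ≤ K * ((M : ℝ) / m) ^ η * (rN k M * m) := by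
  refine ⟨4 * Real.exp (4 / η), ?_, ?_⟩
  · have : 1 ≤ Real.exp (4 / η) := Real.one_le_exp (by positivity)
    linarith
  intro m M hm hmM
  have hm0 : (0 : ℝ) < m := by exact_mod_cast hm
  have hM0 : (0 : ℝ) < M := by exact_mod_cast hm.trans hmM
  have hmM' : (m : ℝ) ≤ M := by exact_mod_cast hmM
  have h1M : 1 ≤ (M : ℝ) / m := by rwa [one_le_div hm0]
  have hE : 1 ≤ Real.exp (4 / η) := Real.one_le_exp (by positivity)
  have hmono : (rN k m : ℝ) ≤ rN k M := by exact_mod_cast rN_mono (by omega) hmM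
  by_cases h2 : 2 * m ≤ M
  · set s : ℕ := M / (2 * m) with hs
    have hs1 : 1 ≤ s := (Nat.one_le_div_iff (by omega)).2 h2
    have hs0 : (0 : ℝ) < s := by exact_mod_cast hs1
    have h3 : 2 * m * s ≤ M := Nat.mul_div_le M (2 * m)
    have h4 : M < 2 * m * (s + 1) := Nat.lt_mul_div_succ M (by omega)
    have h5 : (M : ℝ) ≤ 4 * m * s := by
      have h6 : M ≤ 4 * m * s := by nlinarith
      exact_mod_cast h6
    have h6 : (s : ℝ) ≤ (M : ℝ) / m := by
      rw [le_div_iff₀ hm0]
      have h7 : s * m ≤ M := by nlinarith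
      exact_mod_cast h7
    have h7 := rN_behrend hk hη hs1
    have h8 : (rN k m : ℝ) * rN k s ≤ rN k M := by
      exact_mod_cast (rN_mul hk m s hm).trans (rN_mono (by omega) h3)
    have h9 : ((M : ℝ) / m) ^ (-η) ≤ (s : ℝ) ^ (-η) := by
      rw [Real.rpow_neg (by positivity), Real.rpow_neg hs0.le]
      exact inv_anti₀ (by positivity) (Real.rpow_le_rpow hs0.le h6 hη.le)
    have h10 : 0 ≤ (rN k m : ℝ) := Nat.cast_nonneg _
    have h11 : (rN k m : ℝ) * (Real.exp (-(4 / η)) * ((s : ℝ) * ((M : ℝ) / m) ^ (-η))) ≤ rN k M := by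
      refine le_trans (mul_le_mul_of_nonneg_left (le_trans ?_ h7) h10) h8
      gcongr
    rw [Real.exp_neg, Real.rpow_neg (by positivity)] at h11
    have h12 : 0 < Real.exp (4 / η) := Real.exp_pos _
    have h13 : 0 < ((M : ℝ) / m) ^ η := by positivity
    have h14 : (rN k m : ℝ) * s ≤ rN k M * Real.exp (4 / η) * ((M : ℝ) / m) ^ η := by
      have h15 : (rN k m : ℝ) * ((Real.exp (4 / η))⁻¹ * ((s : ℝ) * (((M : ℝ) / m) ^ η)⁻¹)) =
          (rN k m : ℝ) * s / (Real.exp (4 / η) * ((M : ℝ) / m) ^ η) := by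
        field_simp
      rw [h15, div_le_iff₀ (by positivity)] at h11
      linarith
    calc (rN k m : ℝ) * M ≤ rN k m * (4 * m * s) := by gcongr
      _ = 4 * m * (rN k m * s) := by ring
      _ ≤ 4 * m * (rN k M * Real.exp (4 / η) * ((M : ℝ) / m) ^ η) := by gcongr
      _ = _ := by ring
  · have h3 : (M : ℝ) ≤ 2 * m := by exact_mod_cast (not_le.1 h2).le
    have h4 : 1 ≤ ((M : ℝ) / m) ^ η := Real.one_le_rpow h1M hη.le
    have h5 : 1 ≤ Real.exp (4 / η) * ((M : ℝ) / m) ^ η := one_le_mul_of_one_le_of_one_le hE h4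
    have h6 : 0 ≤ (rN k M : ℝ) * m := by positivity
    calc (rN k m : ℝ) * M ≤ rN k M * (2 * m) := by gcongr
      _ ≤ 4 * (1 * (rN k M * m)) := by linarith
      _ ≤ 4 * (Real.exp (4 / η) * ((M : ℝ) / m) ^ η * (rN k M * m)) := by gcongr
      _ = _ := by ring

end

end Pool.Agent.U465.SR
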