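import Pool.Agent.U465.SR.Int3

set_option autoImplicit false

/-!
# Containers for the progression-free subsets of intervals
-/

open Finset

namespace Pool.Agent.U465.SR

section

open scoped Classical

/-- The density `r_k(m) / m`. -/
noncomputable def dn (k m : ℕ) : ℝ := (rN k m : ℝ) / m

theorem dn_pos {k m : ℕ} (hk : 2 ≤ k) (hm : 1 ≤ m) : 0 < dn k m := by
  have h1 : (1 : ℝ) ≤ rN k m := by exact_mod_cast rN_pos hk hm
  have h2 : (0 : ℝ) < m := by exact_mod_cast hm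
  unfold dn
  positivity

theorem dn_ge {k m : ℕ} (hk : 2 ≤ k) (hm : 1 ≤ m) : 1 / (m : ℝ) ≤ dn k m := by
  have h1 : (1 : ℝ) ≤ rN k m := by exact_mod_cast rN_pos hk hm
  have h2 : (0 : ℝ) < m := by exact_mod_cast hm
  unfold dn
  gcongr

theorem dn_scale {k : ℕ} (hk : 3 ≤ k) {η : ℝ} (hη : 0 < η) :
    ∃ K : ℝ, 1 ≤ K ∧ ∀ m M : ℕ, 1 ≤ m → m ≤ M → dn k m ≤ K * ((M : ℝ) / m) ^ η * dn k M := by
  obtain ⟨K, hK, h⟩ := scaleN hk hη
  refine ⟨K, hK, fun m M hm hmM => ?_⟩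
  have h1 := h m M hm hmM
  have hm0 : (0 : ℝ) < m := by exact_mod_cast hm
  have hM0 : (0 : ℝ) < M := by exact_mod_cast hm.trans hmM
  unfold dn
  rw [div_le_iff₀ hm0, mul_div_assoc', div_mul_eq_mul_div, le_div_iff₀ hM0]
  linarith

/-- The cheap comparison of the densities. -/
theorem dn_le {k m M : ℕ} (hk : 2 ≤ k) (hm : 1 ≤ m) (hmM : m ≤ M) :
    dn k m ≤ (M : ℝ) / m * dn k M := by
  have hm0 : (0 : ℝ) < m := by exact_mod_cast hm
  have hM0 : (0 : ℝ) < M := by exact_mod_cast hm.trans hmM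
  have h1 : (rN k m : ℝ) ≤ rN k M := by exact_mod_cast rN_mono hk hmM
  unfold dn
  rw [div_mul_div_comm, mul_comm (m : ℝ), mul_div_mul_left _ _ hM0.ne']
  gcongr

/-- **Containers in intervals.** -/
theorem coverN0 (k : ℕ) (hk : 3 ≤ k) : ∃ C : ℝ, 0 < C ∧
    ∀ (N b : ℕ) (t β : ℝ), 1 ≤ b → 2 ^ b ≤ N → 0 < t → t ≤ 1 → t ≤ β → β ≤ Real.exp 1 * t →
      1 ≤ (2 : ℝ) ^ (b - 1) * t ^ (k - 1) →
      XCov β (Free (ptN k N)) (Real.exp (C * (t * (N * dn k (N / 2 ^ b)))))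
        (C * (N * dn k (N / 2 ^ b))) := by
  obtain ⟨A₀, hA₀, hcov⟩ := cover k (by omega)
  have hk3 : (3 : ℝ) ≤ k := by exact_mod_cast hk
  have hk1 : (0 : ℝ) < (k : ℝ) - 1 := by linarith
  have hk2 : ((k - 1 : ℕ) : ℝ) = (k : ℝ) - 1 := by
    rw [Nat.cast_sub (by omega), Nat.cast_one]
  set η : ℝ := 1 / (4 * ((k : ℝ) - 1)) with hη
  have hη0 : 0 < η := by positivity
  obtain ⟨K, hK1, hK⟩ := dn_scale hk hη0
  set σ : ℝ := (2 : ℝ) ^ (-(1 / ((k : ℝ) - 1))) with hσ
  have hσ0 : 0 < σ := by positivity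
  have hσ1 : σ < 1 := Real.rpow_lt_one_of_one_lt_of_neg one_lt_two (by
    rw [neg_lt_zero]
    positivity)
  have hσk : σ ^ (k - 1) = (2 : ℝ)⁻¹ := by
    rw [hσ, ← Real.rpow_natCast, ← Real.rpow_mul zero_le_two, hk2, neg_mul, one_div,
      inv_mul_cancel₀ hk1.ne', Real.rpow_neg_one]
  have hσ2 : 1 ≤ 2 * σ := by
    have h1 : (2 : ℝ) ^ (-(1 : ℝ)) ≤ σ := by
      rw [hσ]
      refine Real.rpow_le_rpow_of_exponent_le one_le_two (neg_le_neg ?_)
      rw [div_le_one hk1]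
      linarith
    rw [Real.rpow_neg_one] at h1
    linarith
  set ω : ℝ := (2 : ℝ) ^ η * σ ^ ((1 : ℝ) / 2) with hω
  have hω0 : 0 < ω := by positivity
  have hω1 : ω < 1 := by
    rw [hω, hσ, ← Real.rpow_mul zero_le_two, ← Real.rpow_add zero_lt_two]
    refine Real.rpow_lt_one_of_one_lt_of_neg one_lt_two ?_
    have h1 : η + -(1 / ((k : ℝ) - 1)) * (1 / 2) = -η := by
      rw [hη]
      field_simp
      ring
    rw [h1]
    linarith
  have h1ω : 0 < 1 - ω := by linarith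
  set C₁ : ℝ := A₀ / (1 / 2) * (16 * K * ((2 : ℝ) ^ η) ^ 2 * Real.exp 1 / (1 - ω)) + 16 with hC₁
  have hC₁0 : 0 < C₁ := by positivity
  refine ⟨C₁, hC₁0, ?_⟩
  intro N b t β hb hbN ht0 ht1 htβ hβt ht
  have hβ0 : 0 < β := ht0.trans_le htβ
  have hN1 : 1 ≤ N := Nat.one_le_two_pow.trans hbN
  have hN0 : (0 : ℝ) < N := by exact_mod_cast hN1
  set L : ℕ := Nat.log 2 N with hL
  have hbL : b ≤ L := Nat.le_log_of_pow_le (by norm_num) hbN
  set J : ℕ := L - b with hJ
  set m : ℕ → ℕ := fun j => N / 2 ^ (b + j) with hm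
  have hm1 : ∀ j ≤ J, 1 ≤ m j := by
    intro j hj
    rw [hm]
    refine (Nat.one_le_div_iff (by positivity)).2 ?_
    calc 2 ^ (b + j) ≤ 2 ^ L := Nat.pow_le_pow_right (by norm_num) (by omega)
      _ ≤ N := Nat.pow_log_le_self 2 (by omega)
  have hmle : ∀ j, m j * 2 ^ (b + j) ≤ N := fun j => Nat.div_mul_le_self _ _
  have hmN : ∀ j, m j ≤ N := fun j => Nat.div_le_self _ _
  have hmge : ∀ j ≤ J, N ≤ 2 * (m j * 2 ^ (b + j)) := by
    intro j hj
    have h1 : N < m j * 2 ^ (b + j) + 2 ^ (b + j) := by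
      have := Nat.lt_div_mul_add (a := N) (b := 2 ^ (b + j)) (by positivity)
      exact this
    have h2 : 1 * 2 ^ (b + j) ≤ m j * 2 ^ (b + j) := Nat.mul_le_mul_right _ (hm1 j hj)
    omega
  have hm00 : m 0 = N / 2 ^ b := by rw [hm]; simp
  rw [← hm00]
  set μ : ℝ := N * dn k (m 0) with hμ
  have hα : ∀ j ≤ J, 0 < dn k (m j) := fun j hj => dn_pos (by omega) (hm1 j hj)
  have hμ0 : 0 < μ := mul_pos hN0 (hα 0 (Nat.zero_le _))
  have h2b : 1 ≤ (2 : ℝ) ^ b * t := by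
    have h3 : t ^ (k - 1) ≤ t := pow_le_of_le_one ht0.le ht1 (by omega)
    calc (1 : ℝ) ≤ (2 : ℝ) ^ (b - 1) * t ^ (k - 1) := ht
      _ ≤ (2 : ℝ) ^ b * t := by
        gcongr
        · norm_num
        · omega
  have hscale : ∀ j, j + 1 ≤ J → dn k (m (j + 1)) ≤ K * ((2 : ℝ) ^ η) ^ (j + 2) * dn k (m 0) := by
    intro j hj
    have h3 := hK (m (j + 1)) (m 0) (hm1 _ hj) (by
      rw [hm]
      exact Nat.div_le_div_left (Nat.pow_le_pow_right (by norm_num) (by omega)) (by positivity))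
    refine h3.trans ?_
    have h4 : ((m 0 : ℕ) : ℝ) / (m (j + 1) : ℕ) ≤ (2 : ℝ) ^ (j + 2) := by
      have h5 : (0 : ℝ) < (m (j + 1) : ℕ) := by exact_mod_cast hm1 _ hj
      rw [div_le_iff₀ h5]
      have h6 : m 0 * 2 ^ b ≤ (2 ^ (j + 2) * m (j + 1)) * 2 ^ b := by
        calc m 0 * 2 ^ b ≤ N := by simpa using hmle 0
          _ ≤ 2 * (m (j + 1) * 2 ^ (b + (j + 1))) := hmge _ hj
          _ = _ := by
            rw [pow_add, pow_add, pow_add]
            ring
      have h7 : m 0 ≤ 2 ^ (j + 2) * m (j + 1) := Nat.le_of_mul_le_mul_right h6 (by positivity)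
      exact_mod_cast h7
    have h5 : (((m 0 : ℕ) : ℝ) / (m (j + 1) : ℕ)) ^ η ≤ ((2 : ℝ) ^ η) ^ (j + 2) := by
      calc (((m 0 : ℕ) : ℝ) / (m (j + 1) : ℕ)) ^ η ≤ ((2 : ℝ) ^ (j + 2)) ^ η :=
            Real.rpow_le_rpow (by positivity) h4 hη0.le
        _ = _ := by
            rw [← Real.rpow_natCast, ← Real.rpow_natCast, ← Real.rpow_mul zero_le_two,
              ← Real.rpow_mul zero_le_two, mul_comm]
    have h6 : 0 ≤ dn k (m 0) := (hα 0 (Nat.zero_le _)).le
    gcongr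
  have h1 := hcov (ptN k N) (sysN k N) (fun j => 16 * (N * dn k (m j)))
    (fun j => t * σ ^ j) (fun j => 2 ^ (b - 1 + j)) β (1 / 2) J hβ0 (by norm_num) (by norm_num)
    (fun j hj => by
      have hσj : σ ^ j ≤ 1 := pow_le_one₀ hσ0.le hσ1.le
      have hτj : t * σ ^ j ≤ t := mul_le_of_le_one_right ht0.le hσj
      have hmj := hm1 j hj.le
      have hmj0 : (0 : ℝ) < (m j : ℕ) := by exact_mod_cast hmj
      refine ⟨Nat.one_le_two_pow, by positivity, hτj.trans ht1, hτj.trans htβ, ?_, ?_, ?_⟩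
      · have h2 : ((2 ^ (b - 1 + j) : ℕ) : ℝ) * (t * σ ^ j) ^ (k - 1) =
            (2 : ℝ) ^ (b - 1) * t ^ (k - 1) := by
          rw [mul_pow, ← pow_mul, mul_comm j, pow_mul, hσk, Nat.cast_pow, pow_add, inv_pow]
          push_cast
          field_simp
        rw [h2]
        exact ht
      · have h2 := dn_ge (k := k) (by omega) hmj
        have h3 : (2 : ℝ) ^ (b + j) ≤ N * dn k (m j) := by
          calc (2 : ℝ) ^ (b + j) = (2 : ℝ) ^ (b + j) * (m j : ℕ) * (1 / (m j : ℕ)) := by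
                field_simp
            _ ≤ N * (1 / (m j : ℕ)) := by
                refine mul_le_mul_of_nonneg_right ?_ (by positivity)
                have h4 : 2 ^ (b + j) * m j ≤ N := by
                  rw [mul_comm]
                  exact hmle j
                exact_mod_cast h4
            _ ≤ _ := by gcongr
        have h4 : 1 ≤ (2 : ℝ) ^ (b + j) * (t * σ ^ j) := by
          have h5 : (2 : ℝ) ^ (b + j) * (t * σ ^ j) = ((2 : ℝ) ^ b * t) * (2 * σ) ^ j := by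
            rw [pow_add, mul_pow]
            ring
          rw [h5]
          exact one_le_mul_of_one_le_of_one_le h2b (one_le_pow₀ hσ2)
        have h5 : 0 < t * σ ^ j := by positivity
        calc (1 : ℝ) ≤ (2 : ℝ) ^ (b + j) * (t * σ ^ j) := h4
          _ ≤ (N * dn k (m j)) * (t * σ ^ j) := by gcongr
          _ ≤ 16 * (N * dn k (m j)) * (t * σ ^ j) := by
            have h6 : 0 < N * dn k (m j) * (t * σ ^ j) := mul_pos (mul_pos hN0 (hα j hj.le)) h5
            linarith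
      · intro W hW
        have h2 : 8 * N * rN k (m j) ≤ m j * W.card := by
          have h3 : (8 : ℝ) * N * rN k (m j) ≤ m j * W.card := by
            calc (8 : ℝ) * N * rN k (m j) = (m j : ℕ) * (16 * (N * dn k (m j)) / 2) := by
                  unfold dn
                  field_simp
                  ring
              _ ≤ _ := by gcongr
          exact_mod_cast h3
        have h3 := supersatN (by omega) hmj (hmN j) W h2
        have h4 : (m j * 2) * (2 ^ (b - 1 + j) * W.card) ≤ (m j * 2) * cnt (ptN k N) W := by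
          calc (m j * 2) * (2 ^ (b - 1 + j) * W.card) = (m j * 2 ^ (b + j)) * W.card := by
                obtain ⟨b', rfl⟩ : ∃ b', b = b' + 1 := ⟨b - 1, by omega⟩
                rw [Nat.add_sub_cancel, pow_add, pow_add, pow_add]
                ring
            _ ≤ N * W.card := Nat.mul_le_mul_right _ (hmle j)
            _ ≤ _ := by linarith
        have h5 : 2 ^ (b - 1 + j) * W.card ≤ cnt (ptN k N) W :=
          Nat.le_of_mul_le_mul_left h4 (by omega)
        exact_mod_cast h5)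
    (by
      have h2 : m J = 1 := by
        have h3 : b + J = L := by omega
        rw [hm]
        change N / 2 ^ (b + J) = 1
        rw [h3]
        refine Nat.div_eq_of_lt_le ?_ ?_
        · rw [one_mul]
          exact Nat.pow_log_le_self 2 (by omega)
        · have h4 := Nat.lt_pow_succ_log_self (b := 2) (by norm_num) N
          rw [← hL, pow_succ] at h4
          omega
      rw [Fintype.card_fin, h2]
      have h3 := dn_ge (k := k) (m := 1) (by omega) le_rfl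
      rw [Nat.cast_one, div_one] at h3
      nlinarith)
  refine h1.mono (Real.exp_le_exp.2 ?_) ?_
  · have h2 : ∀ j ∈ range J, 16 * (N * dn k (m (j + 1))) * (β ^ ((1 : ℝ) / 2) *
        (t * σ ^ j) ^ (1 - (1 : ℝ) / 2)) ≤
        16 * K * ((2 : ℝ) ^ η) ^ 2 * Real.exp 1 * (t * μ) * ω ^ j := by
      intro j hj
      rw [mem_range] at hj
      have h3 : (t * σ ^ j) ^ (1 - (1 : ℝ) / 2) = t ^ ((1 : ℝ) / 2) * (σ ^ ((1 : ℝ) / 2)) ^ j := by
        rw [show (1 : ℝ) - 1 / 2 = 1 / 2 by norm_num, Real.mul_rpow ht0.le (by positivity),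
          ← Real.rpow_natCast, ← Real.rpow_mul hσ0.le, mul_comm (j : ℝ), Real.rpow_mul hσ0.le,
          Real.rpow_natCast]
      have h4 : t ^ ((1 : ℝ) / 2) * t ^ ((1 : ℝ) / 2) = t := by
        rw [← Real.rpow_add ht0]
        norm_num
      have h5 : β ^ ((1 : ℝ) / 2) ≤ Real.exp 1 * t ^ ((1 : ℝ) / 2) := by
        calc β ^ ((1 : ℝ) / 2) ≤ (Real.exp 1 * t) ^ ((1 : ℝ) / 2) :=
              Real.rpow_le_rpow hβ0.le hβt (by norm_num)
          _ = Real.exp 1 ^ ((1 : ℝ) / 2) * t ^ ((1 : ℝ) / 2) :=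
              Real.mul_rpow (Real.exp_pos 1).le ht0.le
          _ ≤ Real.exp 1 * t ^ ((1 : ℝ) / 2) := by
              refine mul_le_mul_of_nonneg_right ?_ (by positivity)
              calc Real.exp 1 ^ ((1 : ℝ) / 2) ≤ Real.exp 1 ^ (1 : ℝ) :=
                    Real.rpow_le_rpow_of_exponent_le (Real.one_le_exp (by norm_num)) (by norm_num)
                _ = _ := Real.rpow_one _
      rw [h3]
      have h6 := hscale j (by omega)
      have h7 := (hα (j + 1) (by omega)).le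
      have h8 := (hα 0 (Nat.zero_le _)).le
      calc 16 * (N * dn k (m (j + 1))) * (β ^ ((1 : ℝ) / 2) *
            (t ^ ((1 : ℝ) / 2) * (σ ^ ((1 : ℝ) / 2)) ^ j))
          ≤ 16 * (N * (K * ((2 : ℝ) ^ η) ^ (j + 2) * dn k (m 0))) *
            ((Real.exp 1 * t ^ ((1 : ℝ) / 2)) *
            (t ^ ((1 : ℝ) / 2) * (σ ^ ((1 : ℝ) / 2)) ^ j)) := by gcongr
        _ = 16 * (N * (K * ((2 : ℝ) ^ η) ^ (j + 2) * dn k (m 0))) * (Real.exp 1 *
            (t ^ ((1 : ℝ) / 2) * t ^ ((1 : ℝ) / 2)) * (σ ^ ((1 : ℝ) / 2)) ^ j) := by ring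
        _ = _ := by
          rw [h4, hω, mul_pow, pow_add, hμ]
          ring
    have h3 : ∑ j ∈ range J, ω ^ j ≤ 1 / (1 - ω) := by
      rw [le_div_iff₀ h1ω, geom_sum_mul_neg]
      have : 0 ≤ ω ^ J := by positivity
      linarith
    have h4 : ∑ j ∈ range J, 16 * (N * dn k (m (j + 1))) * (β ^ ((1 : ℝ) / 2) *
        (t * σ ^ j) ^ (1 - (1 : ℝ) / 2)) ≤
        16 * K * ((2 : ℝ) ^ η) ^ 2 * Real.exp 1 * (t * μ) * (1 / (1 - ω)) := by
      refine (sum_le_sum h2).trans ?_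
      rw [← mul_sum]
      gcongr
    calc A₀ / (1 / 2) * ∑ j ∈ range J, 16 * (N * dn k (m (j + 1))) * (β ^ ((1 : ℝ) / 2) *
          (t * σ ^ j) ^ (1 - (1 : ℝ) / 2))
        ≤ A₀ / (1 / 2) * (16 * K * ((2 : ℝ) ^ η) ^ 2 * Real.exp 1 * (t * μ) * (1 / (1 - ω))) := by
          gcongr
      _ = A₀ / (1 / 2) * (16 * K * ((2 : ℝ) ^ η) ^ 2 * Real.exp 1 / (1 - ω)) * (t * μ) := by ring
      _ ≤ C₁ * (t * μ) := by
        refine mul_le_mul_of_nonneg_right ?_ (by positivity)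
        rw [hC₁]
        linarith
  · change 16 * μ ≤ C₁ * μ
    refine mul_le_mul_of_nonneg_right ?_ hμ0.le
    rw [hC₁]
    have : 0 ≤ A₀ / (1 / 2) * (16 * K * ((2 : ℝ) ^ η) ^ 2 * Real.exp 1 / (1 - ω)) := by positivity
    linarith

end

end Pool.Agent.U465.SR
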