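import Pool.Agent.U465.SR.Vec5

set_option autoImplicit false

/-!
# The partition function of the configuration-free subsets of `L ^ n`
-/

open Finset Filter Topology

namespace Pool.Agent.U465.SR

section

open scoped Classical

theorem card_eq_ZZ {X : Type} (P : Finset X → Prop) (V : Finset X) :
    (((V.powerset.filter P).card : ℕ) : ℝ) = ZZ 1 P V := by
  unfold ZZ
  simp

variable {p : ℕ} [hp : Fact p.Prime] {L : Type} [AddCommGroup L] [Module (ZMod p) L] [Fintype L]
  {k : ℕ}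

/-- **The partition function at all activities.** -/
theorem partAll (a : Fin k → L) (ha : Function.Injective a) (hk : 2 ≤ k) (hL : p ≤ Fintype.card L)
    (θ K : ℝ) (hθ1 : 1 ≤ θ) (hθp : θ < (p : ℝ) ^ (1 / ((k : ℝ) - 1))) (hθL : θ ≤ Fintype.card L)
    (hK0 : 0 < K)
    (hK : ∀ m s : ℕ, (rr p a m : ℝ) * (Fintype.card L : ℝ) ^ s ≤ K * θ ^ s * rr p a (m + s)) :
    ∃ c C : ℝ, 0 < c ∧ 0 < C ∧
      (∀ (n : ℕ) (β : ℝ), 1 ≤ β →
        rr p a n * Real.log (1 + β) ≤ Real.log (ZZ β (Free (ptv (p := p) a n)) univ) ∧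
        Real.log (ZZ β (Free (ptv (p := p) a n)) univ) ≤ C * (rr p a n * Real.log (1 + β))) ∧
      (∀ (n : ℕ) (β : ℝ), 0 < β → β ≤ 1 → 1 ≤ (p : ℝ) ^ n * β ^ (k - 1) →
        ∀ h : ℕ, h = ⌈((k : ℝ) - 1) * Real.logb p (1 / β)⌉₊ →
        h ≤ n ∧ c * (β * (rr p a (n - h) * (Fintype.card L : ℝ) ^ h)) ≤
          Real.log (ZZ β (Free (ptv (p := p) a n)) univ) ∧
        Real.log (ZZ β (Free (ptv (p := p) a n)) univ) ≤
          C * (β * (rr p a (n - h) * (Fintype.card L : ℝ) ^ h))) ∧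
      (∀ (n : ℕ) (β : ℝ), 0 < β → β ≤ 1 → (p : ℝ) ^ n * β ^ (k - 1) ≤ 1 →
        c * (β * (Fintype.card L : ℝ) ^ n) ≤ Real.log (ZZ β (Free (ptv (p := p) a n)) univ) ∧
        Real.log (ZZ β (Free (ptv (p := p) a n)) univ) ≤ β * (Fintype.card L : ℝ) ^ n) := by
  obtain ⟨c, C, hc, hC, h1⟩ := orderV a ha hk hL θ K hθ1 hθp hθL hK0 hK
  have hp1 : (1 : ℝ) < p := by exact_mod_cast hp.out.one_lt
  have h0 : ∀ n, Free (ptv (p := p) a n) ∅ := fun n t ht => notMem_empty _ (ht ⟨0, by omega⟩)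
  have hmono : ∀ n, ∀ I J : Finset (Fin n → L), J ⊆ I → Free (ptv (p := p) a n) I →
      Free (ptv (p := p) a n) J := fun n I J h hI => hI.mono h
  have hl2 : 0 < Real.log 2 := Real.log_pos (by norm_num)
  have hl21 : Real.log 2 ≤ 1 := by
    have := Real.log_two_lt_d9
    linarith
  refine ⟨min c (Real.log 2 / 4), C / Real.log 2 + C + 1, by positivity, by positivity, ?_, ?_, ?_⟩
  · intro n β hβ
    have hβ0 : 0 < β := by linarith
    constructor
    · have h2 := ZZ_lower hβ0.le (h0 n) (hmono n) univ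
      have h3 := Real.log_le_log (by positivity) h2
      rw [Real.log_pow] at h3
      exact h3
    · have h2 := ZZ_large hβ (Free (ptv (p := p) a n)) univ
      have hZ := ZZ_pos (β := 1) one_pos (h0 n) univ
      have h3 := Real.log_le_log (ZZ_pos hβ0 (h0 n) univ) h2
      rw [Real.log_mul hZ.ne' (by positivity), Real.log_pow] at h3
      have hr1 : 1 ≤ (p : ℝ) ^ n * (1 : ℝ) ^ (k - 1) := by
        rw [one_pow, mul_one]
        exact one_le_pow₀ hp1.le
      obtain ⟨_, _, _, _, _, h4⟩ := h1 n 1 (range_le hk zero_le_one hr1) le_rfl _ rfl _ rfl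
      rw [div_one, Real.logb_one, mul_zero, Nat.ceil_zero, Nat.sub_zero, pow_zero, mul_one,
        one_mul] at h4
      have h5 : Real.log β ≤ Real.log (1 + β) := Real.log_le_log hβ0 (by linarith)
      have h6 : Real.log 2 ≤ Real.log (1 + β) := Real.log_le_log (by norm_num) (by linarith)
      have h7 : C * (rr p a n : ℝ) ≤ C / Real.log 2 * (rr p a n * Real.log (1 + β)) := by
        calc C * (rr p a n : ℝ) = C / Real.log 2 * (rr p a n * Real.log 2) := by
              field_simp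
          _ ≤ _ := by gcongr
      have h8 : (rr p a n : ℝ) * Real.log β ≤ rr p a n * Real.log (1 + β) :=
        mul_le_mul_of_nonneg_left h5 (Nat.cast_nonneg _)
      have h9 : 0 ≤ C * (rr p a n * Real.log (1 + β)) := by
        have : 0 ≤ Real.log (1 + β) := hl2.le.trans h6
        positivity
      change _ ≤ Real.log (ZZ 1 (Free (ptv (p := p) a n)) univ) + (rr p a n : ℝ) * Real.log β at h3
      linarith
  · intro n β hβ0 hβ1 hβ h hh
    obtain ⟨g1, _, _, _, g5, g6⟩ := h1 n β (range_le hk hβ0.le hβ) hβ1 h hh _ rfl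
    have hμ : 0 ≤ β * (rr p a (n - h) * (Fintype.card L : ℝ) ^ h) := by positivity
    refine ⟨g1, le_trans (mul_le_mul_of_nonneg_right (min_le_left _ _) hμ) g5, g6.trans ?_⟩
    refine mul_le_mul_of_nonneg_right ?_ hμ
    have : 0 < C / Real.log 2 := by positivity
    linarith
  · intro n β hβ0 hβ1 hβ
    obtain ⟨g1, _, _⟩ := lowV a ha hk n β hβ0.le hβ1 hβ
    have hX : ((univ : Finset (Fin n → L)).card : ℝ) = (Fintype.card L : ℝ) ^ n := by
      rw [card_univ, Fintype.card_fun, Fintype.card_fin, Nat.cast_pow]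
    constructor
    · have h2 := part_lower (X := Fin n → L) (q := β / 2) (by linarith) (by linarith) (h0 n) (hmono n)
      have h3 := Real.log_le_log (ZZ_pos (β := β / 2) (by linarith) (h0 n) univ)
        (ZZ_mono (β := β / 2) (β' := β) (by linarith) (by linarith) (Free (ptv (p := p) a n)) univ)
      refine le_trans ?_ (h2.trans h3)
      have h4 := mul_le_mul_of_nonneg_left g1 hl2.le
      refine le_trans ?_ h4
      calc min c (Real.log 2 / 4) * (β * (Fintype.card L : ℝ) ^ n)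
          ≤ (Real.log 2 / 4) * (β * (Fintype.card L : ℝ) ^ n) := by
            gcongr
            exact min_le_right _ _
        _ = _ := by ring
    · have h2 := Real.log_le_log (ZZ_pos hβ0 (h0 n) univ) (ZZ_le hβ0.le (Free (ptv (p := p) a n)) univ)
      rw [Real.log_exp, hX] at h2
      exact h2

/-- The growth rate of the logarithm of the number of the configuration-free sets. -/
theorem rate {f r : ℕ → ℝ} {Λ : ℝ} (hΛ : 1 ≤ Λ) (hr : ∀ n, r n ≤ Λ ^ n)
    (hr' : ∀ ρ : ℝ, 1 ≤ ρ → ρ < Λ → ∃ n₀ : ℕ, ∀ n ≥ n₀, ρ ^ n ≤ r n) (hr1 : ∀ n, 1 ≤ r n)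
    {c C : ℝ} (hc : 0 < c) (hC : 0 < C) (h1 : ∀ n, c * r n ≤ f n) (h2 : ∀ n, f n ≤ C * r n) :
    Tendsto (fun n : ℕ => f n ^ (1 / (n : ℝ))) atTop (nhds Λ) := by
  have hroot : ∀ x : ℝ, 0 < x → Tendsto (fun n : ℕ => x ^ (1 / (n : ℝ))) atTop (nhds 1) := by
    intro x hx
    have h3 : Tendsto (fun n : ℕ => 1 / (n : ℝ)) atTop (nhds 0) := tendsto_one_div_atTop_nhds_zero_nat
    have h4 := (tendsto_const_nhds (x := x)).rpow h3 (Or.inl hx.ne')
    rwa [Real.rpow_zero] at h4
  have hpow : ∀ (x : ℝ) (n : ℕ), 0 ≤ x → 1 ≤ n → (x ^ n) ^ (1 / (n : ℝ)) = x := by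
    intro x n hx hn
    rw [one_div]
    exact Real.pow_rpow_inv_natCast hx (by omega)
  rw [tendsto_order]
  constructor
  · intro b hb
    by_cases hb1 : b < 1 ∧ Λ = 1
    · -- `Λ = 1`
      have h3 := (hroot c hc).eventually (lt_mem_nhds hb1.1)
      filter_upwards [h3, eventually_ge_atTop 1] with n hn hn1
      refine hn.trans_le (Real.rpow_le_rpow hc.le ?_ (by positivity))
      exact (le_mul_of_one_le_right hc.le (hr1 n)).trans (h1 n)
    · have hΛ1 : 1 < Λ := by
        rcases hΛ.eq_or_lt with h | h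
        · exact absurd ⟨by linarith, h.symm⟩ hb1
        · exact h
      obtain ⟨ρ, hρ1, hρ2⟩ := exists_between (max_lt hb hΛ1)
      have hρ3 : 1 ≤ ρ := ((le_max_right _ _).trans_lt hρ1).le
      have hρ4 : b < ρ := (le_max_left _ _).trans_lt hρ1
      obtain ⟨n₀, hn₀⟩ := hr' ρ hρ3 hρ2
      have h3 := ((hroot c hc).mul_const ρ).eventually (lt_mem_nhds (by rwa [one_mul]))
      filter_upwards [h3, eventually_ge_atTop (max n₀ 1)] with n hn hn1
      refine hn.trans_le ?_
      have h4 : c * ρ ^ n ≤ f n :=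
        (mul_le_mul_of_nonneg_left (hn₀ n ((le_max_left _ _).trans hn1)) hc.le).trans (h1 n)
      calc c ^ (1 / (n : ℝ)) * ρ = c ^ (1 / (n : ℝ)) * (ρ ^ n) ^ (1 / (n : ℝ)) := by
            rw [hpow ρ n (by linarith) ((le_max_right _ _).trans hn1)]
        _ = (c * ρ ^ n) ^ (1 / (n : ℝ)) := (Real.mul_rpow hc.le (by positivity)).symm
        _ ≤ _ := Real.rpow_le_rpow (by positivity) h4 (by positivity)
  · intro b hb
    have h3 := ((hroot C hC).mul_const Λ).eventually (gt_mem_nhds (by rwa [one_mul]))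
    filter_upwards [h3, eventually_ge_atTop 1] with n hn hn1
    refine lt_of_le_of_lt ?_ hn
    have h4 : f n ≤ C * Λ ^ n := (h2 n).trans (mul_le_mul_of_nonneg_left (hr n) hC.le)
    have h5 : 0 ≤ f n := by
      have := hr1 n
      have := h1 n
      nlinarith
    calc f n ^ (1 / (n : ℝ)) ≤ (C * Λ ^ n) ^ (1 / (n : ℝ)) :=
          Real.rpow_le_rpow h5 h4 (by positivity)
      _ = C ^ (1 / (n : ℝ)) * (Λ ^ n) ^ (1 / (n : ℝ)) :=
          Real.mul_rpow hC.le (by positivity)
      _ = _ := by rw [hpow Λ n (by linarith) hn1]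

end

end Pool.Agent.U465.SR
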