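import Pool.Agent.U465.SR.Int4
import Pool.Agent.U465.SR.Part

set_option autoImplicit false

/-!
# Random subsets of intervals and the number of progression-free sets
-/

open Finset

namespace Pool.Agent.U465.SR

section

open scoped Classical

theorem XCov.trivial {X : Type} [Fintype X] (β : ℝ) (P : Finset X → Prop) :
    XCov β P 1 (Fintype.card X) := by
  refine ⟨Unit, univ, fun _ => ∅, fun _ => univ, ?_, fun i _ => ⟨disjoint_empty_left _, ?_⟩,
    fun I _ => ⟨(), mem_univ _, empty_subset _, ?_⟩⟩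
  · simp
  · rw [card_univ]
  · rw [empty_union]
    exact subset_univ _

/-- The scale `⌈t ^ (k - 1) N⌉`. -/
noncomputable def sc (k N : ℕ) (t : ℝ) : ℕ := ⌈t ^ (k - 1) * N⌉₊

theorem sc_pos {k N : ℕ} {t : ℝ} (hN : 1 ≤ N) (ht : 0 < t) : 1 ≤ sc k N t := by
  unfold sc
  have h1 : (0 : ℝ) < N := by exact_mod_cast hN
  exact Nat.ceil_pos.2 (by positivity)

theorem sc_le {k N : ℕ} {t : ℝ} (ht : 0 ≤ t) (ht1 : t ≤ 1) : sc k N t ≤ N := by
  unfold sc
  rw [Nat.ceil_le]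
  exact mul_le_of_le_one_left (Nat.cast_nonneg _) (pow_le_one₀ ht ht1)

theorem le_sc (k N : ℕ) (t : ℝ) : t ^ (k - 1) * N ≤ sc k N t := Nat.le_ceil _

theorem sc_one (k N : ℕ) : sc k N 1 = N := by
  unfold sc
  rw [one_pow, one_mul, Nat.ceil_natCast]

/-- **Containers in intervals**, at all densities. -/
theorem coverN (k : ℕ) (hk : 3 ≤ k) : ∃ C : ℝ, 0 < C ∧
    ∀ (N : ℕ) (t β : ℝ), 1 ≤ N → 0 < t → t ≤ 1 → t ≤ β → β ≤ Real.exp 1 * t →
      XCov β (Free (ptN k N)) (Real.exp (C * (t * (N * dn k (sc k N t)))))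
        (C * (N * dn k (sc k N t))) := by
  obtain ⟨C₀, hC₀, h0⟩ := coverN0 k hk
  refine ⟨9 * C₀ + 4, by positivity, ?_⟩
  intro N t β hN ht0 ht1 htβ hβt
  have hN0 : (0 : ℝ) < N := by exact_mod_cast hN
  set m := sc k N t with hm
  have hm1 : 1 ≤ m := sc_pos hN ht0
  have hm0 : (0 : ℝ) < m := by exact_mod_cast hm1
  have hD : 0 < dn k m := dn_pos (by omega) hm1
  set x : ℝ := (t ^ (k - 1))⁻¹ with hx
  have ht' : 0 < t ^ (k - 1) := by positivity
  have hx1 : 1 ≤ x := (one_le_inv₀ ht').2 (pow_le_one₀ ht0.le ht1)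
  obtain ⟨n, hn1, hn2⟩ := exists_nat_pow_near hx1 (one_lt_two (α := ℝ))
  have hxt : x * t ^ (k - 1) = 1 := inv_mul_cancel₀ ht'.ne'
  have hmlt : (m : ℝ) < t ^ (k - 1) * N + 1 := Nat.ceil_lt_add_one (by positivity)
  have htn : t ^ (k - 1) * (2 : ℝ) ^ n ≤ 1 := by
    calc t ^ (k - 1) * (2 : ℝ) ^ n ≤ t ^ (k - 1) * x := by gcongr
      _ = 1 := by rw [mul_comm]; exact hxt
  by_cases hb : 2 ^ (n + 2) ≤ N
  · have hbt : 1 ≤ (2 : ℝ) ^ (n + 2 - 1) * t ^ (k - 1) := by
      rw [show n + 2 - 1 = n + 1 by omega, ← hxt]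
      gcongr
    have h1 := h0 N (n + 2) t β (by omega) hb ht0 ht1 htβ hβt hbt
    set m₀ := N / 2 ^ (n + 2) with hm₀
    have hm₀1 : 1 ≤ m₀ := (Nat.one_le_div_iff (by positivity)).2 hb
    have hm₀0 : (0 : ℝ) < m₀ := by exact_mod_cast hm₀1
    have hN1 : m₀ * 2 ^ (n + 2) ≤ N := Nat.div_mul_le_self _ _
    have hN2 : N ≤ 2 * (m₀ * 2 ^ (n + 2)) := by
      have h2 : N < m₀ * 2 ^ (n + 2) + 2 ^ (n + 2) :=
        Nat.lt_div_mul_add (a := N) (b := 2 ^ (n + 2)) (by positivity)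
      have h3 : 1 * 2 ^ (n + 2) ≤ m₀ * 2 ^ (n + 2) := Nat.mul_le_mul_right _ hm₀1
      omega
    have hN1' : (m₀ : ℝ) * 2 ^ (n + 2) ≤ N := by exact_mod_cast hN1
    have hN2' : (N : ℝ) ≤ 2 * (m₀ * 2 ^ (n + 2)) := by exact_mod_cast hN2
    have hmm : m₀ ≤ m := by
      have h2 : (m₀ : ℝ) ≤ t ^ (k - 1) * N := by
        calc (m₀ : ℝ) = 1 * m₀ := (one_mul _).symm
          _ ≤ ((2 : ℝ) ^ (n + 2) * t ^ (k - 1)) * m₀ := by
            refine mul_le_mul_of_nonneg_right (hbt.trans ?_) hm₀0.le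
            gcongr
            · norm_num
            · omega
          _ = t ^ (k - 1) * (m₀ * 2 ^ (n + 2)) := by ring
          _ ≤ _ := by gcongr
      have h3 : (m₀ : ℝ) ≤ m := h2.trans (le_sc k N t)
      exact_mod_cast h3
    have hm9 : (m : ℝ) ≤ 9 * m₀ := by
      have h2 : t ^ (k - 1) * N ≤ 8 * m₀ := by
        calc t ^ (k - 1) * N ≤ t ^ (k - 1) * (2 * (m₀ * 2 ^ (n + 2))) := by gcongr
          _ = 8 * m₀ * (t ^ (k - 1) * 2 ^ n) := by rw [pow_add]; ring
          _ ≤ 8 * m₀ * 1 := by gcongr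
          _ = _ := mul_one _
      have h3 : (1 : ℝ) ≤ m₀ := by exact_mod_cast hm₀1
      linarith
    have hdn : dn k m₀ ≤ 9 * dn k m := by
      refine (dn_le (by omega) hm₀1 hmm).trans ?_
      refine mul_le_mul_of_nonneg_right ?_ hD.le
      rwa [div_le_iff₀ hm₀0]
    have h2 : (N : ℝ) * dn k m₀ ≤ N * (9 * dn k m) := by gcongr
    refine h1.mono (Real.exp_le_exp.2 ?_) ?_
    · calc C₀ * (t * (N * dn k m₀)) ≤ C₀ * (t * (N * (9 * dn k m))) := by gcongr
        _ = 9 * C₀ * (t * (N * dn k m)) := by ring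
        _ ≤ (9 * C₀ + 4) * (t * (N * dn k m)) := by
          have : 0 < t * (N * dn k m) := by positivity
          nlinarith
    · calc C₀ * (N * dn k m₀) ≤ C₀ * (N * (9 * dn k m)) := by gcongr
        _ = 9 * C₀ * (N * dn k m) := by ring
        _ ≤ (9 * C₀ + 4) * (N * dn k m) := by
          have : 0 < N * dn k m := by positivity
          nlinarith
  · have hb' : (N : ℝ) < (2 : ℝ) ^ (n + 2) := by exact_mod_cast not_le.1 hb
    have h2 : t ^ (k - 1) * N < 4 := by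
      calc t ^ (k - 1) * N < t ^ (k - 1) * (2 : ℝ) ^ (n + 2) := by gcongr
        _ = 4 * (t ^ (k - 1) * 2 ^ n) := by rw [pow_add]; ring
        _ ≤ 4 * 1 := by gcongr
        _ = 4 := mul_one _
    have h3 : m ≤ 4 := by
      rw [hm]
      unfold sc
      rw [Nat.ceil_le]
      push_cast
      linarith
    have h4 : 1 / 4 ≤ dn k m := by
      refine le_trans ?_ (dn_ge (by omega) hm1)
      have h5 : (m : ℝ) ≤ 4 := by exact_mod_cast h3
      exact one_div_le_one_div_of_le hm0 h5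
    refine (XCov.trivial β (Free (ptN k N))).mono (Real.one_le_exp (by positivity)) ?_
    rw [Fintype.card_fin]
    have h5 : (N : ℝ) ≤ 4 * (N * dn k m) := by
      have h6 : (N : ℝ) * (1 / 4) ≤ N * dn k m := by gcongr
      linarith
    have h6 : 0 ≤ C₀ * (N * dn k m) := by positivity
    linarith

/-- **Random subsets of intervals, upper bound.** -/
theorem tailN (k : ℕ) (hk : 3 ≤ k) : ∃ C : ℝ, 0 < C ∧
    ∀ (N : ℕ) (q : ℝ), 1 ≤ N → 0 < q → q ≤ 1 →
      Pr q (univ : Finset (Fin N))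
        (fun S => C * (q * (N * dn k (sc k N q))) ≤ alph (Free (ptN k N)) S) ≤
        Real.exp (-(q * (N * dn k (sc k N q)))) := by
  obtain ⟨C, hC, hcov⟩ := coverN k hk
  refine ⟨3 * C + 1, by positivity, ?_⟩
  intro N q hN hq0 hq1
  have h1 := hcov N q (Real.exp 1 * q) hN hq0 hq1
    (le_mul_of_one_le_left hq0.le (Real.one_le_exp (by norm_num))) le_rfl
  set μ : ℝ := N * dn k (sc k N q) with hμ
  have h2 := h1.tail hq0.le hq1 (fun t ht => notMem_empty _ (ht ⟨0, by omega⟩))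
    ((3 * C + 1) * (q * μ))
  refine h2.trans (le_of_eq ?_)
  rw [← Real.exp_add]
  congr 1
  ring

/-- **Partition function, upper bound.** -/
theorem partN (k : ℕ) (hk : 3 ≤ k) : ∃ C : ℝ, 0 < C ∧
    ∀ (N : ℕ) (β : ℝ), 1 ≤ N → 0 < β → β ≤ 1 →
      Real.log (ZZ β (Free (ptN k N)) univ) ≤ C * (β * (N * dn k (sc k N β))) := by
  obtain ⟨C, hC, hcov⟩ := coverN k hk
  refine ⟨2 * C, by positivity, ?_⟩
  intro N β hN hβ0 hβ1
  have hm1 : 1 ≤ sc k N β := sc_pos hN hβ0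
  have hD : 0 < dn k (sc k N β) := dn_pos (by omega) hm1
  have h1 := hcov N β β hN hβ0 hβ1 le_rfl
    (le_mul_of_one_le_left hβ0.le (Real.one_le_exp (by norm_num)))
  set μ : ℝ := N * dn k (sc k N β) with hμ
  have hμ0 : 0 ≤ μ := by positivity
  have h2 := h1.part hβ0.le
  have h3 : (1 + β) ^ (C * μ) ≤ Real.exp (C * (β * μ)) := by
    have h4 : 1 + β ≤ Real.exp β := by
      have := Real.add_one_le_exp β
      linarith
    calc (1 + β) ^ (C * μ) ≤ (Real.exp β) ^ (C * μ) :=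
          Real.rpow_le_rpow (by positivity) h4 (by positivity)
      _ = _ := by
          rw [← Real.exp_mul]
          congr 1
          ring
  have h0 : Free (ptN k N) ∅ := fun t ht => notMem_empty _ (ht ⟨0, by omega⟩)
  have h4 : ZZ β (Free (ptN k N)) univ ≤ Real.exp (2 * C * (β * μ)) := by
    refine h2.trans ?_
    calc _ ≤ Real.exp (C * (β * μ)) * Real.exp (C * (β * μ)) := by gcongr
      _ = _ := by
        rw [← Real.exp_add]
        congr 1
        ring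
  rw [Real.log_le_iff_le_exp (ZZ_pos hβ0 h0 univ)]
  exact h4

end

end Pool.Agent.U465.SR
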