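import Pool.Agent.U465.SR.Int5

set_option autoImplicit false

/-!
# Random subsets of intervals and the number of progression-free sets: lower bounds, typical sets
-/

open Finset

namespace Pool.Agent.U465.SR

section

open scoped Classical

/-- **Random subsets of intervals, lower bound.** -/
theorem lowerN {k : ℕ} (hk : 3 ≤ k) {N : ℕ} {q : ℝ} (hN : 1 ≤ N) (hq0 : 0 < q) (hq1 : q ≤ 1) :
    1 / 8 * (q * (N * dn k (sc k N q))) ≤
      EE q (univ : Finset (Fin N)) (fun S => (alph (Free (ptN k N)) S : ℝ)) := by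
  set m := sc k N q with hm
  have hm1 : 1 ≤ m := sc_pos hN hq0
  have hmN : m ≤ N := sc_le hq0.le hq1
  have hm0 : (0 : ℝ) < m := by exact_mod_cast hm1
  have hN0 : (0 : ℝ) < N := by exact_mod_cast hN
  set L : ℕ := N / m with hL
  have hL1 : 1 ≤ L := (Nat.one_le_div_iff (by omega)).2 hmN
  have hLm : L * m ≤ N := Nat.div_mul_le_self _ _
  have hLm2 : N ≤ 2 * (L * m) := by
    have h1 : N < L * m + m := Nat.lt_div_mul_add (a := N) (b := m) (by omega)
    have h2 : 1 * m ≤ L * m := Nat.mul_le_mul_right _ hL1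
    omega
  set l : ℕ := (L + 1) / 2 with hl
  have hl1 : 1 ≤ l := by omega
  have hlL : l ≤ L := by omega
  have hl2 : 2 * l ≤ L + 1 := by omega
  have hl3 : L ≤ 2 * l := by omega
  obtain ⟨A, hA1, hA2, hA3⟩ := exists_rN (k := k) (by omega) m
  have hBN : blow L l A ⊆ range N := (blow_sub hlL hA1).trans (range_subset_range.2 hLm)
  set B : Finset (Fin N) := univ.filter fun x => (x : ℕ) ∈ blow L l A with hB
  have hBc : B.card = A.card * l := by
    rw [← card_blow hlL, ← card_map (fN N 0)]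
    congr 1
    ext x
    rw [mem_map]
    constructor
    · rintro ⟨y, hy, rfl⟩
      rw [fN_apply, add_zero]
      exact (mem_filter.1 hy).2
    · intro hx
      have h1 := mem_range.1 (hBN hx)
      exact ⟨⟨x, h1⟩, mem_filter.2 ⟨mem_univ _, hx⟩, by rw [fN_apply, add_zero]⟩
  have hcop : ∀ t ∈ cop (ptN k N) B, ∃ a ∈ A, ∃ c₀ < l, ∃ c₁ < l, c₀ < c₁ ∧
      (t.1.1 : ℕ) = L * a + c₀ ∧ (t.1.1 : ℕ) + t.1.2 = L * a + c₁ := by
    intro t ht
    rw [mem_cop] at ht
    have h1 : ∀ j < k, (t.1.1 : ℕ) + j * t.1.2 ∈ blow L l A := by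
      intro j hj
      exact (mem_filter.1 (ht ⟨j, hj⟩)).2
    obtain ⟨a, ha, h2⟩ := blow_ap hk hl2 hA2 h1
    obtain ⟨c₀, hc₀, h3⟩ := h2 0 (by omega)
    obtain ⟨c₁, hc₁, h4⟩ := h2 1 (by omega)
    have hd := t.2.1
    refine ⟨a, ha, c₀, hc₀, c₁, hc₁, ?_, ?_, ?_⟩ <;> omega
  have hcnt : cnt (ptN k N) B ≤ A.card * (l * (l - 1)) := by
    unfold cnt
    have h1 : (A ×ˢ (range l ×ˢ range (l - 1))).card = A.card * (l * (l - 1)) := by
      rw [card_product, card_product, card_range, card_range]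
    rw [← h1]
    have hval : ∀ a c : ℕ, c < l → (L * a + c) / L = a ∧ (L * a + c) % L = c := by
      intro a c hc
      constructor
      · rw [Nat.mul_add_div (by omega), Nat.div_eq_of_lt (by omega), add_zero]
      · rw [Nat.mul_add_mod, Nat.mod_eq_of_lt (by omega)]
    refine card_le_card_of_injOn (fun t => ((t.1.1 : ℕ) / L, ((t.1.1 : ℕ) % L,
      ((t.1.1 : ℕ) + t.1.2) % L - 1))) ?_ ?_
    · intro t ht
      obtain ⟨a, ha, c₀, hc₀, c₁, hc₁, hcc, h2, h3⟩ := hcop t ht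
      rw [mem_coe, mem_product, mem_product, mem_range, mem_range]
      simp only
      rw [h3, h2, (hval a c₀ hc₀).1, (hval a c₀ hc₀).2, (hval a c₁ hc₁).2]
      exact ⟨ha, hc₀, by omega⟩
    · intro t ht t' ht' h
      obtain ⟨a, ha, c₀, hc₀, c₁, hc₁, hcc, h2, h3⟩ := hcop t ht
      obtain ⟨a', ha', c₀', hc₀', c₁', hc₁', hcc', h2', h3'⟩ := hcop t' ht'
      simp only [Prod.mk.injEq] at h
      rw [h3, h2, h3', h2', (hval a c₀ hc₀).1, (hval a c₀ hc₀).2, (hval a c₁ hc₁).2,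
        (hval a' c₀' hc₀').1, (hval a' c₀' hc₀').2, (hval a' c₁' hc₁').2] at h
      obtain ⟨g1, g2, g3⟩ := h
      subst g1
      subst g2
      have g4 : c₁ = c₁' := by omega
      subst g4
      refine Subtype.ext (Prod.ext (Fin.ext ?_) (Fin.ext ?_))
      · omega
      · omega
  have hlow := lower (by omega) (sysN k N) hq0.le hq1 B
  refine le_trans ?_ hlow
  rw [hBc]
  have hqm : q ^ (k - 1) * N ≤ m := le_sc k N q
  have hqk : q ^ k = q ^ (k - 1) * q := by
    rw [← pow_succ]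
    congr 1
    omega
  have hqL : q ^ (k - 1) * (2 * ((l - 1 : ℕ) : ℝ)) ≤ 1 := by
    have h1 : (2 * ((l - 1 : ℕ) : ℝ)) ≤ L := by
      have h0 : 2 * (l - 1) ≤ L := by omega
      exact_mod_cast h0
    have h2 : q ^ (k - 1) * (L : ℝ) * m ≤ 1 * m := by
      calc q ^ (k - 1) * (L : ℝ) * m = q ^ (k - 1) * (L * m) := by ring
        _ ≤ q ^ (k - 1) * N := by
          have h3 : (L : ℝ) * m ≤ N := by exact_mod_cast hLm
          gcongr
        _ ≤ 1 * m := by rw [one_mul]; exact hqm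
    have h3 : q ^ (k - 1) * (L : ℝ) ≤ 1 := le_of_mul_le_mul_right h2 hm0
    calc q ^ (k - 1) * (2 * ((l - 1 : ℕ) : ℝ)) ≤ q ^ (k - 1) * L := by gcongr
      _ ≤ 1 := h3
  have hr0 : (0 : ℝ) ≤ A.card := Nat.cast_nonneg _
  have hl0 : (0 : ℝ) ≤ l := Nat.cast_nonneg _
  have h1 : q ^ k * (cnt (ptN k N) B : ℝ) ≤ 1 / 2 * (q * (A.card * l)) := by
    have h2 : (cnt (ptN k N) B : ℝ) ≤ A.card * (l * ((l - 1 : ℕ) : ℝ)) := by
      exact_mod_cast hcnt
    have h3 : q ^ k * (cnt (ptN k N) B : ℝ) ≤ q ^ k * (A.card * (l * ((l - 1 : ℕ) : ℝ))) :=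
      mul_le_mul_of_nonneg_left h2 (by positivity)
    have h4 : q ^ k * (A.card * (l * ((l - 1 : ℕ) : ℝ))) =
        1 / 2 * (q * (A.card * l)) * (q ^ (k - 1) * (2 * ((l - 1 : ℕ) : ℝ))) := by
      rw [hqk]
      ring
    rw [h4] at h3
    refine h3.trans ?_
    exact mul_le_of_le_one_right (by positivity) hqL
  have h2 : 1 / 8 * (q * (N * dn k m)) ≤ 1 / 2 * (q * (A.card * l)) := by
    have h3 : (N : ℝ) ≤ 4 * (l * m) := by
      have h4 : N ≤ 4 * (l * m) := by
        calc N ≤ 2 * (L * m) := hLm2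
          _ ≤ 2 * ((2 * l) * m) := by gcongr
          _ = _ := by ring
      exact_mod_cast h4
    have h5 : (N : ℝ) * dn k m ≤ 4 * (A.card * l) := by
      unfold dn
      rw [hA3, mul_div_assoc', div_le_iff₀ hm0]
      have h6 : (0 : ℝ) ≤ rN k m := Nat.cast_nonneg _
      calc (N : ℝ) * rN k m ≤ (4 * (l * m)) * rN k m := by gcongr
        _ = _ := by ring
    calc 1 / 8 * (q * (N * dn k m)) ≤ 1 / 8 * (q * (4 * (A.card * l))) := by gcongr
      _ = _ := by ring
  push_cast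
  linarith

/-- **The order of magnitude at all densities.** -/
theorem orderN (k : ℕ) (hk : 3 ≤ k) : ∃ C : ℝ, 0 < C ∧
    ∀ (N : ℕ) (q : ℝ), 1 ≤ N → 0 < q → q ≤ 1 → ∀ μ : ℝ, μ = q * (N * dn k (sc k N q)) →
      1 / 8 * μ ≤ EE q (univ : Finset (Fin N)) (fun S => (alph (Free (ptN k N)) S : ℝ)) ∧
      EE q (univ : Finset (Fin N)) (fun S => (alph (Free (ptN k N)) S : ℝ)) ≤ C * μ ∧
      Pr q (univ : Finset (Fin N)) (fun S => C * μ ≤ alph (Free (ptN k N)) S) ≤ Real.exp (-μ) ∧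
      Real.log 2 / 8 * μ ≤ Real.log (ZZ q (Free (ptN k N)) univ) ∧
      Real.log (ZZ q (Free (ptN k N)) univ) ≤ C * μ := by
  obtain ⟨C₁, hC₁, h1⟩ := tailN k hk
  obtain ⟨C₂, hC₂, h2⟩ := partN k hk
  have hlog2 : 0 < Real.log 2 := Real.log_pos (by norm_num)
  refine ⟨C₁ + C₂ / Real.log 2 + C₂, by positivity, ?_⟩
  intro N q hN hq0 hq1 μ hμ
  have g1 := h1 N q hN hq0 hq1
  have g2 := h2 N q hN hq0 hq1
  have g3 := lowerN hk hN hq0 hq1
  rw [← hμ] at g1 g2 g3
  have hμ0 : 0 ≤ μ := by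
    rw [hμ]
    have := dn_pos (k := k) (by omega) (sc_pos (k := k) hN hq0)
    positivity
  have hpl := part_lower (X := Fin N) hq0.le hq1 (P := Free (ptN k N))
    (fun t ht => notMem_empty _ (ht ⟨0, by omega⟩)) (fun I J h hI => hI.mono h)
  have h3 : 0 < C₂ / Real.log 2 := by positivity
  refine ⟨g3, ?_, ?_, ?_, ?_⟩
  · have h4 := hpl.trans g2
    rw [mul_comm, ← le_div_iff₀ hlog2] at h4
    refine h4.trans ?_
    have h5 : C₂ * μ / Real.log 2 = C₂ / Real.log 2 * μ := by ring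
    rw [h5]
    exact mul_le_mul_of_nonneg_right (by linarith) hμ0
  · refine le_trans (Pr_mono hq0.le hq1 fun S _ hS => le_trans ?_ hS) g1
    exact mul_le_mul_of_nonneg_right (by linarith) hμ0
  · refine le_trans ?_ hpl
    calc Real.log 2 / 8 * μ = Real.log 2 * (1 / 8 * μ) := by ring
      _ ≤ _ := by gcongr
  · exact g2.trans (mul_le_mul_of_nonneg_right (by linarith) hμ0)

/-- **Typical progression-free sets.** -/
theorem typicalN (k : ℕ) (hk : 3 ≤ k) : ∃ ε : ℝ, 0 < ε ∧ ∀ N : ℕ, 1 ≤ N →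
      (((univ : Finset (Fin N)).powerset.filter (fun A => Free (ptN k N) A ∧
        (A.card : ℝ) < ε * rN k N)).card : ℝ) * (2 : ℝ) ^ ((rN k N : ℝ) / 2) ≤
      (((univ : Finset (Fin N)).powerset.filter (Free (ptN k N))).card : ℝ) := by
  obtain ⟨C, hC, h1⟩ := partN k hk
  have hk3 : (3 : ℝ) ≤ k := by exact_mod_cast hk
  have hk1 : (0 : ℝ) < (k : ℝ) - 1 := by linarith
  have hkc : ((k - 1 : ℕ) : ℝ) = (k : ℝ) - 1 := by
    rw [Nat.cast_sub (by omega), Nat.cast_one]
  set η : ℝ := 1 / (2 * ((k : ℝ) - 1)) with hη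
  have hη0 : 0 < η := by positivity
  obtain ⟨K, hK1, hK⟩ := dn_scale hk hη0
  have hl2 : 0 < Real.log 2 := Real.log_pos (by norm_num)
  set s : ℝ := min 1 (Real.log 2 / 4 / (C * K)) with hs
  have hs0 : 0 < s := by positivity
  have hs1 : s ≤ 1 := min_le_left _ _
  set β : ℝ := s ^ 2 with hβ
  have hβ0 : 0 < β := by positivity
  have hβ1 : β ≤ 1 := pow_le_one₀ hs0.le hs1
  have hlogβ : 0 ≤ -Real.log β := by
    have := Real.log_nonpos hβ0.le hβ1
    linarith
  set ε : ℝ := Real.log 2 / 4 / (-Real.log β + 1) with hε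
  have hε0 : 0 < ε := by positivity
  refine ⟨ε, hε0, fun N hN => ?_⟩
  have hN0 : (0 : ℝ) < N := by exact_mod_cast hN
  set r : ℝ := (rN k N : ℝ) with hr
  have hr0 : 0 ≤ r := Nat.cast_nonneg _
  set F := (univ : Finset (Fin N)).powerset.filter (fun A => Free (ptN k N) A ∧
        (A.card : ℝ) < ε * r) with hF
  have h0 : Free (ptN k N) ∅ := fun t ht => notMem_empty _ (ht ⟨0, by omega⟩)
  have hmono : ∀ I J : Finset (Fin N), J ⊆ I → Free (ptN k N) I →
      Free (ptN k N) J := fun I J h hI => hI.mono h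
  have hlow : (2 : ℝ) ^ r ≤
      (((univ : Finset (Fin N)).powerset.filter (Free (ptN k N))).card : ℝ) := by
    rw [card_eq_ZZ]
    have h1 := ZZ_lower (β := 1) zero_le_one h0 hmono (univ : Finset (Fin N))
    rw [hr, Real.rpow_natCast]
    norm_num at h1
    exact h1
  refine le_trans ?_ hlow
  have h2r : (2 : ℝ) ^ r = (2 : ℝ) ^ (r / 2) * (2 : ℝ) ^ (r / 2) := by
    rw [← Real.rpow_add (by norm_num)]
    congr 1
    ring
  rw [h2r]
  refine mul_le_mul_of_nonneg_right ?_ (by positivity)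
  have hm1 : 1 ≤ sc k N β := sc_pos hN hβ0
  have hmN : sc k N β ≤ N := sc_le hβ0.le hβ1
  have hm0 : (0 : ℝ) < sc k N β := by exact_mod_cast hm1
  have h2 := hK _ _ hm1 hmN
  have h3 : ((N : ℝ) / sc k N β) ^ η ≤ s⁻¹ := by
    have h4 : (N : ℝ) / sc k N β ≤ (β ^ (k - 1))⁻¹ := by
      rw [div_le_iff₀ hm0, inv_mul_eq_div, le_div_iff₀ (by positivity)]
      have := le_sc k N β
      linarith
    calc ((N : ℝ) / sc k N β) ^ η ≤ ((β ^ (k - 1))⁻¹) ^ η :=
          Real.rpow_le_rpow (by positivity) h4 hη0.le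
      _ = s⁻¹ := by
        rw [hβ, ← pow_mul, Real.inv_rpow (by positivity), ← Real.rpow_natCast, ← Real.rpow_mul hs0.le]
        push_cast
        rw [hkc, hη]
        have h5 : 2 * ((k : ℝ) - 1) * (1 / (2 * ((k : ℝ) - 1))) = 1 := by field_simp
        rw [h5, Real.rpow_one]
  have hD0 : 0 < dn k N := dn_pos (by omega) hN
  have hrN : r = N * dn k N := by
    unfold dn
    rw [hr]
    field_simp
  have h6 : Real.log (ZZ β (Free (ptN k N)) univ) ≤ Real.log 2 / 4 * r := by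
    refine (h1 N β hN hβ0 hβ1).trans ?_
    have h7 : dn k (sc k N β) ≤ K * s⁻¹ * dn k N := by
      refine h2.trans ?_
      gcongr
    have h8 : C * K * s ≤ Real.log 2 / 4 := by
      calc C * K * s ≤ C * K * (Real.log 2 / 4 / (C * K)) := by
            gcongr
            exact min_le_right _ _
        _ = _ := by field_simp
    calc C * (β * (N * dn k (sc k N β))) ≤ C * (β * (N * (K * s⁻¹ * dn k N))) := by gcongr
      _ = C * K * s * r := by
        rw [hrN, hβ]
        field_simp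
      _ ≤ _ := by gcongr
  have hZ := ZZ_pos hβ0 h0 (univ : Finset (Fin N))
  have h7 : (F.card : ℝ) * β ^ (ε * r) ≤ ZZ β (Free (ptN k N)) univ := by
    unfold ZZ
    rw [← nsmul_eq_mul, ← sum_const]
    refine le_trans (sum_le_sum (g := fun I => β ^ I.card) fun I hI => ?_)
      (sum_le_sum_of_subset_of_nonneg (fun I hI => ?_) fun _ _ _ => by positivity)
    · rw [hF, mem_filter] at hI
      rw [← Real.rpow_natCast]
      exact Real.rpow_le_rpow_of_exponent_ge hβ0 hβ1 hI.2.2.le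
    · rw [hF, mem_filter] at hI
      rw [mem_filter]
      exact ⟨hI.1, hI.2.1⟩
  have h8 : β ^ (ε * r) = Real.exp (-(ε * r * (-Real.log β))) := by
    rw [Real.rpow_def_of_pos hβ0]
    congr 1
    ring
  have h9 : ZZ β (Free (ptN k N)) univ ≤ Real.exp (Real.log 2 / 4 * r) := by
    rw [← Real.log_le_iff_le_exp hZ]
    exact h6
  rw [h8, Real.exp_neg, ← div_eq_mul_inv, div_le_iff₀ (Real.exp_pos _)] at h7
  refine h7.trans ?_
  calc ZZ β (Free (ptN k N)) univ * Real.exp (ε * r * (-Real.log β))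
      ≤ Real.exp (Real.log 2 / 4 * r) * Real.exp (Real.log 2 / 4 * r) := by
        refine mul_le_mul h9 (Real.exp_le_exp.2 ?_) (Real.exp_pos _).le (Real.exp_pos _).le
        have h10 : ε * (-Real.log β) ≤ Real.log 2 / 4 := by
          have h11 : 0 < -Real.log β + 1 := by linarith
          calc ε * (-Real.log β) ≤ Real.log 2 / 4 / (-Real.log β + 1) * (-Real.log β + 1) := by
                gcongr
                linarith
            _ = _ := div_mul_cancel₀ _ h11.ne'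
        calc ε * r * (-Real.log β) = ε * (-Real.log β) * r := by ring
          _ ≤ _ := by gcongr
    _ = (2 : ℝ) ^ (r / 2) := by
        rw [← Real.exp_add, Real.rpow_def_of_pos (by norm_num)]
        congr 1
        ring

end

end Pool.Agent.U465.SR
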