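import Pool.Agent.U465.SR.Phase

set_option autoImplicit false

/-!
# Random subsets of `L ^ n` of density `p ^ (-τ n)`: the exponent as a function of `τ`
-/

open Finset Filter Topology

namespace Pool.Agent.U465.SR

section

open scoped Classical

variable {p : ℕ} [hp : Fact p.Prime] {L : Type} [AddCommGroup L] [Module (ZMod p) L] [Fintype L]
  {k : ℕ}

theorem tendsto_pow_neg {x : ℝ} (hx : 1 < x) {δ : ℝ} (hδ : 0 < δ) :
    Tendsto (fun n : ℕ => x ^ (-(δ * n))) atTop (nhds 0) := by
  have h1 : Tendsto (fun n : ℕ => (x ^ (-δ)) ^ n) atTop (nhds 0) :=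
    tendsto_pow_atTop_nhds_zero_of_lt_one (by positivity)
      (Real.rpow_lt_one_of_one_lt_of_neg hx (by linarith))
  refine h1.congr fun n => ?_
  rw [← Real.rpow_natCast, ← Real.rpow_mul (by linarith)]
  congr 1
  ring

theorem eventually_le_pow {x : ℝ} (hx : 1 < x) {δ : ℝ} (hδ : 0 < δ) (C : ℝ) :
    ∀ᶠ n : ℕ in atTop, C ≤ x ^ (δ * n) := by
  have h1 : 0 < max C 1 := by positivity
  have h2 := (tendsto_pow_neg hx hδ).eventually (gt_mem_nhds (inv_pos.2 h1))
  refine h2.mono fun n hn => ?_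
  rw [Real.rpow_neg (by linarith)] at hn
  have h3 := (inv_lt_inv₀ (by positivity) h1).1 hn
  exact (le_max_left _ _).trans h3.le

/-- The value of the main term. -/
theorem main_term {x B ρ τ : ℝ} (hx : 1 < x) (hB : 0 < B) (hρ : 0 < ρ) (n : ℕ) (κ : ℝ) :
    x ^ (-(τ * n)) * B ^ n * (ρ / B) ^ ((n : ℝ) + κ * Real.logb x (x ^ (-(τ * n)))) =
      x ^ ((Real.logb x B - τ - Real.logb x (B / ρ) * (1 - κ * τ)) * n) := by
  have hx0 : 0 < x := by linarith
  have h1 : B ^ n = x ^ (Real.logb x B * n) := by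
    rw [Real.rpow_mul hx0.le, Real.rpow_logb hx0 hx.ne' hB, Real.rpow_natCast]
  have h2 : ρ / B = x ^ (-Real.logb x (B / ρ)) := by
    rw [← Real.logb_inv, inv_div, Real.rpow_logb hx0 hx.ne' (by positivity)]
  rw [Real.logb_rpow hx0 hx.ne', h1, h2, ← Real.rpow_mul hx0.le, ← Real.rpow_add hx0,
    ← Real.rpow_add hx0]
  congr 1
  ring

/-- **The exponent of the largest configuration-free subset of a random set.** -/
theorem lim (a : Fin k → L) (ha : Function.Injective a) (hk : 3 ≤ k) (hL : p ≤ Fintype.card L)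
    (Λ : ℝ) (hΛ1 : 1 < Λ) (hΛL : Λ ≤ Fintype.card L)
    (hΛp : (Fintype.card L : ℝ) < Λ * (p : ℝ) ^ (1 / ((k : ℝ) - 1)))
    (hr : ∀ m, (rr p a m : ℝ) ≤ Λ ^ m)
    (hr' : ∀ ρ : ℝ, 1 ≤ ρ → ρ < Λ → ∃ n₀ : ℕ, ∀ n ≥ n₀, ρ ^ n ≤ (rr p a n : ℝ))
    (τ : ℝ) (hτ0 : 0 ≤ τ) (hτ : τ < Real.logb p (Fintype.card L)) (ε : ℝ) (hε : 0 < ε) :
    Tendsto (fun n : ℕ => Pr ((p : ℝ) ^ (-(τ * n))) (univ : Finset (Fin n → L)) (fun S =>
      (p : ℝ) ^ ((Real.logb p (Fintype.card L) - τ - Real.logb p (Fintype.card L / Λ) *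
        max 0 (1 - (k - 1) * τ) - ε) * n) ≤ alph (Free (ptv (p := p) a n)) S ∧
      (alph (Free (ptv (p := p) a n)) S : ℝ) ≤
        (p : ℝ) ^ ((Real.logb p (Fintype.card L) - τ - Real.logb p (Fintype.card L / Λ) *
        max 0 (1 - (k - 1) * τ) + ε) * n))) atTop (nhds 1) := by
  set B : ℝ := (Fintype.card L : ℝ) with hB
  have hp0 : (0 : ℝ) < p := by exact_mod_cast hp.out.pos
  have hp1 : (1 : ℝ) < p := by exact_mod_cast hp.out.one_lt
  have hk3 : (3 : ℝ) ≤ k := by exact_mod_cast hk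
  have hk1 : (0 : ℝ) < (k : ℝ) - 1 := by linarith
  have hk2 : ((k - 1 : ℕ) : ℝ) = (k : ℝ) - 1 := by
    rw [Nat.cast_sub (by omega), Nat.cast_one]
  have hΛ0 : 0 < Λ := by linarith
  have hB0 : 0 < B := by linarith
  have hpB : (p : ℝ) ≤ B := by rw [hB]; exact_mod_cast hL
  set s : ℝ := Real.logb p B with hs
  have hs1 : 1 ≤ s := by
    rw [hs, Real.le_logb_iff_rpow_le hp1 hB0, Real.rpow_one]
    exact hpB
  set c : ℝ := Real.logb p (B / Λ) with hc
  have hcs : c = s - Real.logb p Λ := by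
    rw [hc, hs, Real.logb_div hB0.ne' hΛ0.ne']
  have hlΛ : 0 < Real.logb p Λ := Real.logb_pos hp1 hΛ1
  set E : ℝ := s - τ - c * max 0 (1 - (k - 1) * τ) with hE
  have hE0 : 0 < E := by
    rw [hE]
    rcases le_total 0 (1 - ((k : ℝ) - 1) * τ) with h1 | h1
    · rw [max_eq_right h1, hcs]
      have h2 : s - τ - (s - Real.logb p Λ) * (1 - ((k : ℝ) - 1) * τ) =
          (1 - ((k : ℝ) - 1) * τ) * Real.logb p Λ + τ * (((k : ℝ) - 1) * s - 1) := by ring
      rw [h2]
      rcases hτ0.eq_or_lt with h3 | h3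
      · rw [← h3]
        simp only [mul_zero, sub_zero, one_mul, zero_mul, add_zero]
        exact hlΛ
      · have h4 : 0 < ((k : ℝ) - 1) * s - 1 := by nlinarith
        have h5 := mul_pos h3 h4
        have h6 := mul_nonneg h1 hlΛ.le
        linarith
    · rw [max_eq_left h1, mul_zero, sub_zero]
      linarith
  have hq0 : ∀ n : ℕ, 0 < (p : ℝ) ^ (-(τ * n)) := fun n => by positivity
  have hq1 : ∀ n : ℕ, (p : ℝ) ^ (-(τ * n)) ≤ 1 := fun n =>
    Real.rpow_le_one_of_one_le_of_nonpos hp1.le (by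
      rw [neg_nonpos]
      positivity)
  have hX : ∀ n : ℕ, ((univ : Finset (Fin n → L)).card : ℝ) = B ^ n := by
    intro n
    rw [card_univ, Fintype.card_fun, Fintype.card_fin, Nat.cast_pow]
  have hBn : ∀ n : ℕ, B ^ n = (p : ℝ) ^ (s * n) := by
    intro n
    rw [hs, Real.rpow_mul hp0.le, Real.rpow_logb hp0 hp1.ne' hB0, Real.rpow_natCast]
  have hfree : ∀ n : ℕ, Free (ptv (p := p) a n) ∅ :=
    fun n t ht => notMem_empty _ (ht ⟨0, by omega⟩)
  have hmono : ∀ (n : ℕ) (I J : Finset (Fin n → L)), J ⊆ I → Free (ptv (p := p) a n) I →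
      Free (ptv (p := p) a n) J := fun n I J h hI => hI.mono h
  have hregime : 0 ≤ 1 - ((k : ℝ) - 1) * τ → ∀ n : ℕ,
      (p : ℝ) ^ (-((n : ℝ) / ((k : ℝ) - 1))) ≤ (p : ℝ) ^ (-(τ * n)) := by
    intro h1 n
    refine Real.rpow_le_rpow_of_exponent_le hp1.le (neg_le_neg ?_)
    rw [le_div_iff₀ hk1]
    have : (0 : ℝ) ≤ n := Nat.cast_nonneg n
    nlinarith
  -- the upper tail
  have hU : ∀ ε : ℝ, 0 < ε → Tendsto (fun n : ℕ => Pr ((p : ℝ) ^ (-(τ * n)))
      (univ : Finset (Fin n → L)) (fun S => (p : ℝ) ^ ((E + ε) * n) <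
        (alph (Free (ptv (p := p) a n)) S : ℝ))) atTop (nhds 0) := by
    intro ε hε
    rcases le_total 0 (1 - ((k : ℝ) - 1) * τ) with h1 | h1
    · obtain ⟨C, hC, hup⟩ := upR a ha (by omega) hL Λ hΛ1.le hΛL hΛp hr
      have hμ : ∀ n : ℕ, (p : ℝ) ^ (-(τ * n)) * B ^ n *
          (Λ / B) ^ ((n : ℝ) + ((k : ℝ) - 1) * Real.logb p ((p : ℝ) ^ (-(τ * n)))) =
          (p : ℝ) ^ (E * n) := by
        intro n
        rw [main_term hp1 hB0 hΛ0, hE, max_eq_right h1]
      have h2 : Tendsto (fun n : ℕ => Real.exp (-((p : ℝ) ^ (E * n)))) atTop (nhds 0) := by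
        refine Real.tendsto_exp_atBot.comp (tendsto_neg_atTop_atBot.comp ?_)
        exact tendsto_atTop.2 fun b => eventually_le_pow hp1 hE0 b
      refine squeeze_zero' (Eventually.of_forall fun n => Pr_nonneg (hq0 n).le (hq1 n) _ _) ?_ h2
      filter_upwards [eventually_le_pow hp1 hε C] with n hn
      have h3 := hup n _ (hregime h1 n) (hq1 n)
      rw [hμ n] at h3
      refine le_trans (Pr_mono (hq0 n).le (hq1 n) fun S _ hS => ?_) h3
      refine le_trans ?_ hS.le
      rw [add_mul, Real.rpow_add hp0, mul_comm]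
      gcongr
    · have h2 : ∀ n : ℕ, Pr ((p : ℝ) ^ (-(τ * n))) (univ : Finset (Fin n → L))
          (fun S => (p : ℝ) ^ ((E + ε) * n) < (alph (Free (ptv (p := p) a n)) S : ℝ)) ≤
          (p : ℝ) ^ (-(ε * n)) := by
        intro n
        refine le_trans (Pr_mono (hq0 n).le (hq1 n) fun S _ hS => hS.le) ?_
        refine (markov_alph (hq0 n).le (hq1 n) _ _ _ (by positivity)).trans (le_of_eq ?_)
        rw [hX, hBn, ← Real.rpow_add hp0, ← Real.rpow_sub hp0, hE, max_eq_left h1]
        congr 1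
        ring
      exact squeeze_zero (fun n => Pr_nonneg (hq0 n).le (hq1 n) _ _) h2 (tendsto_pow_neg hp1 hε)
  -- the lower tail
  have hD : ∀ ε : ℝ, 0 < ε → ε < E → Tendsto (fun n : ℕ => Pr ((p : ℝ) ^ (-(τ * n)))
      (univ : Finset (Fin n → L)) (fun S => (alph (Free (ptv (p := p) a n)) S : ℝ) <
        (p : ℝ) ^ ((E - ε) * n))) atTop (nhds 0) := by
    intro ε hε hεE
    have hmean : ∀ᶠ n : ℕ in atTop, 2 * (p : ℝ) ^ ((E - ε) * n) ≤
        EE ((p : ℝ) ^ (-(τ * n))) (univ : Finset (Fin n → L))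
          (fun S => (alph (Free (ptv (p := p) a n)) S : ℝ)) := by
      rcases le_total 0 (1 - ((k : ℝ) - 1) * τ) with h1 | h1
      · set ρ : ℝ := max 1 (Λ * (p : ℝ) ^ (-(ε / 2))) with hρ
        have hρ1 : 1 ≤ ρ := le_max_left _ _
        have hρ0 : 0 < ρ := by linarith
        have hρΛ : ρ < Λ := by
          rw [hρ, max_lt_iff]
          refine ⟨hΛ1, ?_⟩
          have h2 : (p : ℝ) ^ (-(ε / 2)) < 1 :=
            Real.rpow_lt_one_of_one_lt_of_neg hp1 (by linarith)
          nlinarith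
        obtain ⟨c', hc', hlo⟩ := loR a ha (by omega) ρ hρ1 (hρΛ.le.trans hΛL) (hr' ρ hρ1 hρΛ)
        have hcρ : Real.logb p (B / ρ) ≤ c + ε / 2 := by
          have h2 : B / ρ ≤ B / (Λ * (p : ℝ) ^ (-(ε / 2))) := by
            gcongr
            exact le_max_right _ _
          have h3 : B / (Λ * (p : ℝ) ^ (-(ε / 2))) = (B / Λ) * (p : ℝ) ^ (ε / 2) := by
            rw [Real.rpow_neg hp0.le]
            field_simp
          rw [h3] at h2
          refine (Real.logb_le_logb_of_le hp1 (by positivity) h2).trans (le_of_eq ?_)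
          rw [Real.logb_mul (by positivity) (by positivity), Real.logb_rpow hp0 hp1.ne', hc]
        filter_upwards [eventually_le_pow hp1 (half_pos hε) (2 / c')] with n hn
        refine le_trans ?_ (hlo n _ (hregime h1 n) (hq1 n))
        rw [main_term hp1 hB0 hρ0]
        have h2 : (E - ε / 2) * (n : ℝ) ≤
            (Real.logb p B - τ - Real.logb p (B / ρ) * (1 - ((k : ℝ) - 1) * τ)) * n := by
          refine mul_le_mul_of_nonneg_right ?_ (Nat.cast_nonneg n)
          rw [hE, max_eq_right h1]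
          have h3 : 1 - ((k : ℝ) - 1) * τ ≤ 1 := by nlinarith
          nlinarith [mul_le_mul_of_nonneg_right hcρ h1]
        have h3 : 2 * (p : ℝ) ^ ((E - ε) * n) ≤ c' * (p : ℝ) ^ ((E - ε / 2) * n) := by
          have h4 : (p : ℝ) ^ ((E - ε / 2) * n) = (p : ℝ) ^ (ε / 2 * n) * (p : ℝ) ^ ((E - ε) * n) := by
            rw [← Real.rpow_add hp0]
            congr 1
            ring
          rw [h4, ← mul_assoc]
          refine mul_le_mul_of_nonneg_right ?_ (by positivity)
          rw [div_le_iff₀ hc'] at hn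
          linarith
        exact h3.trans (mul_le_mul_of_nonneg_left
          (Real.rpow_le_rpow_of_exponent_le hp1.le h2) hc'.le)
      · -- above the threshold
        rcases h1.eq_or_lt with h1e | h1l
        · -- the critical value of `τ`: use the lower bound with `ρ = 1`
          obtain ⟨c', hc', hlo⟩ := loR a ha (by omega) 1 le_rfl (by linarith) (hr' 1 le_rfl hΛ1)
          filter_upwards [eventually_le_pow hp1 hε (2 / c')] with n hn
          refine le_trans ?_ (hlo n _ (hregime h1e.ge n) (hq1 n))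
          rw [main_term hp1 hB0 one_pos, h1e, mul_zero, sub_zero]
          have h4 : (p : ℝ) ^ ((Real.logb p B - τ) * n) =
              (p : ℝ) ^ (ε * n) * (p : ℝ) ^ ((E - ε) * n) := by
            rw [← Real.rpow_add hp0, hE, max_eq_left h1]
            congr 1
            ring
          rw [h4, ← mul_assoc]
          refine mul_le_mul_of_nonneg_right ?_ (by positivity)
          rw [div_le_iff₀ hc'] at hn
          linarith
        · have h2 : 0 < ((k : ℝ) - 1) * τ - 1 := by linarith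
          filter_upwards [eventually_le_pow hp1 hε 4, eventually_le_pow hp1 h2 2] with n hn hn2
          have h3 := lower (by omega) (sysv (p := p) ha n) (hq0 n).le (hq1 n)
            (univ : Finset (Fin n → L))
          refine le_trans ?_ h3
          have h4 : (cnt (ptv (p := p) a n) univ : ℝ) ≤ B ^ n * (p : ℝ) ^ n := by
            have h5 : cnt (ptv (p := p) a n) univ ≤
                Fintype.card {z : (Fin n → L) × (Fin n → ZMod p) // z.2 ≠ 0} := card_le_univ _
            have h6 := h5.trans (Fintype.card_subtype_le _)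
            rw [Fintype.card_prod, Fintype.card_fun, Fintype.card_fun, Fintype.card_fin,
              ZMod.card] at h6
            have h7 : (cnt (ptv (p := p) a n) univ : ℝ) ≤ (Fintype.card L : ℝ) ^ n * (p : ℝ) ^ n := by
              exact_mod_cast h6
            exact h7
          rw [hX]
          set q : ℝ := (p : ℝ) ^ (-(τ * n)) with hq
          have h7 : q ^ k = q * q ^ (k - 1) := by
            rw [← pow_succ']
            congr 1
            omega
          have h8 : q ^ (k - 1) * (p : ℝ) ^ n ≤ 1 / 2 := by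
            have h9 : q ^ (k - 1) * (p : ℝ) ^ n = ((p : ℝ) ^ ((((k : ℝ) - 1) * τ - 1) * n))⁻¹ := by
              rw [hq, ← Real.rpow_natCast, ← Real.rpow_mul hp0.le, hk2, ← Real.rpow_natCast,
                ← Real.rpow_add hp0, ← Real.rpow_neg hp0.le]
              congr 1
              ring
            rw [h9, one_div]
            exact inv_anti₀ (by norm_num) hn2
          have h9 : q ^ k * (cnt (ptv (p := p) a n) univ : ℝ) ≤ q * B ^ n * (1 / 2) := by
            calc q ^ k * (cnt (ptv (p := p) a n) univ : ℝ) ≤ q ^ k * (B ^ n * (p : ℝ) ^ n) := by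
                  gcongr
              _ = q * B ^ n * (q ^ (k - 1) * (p : ℝ) ^ n) := by
                  rw [h7]
                  ring
              _ ≤ _ := by gcongr
          have h10 : q * B ^ n = (p : ℝ) ^ (ε * n) * (p : ℝ) ^ ((E - ε) * n) := by
            rw [hq, hBn, ← Real.rpow_add hp0, ← Real.rpow_add hp0, hE, max_eq_left h1]
            congr 1
            ring
          have h11 : 4 * (p : ℝ) ^ ((E - ε) * n) ≤ q * B ^ n := by
            rw [h10]
            gcongr
          linarith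
    have h2 : Tendsto (fun n : ℕ => 2 * (p : ℝ) ^ (-((E - ε) * n))) atTop (nhds 0) := by
      have := (tendsto_pow_neg hp1 (sub_pos.2 hεE)).const_mul 2
      rwa [mul_zero] at this
    refine squeeze_zero' (Eventually.of_forall fun n => Pr_nonneg (hq0 n).le (hq1 n) _ _) ?_ h2
    filter_upwards [hmean] with n hn
    refine (low_alph (hq0 n).le (hq1 n) (hfree n) (hmono n) _ _ (by positivity) hn).trans
      (le_of_eq ?_)
    rw [Real.rpow_neg hp0.le, div_eq_mul_inv]
  -- conclusion
  set ε' : ℝ := min ε (E / 2) with hε'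
  have hε'0 : 0 < ε' := by positivity
  have hε'E : ε' < E := lt_of_le_of_lt (min_le_right _ _) (by linarith)
  have h1 := ((hD ε' hε'0 hε'E).const_sub 1).sub (hU ε hε)
  rw [sub_zero, sub_zero] at h1
  refine tendsto_of_tendsto_of_tendsto_of_le_of_le h1 tendsto_const_nhds (fun n => ?_)
    (fun n => Pr_le_one (hq0 n).le (hq1 n) _ _)
  refine Pr_two (hq0 n).le (hq1 n) _ _ _ _ fun S _ => ?_
  by_cases h2 : (alph (Free (ptv (p := p) a n)) S : ℝ) < (p : ℝ) ^ ((E - ε') * n)
  · exact Or.inr (Or.inl h2)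
  · by_cases h3 : (p : ℝ) ^ ((E + ε) * n) < (alph (Free (ptv (p := p) a n)) S : ℝ)
    · exact Or.inr (Or.inr h3)
    · left
      refine ⟨le_trans ?_ (not_lt.1 h2), not_lt.1 h3⟩
      refine Real.rpow_le_rpow_of_exponent_le hp1.le
        (mul_le_mul_of_nonneg_right ?_ (Nat.cast_nonneg n))
      have := min_le_left ε (E / 2)
      linarith

end

end Pool.Agent.U465.SR
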