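import Pool.Agent.U465.SR.Cont
import Pool.Agent.U465.SR.Bern

set_option autoImplicit false

/-!
# Largest configuration-free subsets of random sets
-/

open Finset

namespace Pool.Agent.U465.SR

open Pool.Agent.Y940.CT (RCov)

section

open scoped Classical

/-- **Upper bound** for the largest configuration-free subset of a random set. -/
theorem upper (k : ℕ) (hk : 2 ≤ k) : ∃ A₀ : ℝ, 0 < A₀ ∧
    ∀ {X T : Type} [Fintype X] [Fintype T] (pt : T → Fin k → X), Sys pt →
    ∀ (M τ : ℕ → ℝ) (d : ℕ → ℕ) (q ζ : ℝ) (J : ℕ), 0 < q → q ≤ 1 → 0 < ζ → ζ ≤ 1 →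
      (∀ j < J, 1 ≤ d j ∧ 0 < τ j ∧ τ j ≤ q ∧ 1 ≤ d j * τ j ^ (k - 1) ∧ 1 ≤ M j * τ j ∧
        ∀ W : Finset X, M j / 2 ≤ W.card → (d j : ℝ) * W.card ≤ cnt pt W) →
      (Fintype.card X : ℝ) ≤ M J → ∀ l : ℝ,
      Pr q (univ : Finset X) (fun S => l ≤ alph (Free pt) S) ≤
        Real.exp (A₀ / ζ * ∑ j ∈ range J, M (j + 1) * (q ^ ζ * τ j ^ (1 - ζ)) +
          2 * q * M 0 - l) := by
  obtain ⟨A₀, hA₀, hchain⟩ := chain k hk
  refine ⟨A₀ * Real.exp 1, by positivity, ?_⟩
  intro X T _ _ pt h M τ d q ζ J hq0 hq1 hζ hζ1 hj hJ l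
  have hk0 : 0 < k := by omega
  set f : X ↪ ℕ := (Fintype.equivFin X).toEmbedding.trans Fin.valEmbedding with hf
  set V₀ : Finset ℕ := univ.map f with hV₀
  set pt' : T → Fin k → ℕ := fun t j => f (pt t j) with hpt'
  have h' : Sys pt' := ⟨fun t => f.injective.comp (h.inj t), fun t t' i j hij h1 h2 =>
    h.det t t' i j hij (f.injective h1) (f.injective h2)⟩
  have hback : ∀ W ⊆ V₀, ∃ W' : Finset X, W'.map f = W := by
    intro W hW
    obtain ⟨W', _, h2⟩ := subset_map_iff.1 hW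
    exact ⟨W', h2.symm⟩
  have hcnt : ∀ W : Finset X, cnt pt' (W.map f) = cnt pt W := by
    intro W
    unfold cnt
    congr 1
    ext t
    rw [mem_cop, mem_cop]
    simp only [hpt', mem_map' f]
  have hexp1 : (1 : ℝ) ≤ Real.exp 1 := Real.one_le_exp (by norm_num)
  obtain ⟨ι, s, T', C', h1, h2, h3⟩ := hchain pt' h' V₀ M τ d (Real.exp 1 * q) ζ J hζ hζ1
    (fun j hjJ => by
      obtain ⟨g1, g2, g3, g4, g5, g6⟩ := hj j hjJ
      refine ⟨g1, g2, g3.trans hq1, g4, g3.trans (le_mul_of_one_le_left hq0.le hexp1), g5, ?_⟩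
      intro W hW hWc
      obtain ⟨W', rfl⟩ := hback W hW
      rw [hcnt, card_map] at *
      exact g6 W' hWc)
    (by positivity) V₀ (Subset.refl _) (by rw [hV₀, card_map, card_univ]; exact hJ)
  have h4 := tail (X := X) (q := q) hq0.le hq1 (P := Free pt) (V := univ) s
    (fun i => univ.filter fun x => f x ∈ T' i) (fun i => univ.filter fun x => f x ∈ C' i)
    (n := Real.exp (A₀ / ζ * ∑ j ∈ range J, M (j + 1) * ((Real.exp 1 * q) ^ ζ * τ j ^ (1 - ζ))))
    (γ := M 0) ?_ ?_ ?_ l ?_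
  · refine h4.trans ?_
    rw [← Real.exp_add]
    refine Real.exp_le_exp.2 ?_
    have h5 : A₀ / ζ * ∑ j ∈ range J, M (j + 1) * ((Real.exp 1 * q) ^ ζ * τ j ^ (1 - ζ)) ≤
        A₀ * Real.exp 1 / ζ * ∑ j ∈ range J, M (j + 1) * (q ^ ζ * τ j ^ (1 - ζ)) := by
      have h6 : ∀ j, M (j + 1) * ((Real.exp 1 * q) ^ ζ * τ j ^ (1 - ζ)) =
          Real.exp 1 ^ ζ * (M (j + 1) * (q ^ ζ * τ j ^ (1 - ζ))) := by
        intro j
        rw [Real.mul_rpow (Real.exp_pos 1).le hq0.le]
        ring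
      simp only [h6]
      rw [← mul_sum]
      have h7 : Real.exp 1 ^ ζ ≤ Real.exp 1 := by
        calc Real.exp 1 ^ ζ ≤ Real.exp 1 ^ (1 : ℝ) :=
              Real.rpow_le_rpow_of_exponent_le hexp1 hζ1
          _ = _ := Real.rpow_one _
      have h8 : 0 ≤ ∑ j ∈ range J, M (j + 1) * (q ^ ζ * τ j ^ (1 - ζ)) := by
        refine sum_nonneg fun j hjJ => ?_
        rw [mem_range] at hjJ
        have h9 : 0 ≤ M (j + 1) := by
          by_cases h10 : j + 1 < J
          · obtain ⟨_, g2, _, _, g5, _⟩ := hj (j + 1) h10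
            by_contra h11
            push Not at h11
            nlinarith
          · have h11 : j + 1 = J := by omega
            rw [h11]
            exact le_trans (Nat.cast_nonneg _) hJ
        obtain ⟨_, g2, _⟩ := hj j hjJ
        positivity
      calc A₀ / ζ * (Real.exp 1 ^ ζ * ∑ j ∈ range J, M (j + 1) * (q ^ ζ * τ j ^ (1 - ζ)))
          ≤ A₀ / ζ * (Real.exp 1 * ∑ j ∈ range J, M (j + 1) * (q ^ ζ * τ j ^ (1 - ζ))) := by
            gcongr
        _ = _ := by ring
    linarith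
  · refine le_trans (le_of_eq ?_) h1
    refine sum_congr rfl fun i hi => ?_
    obtain ⟨_, g2, _⟩ := h2 i hi
    rw [empty_union] at g2
    obtain ⟨W', hW'⟩ := hback (T' i) g2
    rw [sdiff_empty, ← hW', card_map]
    congr 2
    ext x
    simp
  · intro i hi
    obtain ⟨_, g2, g3, g4, g5⟩ := h2 i hi
    refine ⟨subset_univ _, subset_univ _, ?_, ?_⟩
    · rw [disjoint_left]
      intro x hx hx'
      rw [mem_filter] at hx hx'
      exact disjoint_left.1 g4 hx.2 hx'.2
    · obtain ⟨W', hW'⟩ := hback (C' i) g3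
      rw [← hW', card_map] at g5
      refine le_trans (le_of_eq ?_) g5
      congr 2
      ext x
      rw [← hW']
      simp
  · intro I _ hI
    have h5 : Free pt' (I.map f) := by
      intro t ht
      refine hI t fun j => ?_
      have := ht j
      rwa [hpt', mem_map' f] at this
    obtain ⟨i, hi, g1, g2⟩ := h3 (I.map f) (empty_subset _)
      ⟨map_subset_map.2 (subset_univ _), h5⟩
    refine ⟨i, hi, ?_, ?_⟩
    · intro x hx
      rw [mem_filter] at hx
      exact (mem_map' f).1 (g1 hx.2)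
    · intro x hx
      rcases mem_union.1 (g2 ((mem_map' f).2 hx)) with h | h
      · exact mem_union_left _ (mem_filter.2 ⟨mem_univ _, h⟩)
      · exact mem_union_right _ (mem_filter.2 ⟨mem_univ _, h⟩)
  · intro t ht
    exact notMem_empty _ (ht ⟨0, hk0⟩)

/-- **Lower bound** by deletion: the mean of the largest configuration-free subset of a random set is
at least `q |B| - q ^ k cnt (B)` for every set `B`. -/
theorem lower {k : ℕ} (hk : 0 < k) {X T : Type} [Fintype X] [Fintype T] {pt : T → Fin k → X}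
    (h : Sys pt) {q : ℝ} (hq0 : 0 ≤ q) (hq1 : q ≤ 1) (B : Finset X) :
    q * B.card - q ^ k * cnt pt B ≤
      EE q (univ : Finset X) (fun S => (alph (Free pt) S : ℝ)) := by
  have h1 : ∀ S : Finset X, ((S ∩ B).card : ℝ) -
      ∑ t ∈ cop pt B, (if univ.image (pt t) ⊆ S then (1 : ℝ) else 0) ≤ alph (Free pt) S := by
    intro S
    have h2 : Free pt ((S ∩ B) \ (cop pt (S ∩ B)).image fun t => pt t ⟨0, hk⟩) := by
      intro t ht
      have h3 : t ∈ cop pt (S ∩ B) := mem_cop.2 fun j => (mem_sdiff.1 (ht j)).1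
      exact (mem_sdiff.1 (ht ⟨0, hk⟩)).2 (mem_image_of_mem _ h3)
    have h3 := card_le_alph (sdiff_subset.trans inter_subset_left) h2
    have h4 : (S ∩ B).card ≤ ((S ∩ B) \ (cop pt (S ∩ B)).image fun t => pt t ⟨0, hk⟩).card +
        (cop pt (S ∩ B)).card := by
      have h5 := card_sdiff_add_card (s := S ∩ B) (t := (cop pt (S ∩ B)).image fun t => pt t ⟨0, hk⟩)
      have h6 := card_image_le (s := cop pt (S ∩ B)) (f := fun t => pt t ⟨0, hk⟩)
      have h7 := card_le_card (subset_union_left (s₁ := S ∩ B)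
        (s₂ := (cop pt (S ∩ B)).image fun t => pt t ⟨0, hk⟩))
      omega
    have h5 : ((cop pt (S ∩ B)).card : ℝ) ≤
        ∑ t ∈ cop pt B, (if univ.image (pt t) ⊆ S then (1 : ℝ) else 0) := by
      rw [← Finset.sum_filter, sum_const, nsmul_eq_mul, mul_one]
      refine Nat.cast_le.2 (card_le_card fun t ht => ?_)
      rw [mem_cop] at ht
      rw [mem_filter, mem_cop]
      refine ⟨fun j => mem_of_mem_inter_right (ht j), ?_⟩
      intro x hx
      obtain ⟨j, _, rfl⟩ := mem_image.1 hx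
      exact mem_of_mem_inter_left (ht j)
    have h6 : ((S ∩ B).card : ℝ) ≤
        ((S ∩ B) \ (cop pt (S ∩ B)).image fun t => pt t ⟨0, hk⟩).card +
        (cop pt (S ∩ B)).card := by exact_mod_cast h4
    have h7 : (((S ∩ B) \ (cop pt (S ∩ B)).image fun t => pt t ⟨0, hk⟩).card : ℝ) ≤
      alph (Free pt) S := by exact_mod_cast h3
    linarith
  have h2 := EE_mono (q := q) hq0 hq1 (V := (univ : Finset X)) (fun S _ => h1 S)
  rw [EE_sub, EE_sum, EE_card _ _ (subset_univ B)] at h2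
  refine le_trans (le_of_eq ?_) h2
  have h3 : ∀ t ∈ cop pt B, EE q (univ : Finset X)
      (fun S => if univ.image (pt t) ⊆ S then (1 : ℝ) else 0) = q ^ k := by
    intro t _
    rw [EE_subset (subset_univ _), card_image_of_injective _ (h.inj t), card_univ,
      Fintype.card_fin]
  rw [sum_congr rfl h3, sum_const, nsmul_eq_mul]
  unfold cnt
  ring

end

end Pool.Agent.U465.SR
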