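import Pool.Agent.U465.SR.Phase

set_option autoImplicit false

/-!
# Containers, partition functions and random subsets for systems of configurations
-/

open Finset

namespace Pool.Agent.U465.SR

open Pool.Agent.Y940.CT (RCov)

section

open scoped Classical

/-- The sets with property `P` have containers `(T, C)`, `T ⊆ I ⊆ T ∪ C`, with fingerprints `T` of
total weight at most `n` and `|C| ≤ γ`. -/
def XCov {X : Type} (β : ℝ) (P : Finset X → Prop) (n γ : ℝ) : Prop :=
  ∃ (ι : Type) (s : Finset ι) (T C : ι → Finset X),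
    (∑ i ∈ s, β ^ (T i).card ≤ n) ∧ (∀ i ∈ s, Disjoint (T i) (C i) ∧ ((C i).card : ℝ) ≤ γ) ∧
    ∀ I, P I → ∃ i ∈ s, T i ⊆ I ∧ I ⊆ T i ∪ C i

theorem XCov.mono {X : Type} {β : ℝ} {P : Finset X → Prop} {n n' γ γ' : ℝ} (h : XCov β P n γ)
    (hn : n ≤ n') (hγ : γ ≤ γ') : XCov β P n' γ' := by
  obtain ⟨ι, s, T, C, h1, h2, h3⟩ := h
  exact ⟨ι, s, T, C, h1.trans hn, fun i hi => ⟨(h2 i hi).1, (h2 i hi).2.trans hγ⟩, h3⟩

/-- **Containers** for the configuration-free sets. -/
theorem cover (k : ℕ) (hk : 2 ≤ k) : ∃ A₀ : ℝ, 0 < A₀ ∧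
    ∀ {X T : Type} [Fintype X] [Fintype T] (pt : T → Fin k → X), Sys pt →
    ∀ (M τ : ℕ → ℝ) (d : ℕ → ℕ) (β ζ : ℝ) (J : ℕ), 0 < β → 0 < ζ → ζ ≤ 1 →
      (∀ j < J, 1 ≤ d j ∧ 0 < τ j ∧ τ j ≤ 1 ∧ τ j ≤ β ∧ 1 ≤ d j * τ j ^ (k - 1) ∧ 1 ≤ M j * τ j ∧
        ∀ W : Finset X, M j / 2 ≤ W.card → (d j : ℝ) * W.card ≤ cnt pt W) →
      (Fintype.card X : ℝ) ≤ M J →
      XCov β (Free pt)
        (Real.exp (A₀ / ζ * ∑ j ∈ range J, M (j + 1) * (β ^ ζ * τ j ^ (1 - ζ)))) (M 0) := by
  obtain ⟨A₀, hA₀, hchain⟩ := chain k hk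
  refine ⟨A₀, hA₀, ?_⟩
  intro X T _ _ pt h M τ d β ζ J hβ0 hζ hζ1 hj hJ
  set f : X ↪ ℕ := (Fintype.equivFin X).toEmbedding.trans Fin.valEmbedding with hf
  set V₀ : Finset ℕ := univ.map f with hV₀
  set pt' : T → Fin k → ℕ := fun t j => f (pt t j) with hpt'
  have h' : Sys pt' := ⟨fun t => f.injective.comp (h.inj t), fun t t' i j hij h1 h2 =>
    h.det t t' i j hij (f.injective h1) (f.injective h2)⟩
  have hback : ∀ W ⊆ V₀, ∃ W' : Finset X, W'.map f = W := by
    intro W hW
    obtain ⟨W', _, h2⟩ := subset_map_iff.1 hW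
    exact ⟨W', h2.symm⟩
  have hcnt : ∀ W : Finset X, cnt pt' (W.map f) = cnt pt W := by
    intro W
    unfold cnt
    congr 1
    ext t
    rw [mem_cop, mem_cop]
    simp only [hpt', mem_map' f]
  obtain ⟨ι, s, T', C', h1, h2, h3⟩ := hchain pt' h' V₀ M τ d β ζ J hζ hζ1
    (fun j hjJ => by
      obtain ⟨g1, g2, g3, g3', g4, g5, g6⟩ := hj j hjJ
      refine ⟨g1, g2, g3, g4, g3', g5, ?_⟩
      intro W hW hWc
      obtain ⟨W', rfl⟩ := hback W hW
      rw [hcnt, card_map] at *
      exact g6 W' hWc)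
    hβ0 V₀ (Subset.refl _) (by rw [hV₀, card_map, card_univ]; exact hJ)
  refine ⟨ι, s, fun i => univ.filter fun x => f x ∈ T' i, fun i => univ.filter fun x => f x ∈ C' i,
    ?_, ?_, ?_⟩
  · refine le_trans (le_of_eq ?_) h1
    refine sum_congr rfl fun i hi => ?_
    obtain ⟨_, g2, _⟩ := h2 i hi
    rw [empty_union] at g2
    obtain ⟨W', hW'⟩ := hback (T' i) g2
    have h7 : (univ.filter fun x => f x ∈ T' i) = W' := by
      ext x
      rw [mem_filter, ← hW', mem_map' f]
      simp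
    change β ^ (univ.filter fun x => f x ∈ T' i).card = _
    rw [h7, sdiff_empty, ← hW', card_map]
  · intro i hi
    obtain ⟨_, g2, g3, g4, g5⟩ := h2 i hi
    refine ⟨?_, ?_⟩
    · rw [disjoint_left]
      intro x hx hx'
      rw [mem_filter] at hx hx'
      exact disjoint_left.1 g4 hx.2 hx'.2
    · obtain ⟨W', hW'⟩ := hback (C' i) g3
      rw [← hW', card_map] at g5
      have h7 : (univ.filter fun x => f x ∈ C' i) = W' := by
        ext x
        rw [mem_filter, ← hW', mem_map' f]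
        simp
      change ((univ.filter fun x => f x ∈ C' i).card : ℝ) ≤ M 0
      rw [h7]
      exact g5
  · intro I hI
    have h5 : Free pt' (I.map f) := by
      intro t ht
      refine hI t fun j => ?_
      have := ht j
      rwa [hpt', mem_map' f] at this
    obtain ⟨i, hi, g1, g2⟩ := h3 (I.map f) (empty_subset _)
      ⟨map_subset_map.2 (subset_univ _), h5⟩
    refine ⟨i, hi, ?_, ?_⟩
    · intro x hx
      rw [mem_filter] at hx
      exact (mem_map' f).1 (g1 hx.2)
    · intro x hx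
      rcases mem_union.1 (g2 ((mem_map' f).2 hx)) with h | h
      · exact mem_union_left _ (mem_filter.2 ⟨mem_univ _, h⟩)
      · exact mem_union_right _ (mem_filter.2 ⟨mem_univ _, h⟩)

/-- The tail bound from containers. -/
theorem XCov.tail {X : Type} [Fintype X] {q : ℝ} (hq0 : 0 ≤ q) (hq1 : q ≤ 1)
    {P : Finset X → Prop} (h0 : P ∅) {n γ : ℝ} (h : XCov (Real.exp 1 * q) P n γ) (l : ℝ) :
    Pr q (univ : Finset X) (fun S => l ≤ alph P S) ≤ n * Real.exp (2 * q * γ - l) := by
  obtain ⟨ι, s, T, C, h1, h2, h3⟩ := h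
  exact Pool.Agent.U465.SR.tail hq0 hq1 s T C h1
    (fun i hi => ⟨subset_univ _, subset_univ _, (h2 i hi).1, (h2 i hi).2⟩)
    (fun I _ hI => h3 I hI) l h0

/-- The partition function: the sum of `β ^ |I|` over the sets `I ⊆ V` with property `P`. -/
noncomputable def ZZ {X : Type} (β : ℝ) (P : Finset X → Prop) (V : Finset X) : ℝ :=
  ∑ I ∈ V.powerset.filter P, β ^ I.card

/-- The partition function from containers. -/
theorem XCov.part {X : Type} [Fintype X] {β : ℝ} (hβ : 0 ≤ β) {P : Finset X → Prop} {n γ : ℝ}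
    (h : XCov β P n γ) : ZZ β P univ ≤ n * (1 + β) ^ γ := by
  obtain ⟨ι, s, T, C, h1, h2, h3⟩ := h
  have h4 : ZZ β P univ ≤ ∑ i ∈ s, ∑ I ∈ univ.filter (fun I : Finset X =>
      T i ⊆ I ∧ I ⊆ T i ∪ C i), β ^ I.card := by
    unfold ZZ
    have h5 : ∀ i ∈ s, (∑ I ∈ univ.filter (fun I : Finset X => T i ⊆ I ∧ I ⊆ T i ∪ C i),
        β ^ I.card) = ∑ I : Finset X, if T i ⊆ I ∧ I ⊆ T i ∪ C i then β ^ I.card else 0 :=
      fun i _ => sum_filter _ _
    rw [sum_congr rfl h5, sum_comm, powerset_univ, sum_filter]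
    refine sum_le_sum fun I _ => ?_
    have h6 : ∀ i ∈ s, 0 ≤ if T i ⊆ I ∧ I ⊆ T i ∪ C i then β ^ I.card else 0 := by
      intro i _
      split_ifs <;> positivity
    split_ifs with hI
    · obtain ⟨i, hi, g⟩ := h3 I hI
      refine le_trans ?_ (single_le_sum h6 hi)
      rw [if_pos g]
    · exact sum_nonneg h6
  have h5 : ∀ i ∈ s, (∑ I ∈ univ.filter (fun I : Finset X => T i ⊆ I ∧ I ⊆ T i ∪ C i),
      β ^ I.card) ≤ β ^ (T i).card * (1 + β) ^ γ := by
    intro i hi
    obtain ⟨g1, g2⟩ := h2 i hi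
    have h6 : (∑ I ∈ univ.filter (fun I : Finset X => T i ⊆ I ∧ I ⊆ T i ∪ C i), β ^ I.card) =
        ∑ J ∈ (C i).powerset, β ^ (T i).card * β ^ J.card := by
      refine sum_nbij' (fun I => I \ T i) (fun J => T i ∪ J) ?_ ?_ ?_ ?_ ?_
      · intro I hI
        rw [mem_filter] at hI
        rw [mem_powerset]
        intro x hx
        rw [mem_sdiff] at hx
        exact (mem_union.1 (hI.2.2 hx.1)).resolve_left hx.2
      · intro J hJ
        rw [mem_powerset] at hJ
        rw [mem_filter]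
        exact ⟨mem_univ _, subset_union_left, union_subset_union_right hJ⟩
      · intro I hI
        rw [mem_filter] at hI
        exact union_sdiff_of_subset hI.2.1
      · intro J hJ
        rw [mem_powerset] at hJ
        rw [union_sdiff_left]
        exact sdiff_eq_self_of_disjoint (disjoint_of_subset_left hJ g1.symm)
      · intro I hI
        rw [mem_filter] at hI
        rw [← pow_add, add_comm, card_sdiff_add_card_eq_card hI.2.1]
    rw [h6, ← mul_sum]
    refine mul_le_mul_of_nonneg_left ?_ (by positivity)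
    have h7 := Finset.sum_pow_mul_eq_add_pow β 1 (C i)
    simp only [one_pow, mul_one] at h7
    rw [h7, add_comm, ← Real.rpow_natCast]
    exact Real.rpow_le_rpow_of_exponent_le (by linarith) g2
  refine h4.trans ((sum_le_sum h5).trans ?_)
  rw [← sum_mul]
  exact mul_le_mul_of_nonneg_right h1 (by positivity)

/-- Lower bound for the partition function from the mean of `alph`. -/
theorem part_lower {X : Type} [Fintype X] {q : ℝ} (hq0 : 0 ≤ q) (hq1 : q ≤ 1)
    {P : Finset X → Prop} (h0 : P ∅) (hP : ∀ I J : Finset X, J ⊆ I → P I → P J) :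
    Real.log 2 * EE q (univ : Finset X) (fun S => (alph P S : ℝ)) ≤ Real.log (ZZ q P univ) := by
  have h1 : EE q (univ : Finset X) (fun S => ZZ 1 P S) = ZZ q P univ := by
    unfold ZZ
    have h2 : ∀ S ∈ (univ : Finset X).powerset, q ^ S.card * (1 - q) ^ ((univ : Finset X).card - S.card) *
        ∑ I ∈ S.powerset.filter P, (1 : ℝ) ^ I.card =
        q ^ S.card * (1 - q) ^ ((univ : Finset X).card - S.card) *
          ∑ I ∈ univ.powerset.filter P, if I ⊆ S then (1 : ℝ) else 0 := by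
      intro S _
      congr 1
      rw [← sum_filter, filter_filter]
      refine sum_congr ?_ fun I _ => by rw [one_pow]
      ext I
      simp only [mem_filter, mem_powerset, subset_univ, true_and]
      tauto
    unfold EE
    rw [sum_congr rfl h2]
    have h3 := EE_sum (q := q) (univ : Finset X) (univ.powerset.filter P)
      (fun I S => if I ⊆ S then (1 : ℝ) else 0)
    unfold EE at h3
    rw [h3]
    refine sum_congr rfl fun I _ => ?_
    exact EE_subset (subset_univ I)
  have h2 : ∀ S : Finset X, (2 : ℝ) ^ (alph P S : ℝ) ≤ ZZ 1 P S := by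
    intro S
    obtain ⟨I, hIS, hPI, hI⟩ := exists_alph h0 S
    unfold ZZ
    simp only [one_pow, sum_const, nsmul_eq_mul, mul_one]
    rw [Real.rpow_natCast, ← hI, ← Nat.cast_ofNat, ← Nat.cast_pow, Nat.cast_le, ← card_powerset]
    refine card_le_card fun J hJ => ?_
    rw [mem_powerset] at hJ
    rw [mem_filter, mem_powerset]
    exact ⟨hJ.trans hIS, hP I J hJ hPI⟩
  -- Jensen
  have h3 : Real.exp (Real.log 2 * EE q (univ : Finset X) (fun S => (alph P S : ℝ))) ≤
      ZZ q P univ := by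
    rw [← h1]
    set m := EE q (univ : Finset X) (fun S => (alph P S : ℝ)) with hm
    have h4 : ∀ S : Finset X, Real.exp (Real.log 2 * m) *
        (1 + Real.log 2 * ((alph P S : ℝ) - m)) ≤ ZZ 1 P S := by
      intro S
      refine le_trans ?_ (h2 S)
      have h5 : (2 : ℝ) ^ (alph P S : ℝ) =
          Real.exp (Real.log 2 * m) * Real.exp (Real.log 2 * ((alph P S : ℝ) - m)) := by
        rw [← Real.exp_add, Real.rpow_def_of_pos (by norm_num)]
        congr 1
        ring
      rw [h5]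
      refine mul_le_mul_of_nonneg_left ?_ (Real.exp_pos _).le
      have := Real.add_one_le_exp (Real.log 2 * ((alph P S : ℝ) - m))
      linarith
    have h5 := EE_mono (q := q) hq0 hq1 (V := (univ : Finset X)) (fun S _ => h4 S)
    refine le_trans (le_of_eq ?_) h5
    rw [EE_mul, EE_add, EE_mul, EE_sub, EE_const, EE_const, ← hm]
    ring
  have h4 : 0 < ZZ q P univ := lt_of_lt_of_le (Real.exp_pos _) h3
  rw [← Real.log_exp (Real.log 2 * _)]
  exact Real.log_le_log (Real.exp_pos _) h3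

end

end Pool.Agent.U465.SR
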