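import Pool.Agent.U465.SR.Vec2

set_option autoImplicit false

/-!
# Random subsets of `L ^ n` of density `p ^ (-τ n)`: the exponent as a function of `τ`
-/

open Finset

namespace Pool.Agent.U465.SR

section

open scoped Classical

theorem Pr_nonneg {X : Type} {q : ℝ} (hq0 : 0 ≤ q) (hq1 : q ≤ 1) (V : Finset X)
    (E : Finset X → Prop) : 0 ≤ Pr q V E :=
  EE_nonneg hq0 hq1 fun S _ => by split_ifs <;> norm_num

theorem Pr_le_one {X : Type} {q : ℝ} (hq0 : 0 ≤ q) (hq1 : q ≤ 1) (V : Finset X)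
    (E : Finset X → Prop) : Pr q V E ≤ 1 := by
  rw [← EE_one (q := q) V]
  exact EE_mono hq0 hq1 fun S _ => by split_ifs <;> norm_num

theorem Pr_two {X : Type} {q : ℝ} (hq0 : 0 ≤ q) (hq1 : q ≤ 1) (V : Finset X)
    (E F G : Finset X → Prop) (h : ∀ S ⊆ V, E S ∨ F S ∨ G S) :
    1 - Pr q V F - Pr q V G ≤ Pr q V E := by
  have h1 : (1 : ℝ) ≤ Pr q V E + Pr q V F + Pr q V G := by
    unfold Pr
    rw [← EE_add, ← EE_add]
    refine le_trans (EE_one (q := q) V).ge (EE_mono hq0 hq1 fun S hS => ?_)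
    rcases h S hS with h2 | h2 | h2
    · rw [if_pos h2]
      split_ifs <;> norm_num
    · rw [if_pos h2]
      split_ifs <;> norm_num
    · rw [if_pos h2]
      split_ifs <;> norm_num
  linarith

/-- If the mean is large then small values are unlikely. -/
theorem low_alph {X : Type} {q : ℝ} (hq0 : 0 ≤ q) (hq1 : q ≤ 1) {P : Finset X → Prop} (h0 : P ∅)
    (hP : ∀ I J : Finset X, J ⊆ I → P I → P J) (V : Finset X) (t : ℝ) (ht : 0 < t)
    (hm : 2 * t ≤ EE q V (fun S => (alph P S : ℝ))) :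
    Pr q V (fun S => (alph P S : ℝ) < t) ≤ 2 / t := by
  set m := EE q V (fun S => (alph P S : ℝ)) with hmd
  have hm0 : 0 < m := by linarith
  have h1 := cheb_alph hq0 hq1 h0 hP V (m / 2) (by linarith)
  rw [← hmd] at h1
  have h2 : Pr q V (fun S => (alph P S : ℝ) < t) ≤
      Pr q V (fun S => m / 2 ≤ |(alph P S : ℝ) - m|) := by
    refine Pr_mono hq0 hq1 fun S _ hS => ?_
    rw [abs_sub_comm]
    refine le_trans ?_ (le_abs_self _)
    linarith
  refine h2.trans (h1.trans ?_)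
  rw [div_le_div_iff₀ (by positivity) ht]
  nlinarith

/-- Markov's inequality. -/
theorem markov_alph {X : Type} {q : ℝ} (hq0 : 0 ≤ q) (hq1 : q ≤ 1) (P : Finset X → Prop)
    (V : Finset X) (t : ℝ) (ht : 0 < t) :
    Pr q V (fun S => t ≤ alph P S) ≤ q * V.card / t := by
  rw [le_div_iff₀ ht, mul_comm, Pr, ← EE_mul, ← EE_card V V (Subset.refl V)]
  refine EE_mono hq0 hq1 fun S hS => ?_
  have h1 : (alph P S : ℝ) ≤ (S ∩ V).card := by
    rw [inter_eq_left.2 hS]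
    exact_mod_cast alph_le_card S
  split_ifs with h
  · linarith
  · rw [mul_zero]
    exact Nat.cast_nonneg _

variable {p : ℕ} [hp : Fact p.Prime] {L : Type} [AddCommGroup L] [Module (ZMod p) L] [Fintype L]
  {k : ℕ}

/-- The upper bound with real exponents. -/
theorem upR (a : Fin k → L) (ha : Function.Injective a) (hk : 2 ≤ k) (hL : p ≤ Fintype.card L)
    (Λ : ℝ) (hΛ1 : 1 ≤ Λ) (hΛL : Λ ≤ Fintype.card L)
    (hΛp : (Fintype.card L : ℝ) < Λ * (p : ℝ) ^ (1 / ((k : ℝ) - 1)))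
    (hr : ∀ m, (rr p a m : ℝ) ≤ Λ ^ m) :
    ∃ C : ℝ, 0 < C ∧ ∀ (n : ℕ) (q : ℝ), (p : ℝ) ^ (-((n : ℝ) / ((k : ℝ) - 1))) ≤ q → q ≤ 1 →
      Pr q (univ : Finset (Fin n → L))
        (fun S => C * (q * (Fintype.card L : ℝ) ^ n *
          (Λ / Fintype.card L) ^ ((n : ℝ) + ((k : ℝ) - 1) * Real.logb p q)) ≤
          alph (Free (ptv (p := p) a n)) S) ≤
        Real.exp (-(q * (Fintype.card L : ℝ) ^ n *
          (Λ / Fintype.card L) ^ ((n : ℝ) + ((k : ℝ) - 1) * Real.logb p q))) := by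
  obtain ⟨C, hC, hup⟩ := upV a ha hk hL Λ hΛ1 hΛL hΛp hr
  set B : ℝ := (Fintype.card L : ℝ) with hB
  have hp0 : (0 : ℝ) < p := by exact_mod_cast hp.out.pos
  have hp1 : (1 : ℝ) < p := by exact_mod_cast hp.out.one_lt
  have hk1 : (0 : ℝ) < (k : ℝ) - 1 := by
    have : (2 : ℝ) ≤ k := by exact_mod_cast hk
    linarith
  have hk2 : ((k - 1 : ℕ) : ℝ) = (k : ℝ) - 1 := by
    rw [Nat.cast_sub (by omega), Nat.cast_one]
  have hΛ0 : 0 < Λ := by linarith
  have hB0 : 0 < B := by linarith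
  have hx0 : 0 < Λ / B := by positivity
  have hx1 : Λ / B ≤ 1 := by rwa [div_le_one hB0]
  refine ⟨C * (B / Λ), by positivity, ?_⟩
  intro n q hq hq1
  have hq0 : 0 < q := lt_of_lt_of_le (Real.rpow_pos_of_pos hp0 _) hq
  set w : ℝ := -((k : ℝ) - 1) * Real.logb p q with hw
  have hw0 : 0 ≤ w := by
    rw [hw, neg_mul, neg_nonneg]
    exact mul_nonpos_of_nonneg_of_nonpos hk1.le (Real.logb_nonpos hp1 hq0.le hq1)
  have hwn : w ≤ n := by
    have h1 : -((n : ℝ) / ((k : ℝ) - 1)) ≤ Real.logb p q := by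
      rw [Real.le_logb_iff_rpow_le hp1 hq0]
      exact hq
    have h2 : (n : ℝ) = ((k : ℝ) - 1) * (n / ((k : ℝ) - 1)) := by field_simp
    rw [hw, h2]
    nlinarith
  have hq2 : q ^ (k - 1) = (p : ℝ) ^ (-w) := by
    rw [hw, neg_mul, neg_neg, mul_comm, Real.rpow_mul hp0.le, Real.rpow_logb hp0 hp1.ne' hq0,
      ← hk2, Real.rpow_natCast]
  have he : (n : ℝ) + ((k : ℝ) - 1) * Real.logb p q = n - w := by
    rw [hw]
    ring
  rw [he]
  set h : ℕ := ⌈w⌉₊ with hh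
  have hhn : h ≤ n := Nat.ceil_le.2 hwn
  have hwh : w ≤ h := Nat.le_ceil w
  have hhw : (h : ℝ) ≤ w + 1 := (Nat.ceil_lt_add_one hw0).le
  have h1 := hup n h q hhn hq0 hq1 (by
    rw [hq2, ← Real.rpow_natCast, ← Real.rpow_add hp0]
    exact Real.one_le_rpow hp1.le (by linarith))
  have h2 : Λ ^ (n - h) * B ^ h = B ^ n * (Λ / B) ^ ((n : ℝ) - h) := by
    have h3 : (n : ℝ) - h = ((n - h : ℕ) : ℝ) := by rw [Nat.cast_sub hhn]
    rw [h3, Real.rpow_natCast, div_pow]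
    obtain ⟨t, rfl⟩ := Nat.exists_eq_add_of_le hhn
    rw [Nat.add_sub_cancel_left, pow_add]
    field_simp
  have h3 : (Λ / B) ^ ((n : ℝ) - w) ≤ (Λ / B) ^ ((n : ℝ) - h) :=
    Real.rpow_le_rpow_of_exponent_ge hx0 hx1 (by linarith)
  have h4 : (Λ / B) ^ ((n : ℝ) - h) ≤ (B / Λ) * (Λ / B) ^ ((n : ℝ) - w) := by
    have h5 : (B / Λ) = (Λ / B) ^ (-1 : ℝ) := by
      rw [Real.rpow_neg_one, inv_div]
    rw [h5, ← Real.rpow_add hx0]
    exact Real.rpow_le_rpow_of_exponent_ge hx0 hx1 (by linarith)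
  rw [h2] at h1
  refine le_trans ?_ (h1.trans (Real.exp_le_exp.2 (neg_le_neg ?_)))
  · refine Pr_mono hq0.le hq1 fun S _ hS => le_trans ?_ hS
    calc C * (q * (B ^ n * (Λ / B) ^ ((n : ℝ) - h)))
        ≤ C * (q * (B ^ n * ((B / Λ) * (Λ / B) ^ ((n : ℝ) - w)))) := by gcongr
      _ = _ := by ring
  · calc q * B ^ n * (Λ / B) ^ ((n : ℝ) - w) ≤ q * B ^ n * (Λ / B) ^ ((n : ℝ) - h) := by gcongr
      _ = _ := by ring

/-- The lower bound, in the form used below. -/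
theorem loV2 (a : Fin k → L) (ha : Function.Injective a) (hk : 1 ≤ k) (m h : ℕ) (q : ℝ)
    (hq0 : 0 ≤ q) (hq1 : q ≤ 1) (hh : h = 0 ∨ (p : ℝ) ^ h * q ^ (k - 1) ≤ 1 / 2) :
    1 / 2 * (q * (rr p a m * (Fintype.card L : ℝ) ^ h)) ≤
      EE q (univ : Finset (Fin (m + h) → L))
        (fun S => (alph (Free (ptv (p := p) a (m + h))) S : ℝ)) := by
  rcases hh with rfl | hh
  · have h0 : Free (ptv (p := p) a m) ∅ := fun t ht => notMem_empty _ (ht ⟨0, hk⟩)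
    obtain ⟨A, _, hA, hAc⟩ := exists_alph h0 (univ : Finset (Fin m → L))
    have h1 := lower (by omega) (sysv (p := p) ha m) hq0 hq1 A
    have h2 : cnt (ptv (p := p) a m) A = 0 := by
      unfold cnt
      rw [card_eq_zero, eq_empty_iff_forall_notMem]
      intro t ht
      exact hA t (mem_cop.1 ht)
    rw [h2, Nat.cast_zero, mul_zero, sub_zero, hAc] at h1
    refine le_trans ?_ h1
    rw [pow_zero, mul_one]
    have h3 : 0 ≤ q * (rr p a m : ℝ) := by positivity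
    change 1 / 2 * (q * (rr p a m : ℝ)) ≤ q * (rr p a m : ℝ)
    linarith
  · refine le_trans ?_ (loV a ha hk m h q hq0 hq1)
    refine mul_le_mul_of_nonneg_right ?_ (by positivity)
    linarith

/-- The lower bound with real exponents. -/
theorem loR (a : Fin k → L) (ha : Function.Injective a) (hk : 2 ≤ k) (ρ : ℝ) (hρ1 : 1 ≤ ρ)
    (hρL : ρ ≤ Fintype.card L) (hr : ∃ n₀ : ℕ, ∀ n ≥ n₀, ρ ^ n ≤ (rr p a n : ℝ)) :
    ∃ c : ℝ, 0 < c ∧ ∀ (n : ℕ) (q : ℝ), (p : ℝ) ^ (-((n : ℝ) / ((k : ℝ) - 1))) ≤ q → q ≤ 1 →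
      c * (q * (Fintype.card L : ℝ) ^ n *
        (ρ / Fintype.card L) ^ ((n : ℝ) + ((k : ℝ) - 1) * Real.logb p q)) ≤
      EE q (univ : Finset (Fin n → L))
        (fun S => (alph (Free (ptv (p := p) a n)) S : ℝ)) := by
  obtain ⟨n₀, hn₀⟩ := hr
  set B : ℝ := (Fintype.card L : ℝ) with hB
  have hp0 : (0 : ℝ) < p := by exact_mod_cast hp.out.pos
  have hp1 : (1 : ℝ) < p := by exact_mod_cast hp.out.one_lt
  have hp2 : (2 : ℝ) ≤ p := by exact_mod_cast hp.out.two_le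
  have hk1 : (0 : ℝ) < (k : ℝ) - 1 := by
    have : (2 : ℝ) ≤ k := by exact_mod_cast hk
    linarith
  have hk2 : ((k - 1 : ℕ) : ℝ) = (k : ℝ) - 1 := by
    rw [Nat.cast_sub (by omega), Nat.cast_one]
  have hρ0 : 0 < ρ := by linarith
  have hB0 : 0 < B := by linarith
  have hx0 : 0 < ρ / B := by positivity
  have hx1 : ρ / B ≤ 1 := by rwa [div_le_one hB0]
  -- `rr m ≥ c ρ ^ m`
  have hr1 : ∀ m, (ρ ^ n₀)⁻¹ * ρ ^ m ≤ (rr p a m : ℝ) := by
    intro m
    by_cases hm : n₀ ≤ m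
    · refine le_trans ?_ (hn₀ m hm)
      exact mul_le_of_le_one_left (by positivity) (inv_le_one_of_one_le₀ (one_le_pow₀ hρ1))
    · have h1 : (1 : ℝ) ≤ rr p a m := by
        have h2 : Free (ptv (p := p) a m) ({0} : Finset (Fin m → L)) := by
          intro t ht
          have h3 := (sysv (p := p) ha m).inj t (a₁ := ⟨0, by omega⟩) (a₂ := ⟨1, by omega⟩)
            (by rw [mem_singleton.1 (ht _), mem_singleton.1 (ht _)])
          simp at h3
        have h4 := card_le_alph (subset_univ _) h2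
        rw [card_singleton] at h4
        exact_mod_cast h4
      refine le_trans ?_ h1
      rw [inv_mul_le_iff₀ (by positivity), mul_one]
      exact pow_le_pow_right₀ hρ1 (by omega)
  refine ⟨1 / 2 * (ρ ^ n₀)⁻¹ * (ρ / B) ^ 2, by positivity, ?_⟩
  intro n q hq hq1
  have hq0 : 0 < q := lt_of_lt_of_le (Real.rpow_pos_of_pos hp0 _) hq
  set w : ℝ := -((k : ℝ) - 1) * Real.logb p q with hw
  have hw0 : 0 ≤ w := by
    rw [hw, neg_mul, neg_nonneg]
    exact mul_nonpos_of_nonneg_of_nonpos hk1.le (Real.logb_nonpos hp1 hq0.le hq1)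
  have hwn : w ≤ n := by
    have h1 : -((n : ℝ) / ((k : ℝ) - 1)) ≤ Real.logb p q := by
      rw [Real.le_logb_iff_rpow_le hp1 hq0]
      exact hq
    have h2 : (n : ℝ) = ((k : ℝ) - 1) * (n / ((k : ℝ) - 1)) := by field_simp
    rw [hw, h2]
    nlinarith
  have hq2 : q ^ (k - 1) = (p : ℝ) ^ (-w) := by
    rw [hw, neg_mul, neg_neg, mul_comm, Real.rpow_mul hp0.le, Real.rpow_logb hp0 hp1.ne' hq0,
      ← hk2, Real.rpow_natCast]
  have he : (n : ℝ) + ((k : ℝ) - 1) * Real.logb p q = n - w := by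
    rw [hw]
    ring
  rw [he]
  obtain ⟨h, hhn, hhw, hh⟩ : ∃ h : ℕ, h ≤ n ∧ w - 2 ≤ h ∧
      (h = 0 ∨ (p : ℝ) ^ h * q ^ (k - 1) ≤ 1 / 2) := by
    by_cases hw1 : w < 1
    · exact ⟨0, Nat.zero_le _, by push_cast; linarith, Or.inl rfl⟩
    · push Not at hw1
      have h1 : 1 ≤ ⌊w⌋₊ := by
        rw [Nat.one_le_floor_iff]
        exact hw1
      have h2 : (⌊w⌋₊ : ℝ) ≤ w := Nat.floor_le hw0
      have h3 : w < ⌊w⌋₊ + 1 := Nat.lt_floor_add_one w
      refine ⟨⌊w⌋₊ - 1, ?_, ?_, Or.inr ?_⟩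
      · have : ⌊w⌋₊ ≤ n := by exact_mod_cast h2.trans hwn
        omega
      · rw [Nat.cast_sub h1, Nat.cast_one]
        linarith
      · rw [hq2, ← Real.rpow_natCast, ← Real.rpow_add hp0, Nat.cast_sub h1, Nat.cast_one]
        calc (p : ℝ) ^ ((⌊w⌋₊ : ℝ) - 1 + -w) ≤ (p : ℝ) ^ (-1 : ℝ) :=
              Real.rpow_le_rpow_of_exponent_le hp1.le (by linarith)
          _ ≤ 1 / 2 := by
              rw [Real.rpow_neg_one, ← one_div]
              exact one_div_le_one_div_of_le (by norm_num) hp2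
  obtain ⟨m, rfl⟩ : ∃ m, n = m + h := ⟨n - h, by omega⟩
  refine le_trans ?_ (loV2 a ha (by omega) m h q hq0.le hq1 hh)
  have h1 := hr1 m
  have h2 : ρ ^ m * B ^ h = B ^ (m + h) * (ρ / B) ^ (m : ℝ) := by
    rw [Real.rpow_natCast, div_pow, pow_add]
    field_simp
  have h3 : (ρ / B) ^ (((m + h : ℕ) : ℝ) - w) * (ρ / B) ^ 2 ≤ (ρ / B) ^ (m : ℝ) := by
    rw [← Real.rpow_natCast (ρ / B) 2, ← Real.rpow_add hx0]
    refine Real.rpow_le_rpow_of_exponent_ge hx0 hx1 ?_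
    push_cast
    linarith
  calc 1 / 2 * (ρ ^ n₀)⁻¹ * (ρ / B) ^ 2 * (q * B ^ (m + h) * (ρ / B) ^ (((m + h : ℕ) : ℝ) - w))
      = 1 / 2 * (q * ((ρ ^ n₀)⁻¹ * (B ^ (m + h) *
        ((ρ / B) ^ (((m + h : ℕ) : ℝ) - w) * (ρ / B) ^ 2)))) := by ring
    _ ≤ 1 / 2 * (q * ((ρ ^ n₀)⁻¹ * (B ^ (m + h) * (ρ / B) ^ (m : ℝ)))) := by gcongr
    _ = 1 / 2 * (q * (((ρ ^ n₀)⁻¹ * ρ ^ m) * B ^ h)) := by
        rw [← h2]
        ring
    _ ≤ _ := by gcongr

end

end Pool.Agent.U465.SR
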