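import Pool.Agent.U465.SR.Link

set_option autoImplicit false

/-!
# Configurations `x + y ⊗ a_j` in the spaces `L ^ n` over a prime field

`L` is a finite vector space over `F_p` and `a_1, …, a_k ∈ L` are distinct; the configurations are
`x + y ⊗ a_j` (`j = 1, …, k`) with `x ∈ L ^ n`, `0 ≠ y ∈ F_p ^ n`. Progressions: `L = F_p`,
`a_j = j`; corners: `L = F_p ^ 2`.
-/

open Finset

namespace Pool.Agent.U465.SR

section

open scoped Classical

/-- Deletion of one point of every configuration. -/
theorem del {X T : Type} [Fintype X] [Fintype T] {k : ℕ} (hk : 0 < k) (pt : T → Fin k → X)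
    (W : Finset X) : W.card ≤ alph (Free pt) univ + cnt pt W := by
  have h2 : Free pt (W \ (cop pt W).image fun t => pt t ⟨0, hk⟩) := by
    intro t ht
    have h3 : t ∈ cop pt W := mem_cop.2 fun j => (mem_sdiff.1 (ht j)).1
    exact (mem_sdiff.1 (ht ⟨0, hk⟩)).2 (mem_image_of_mem _ h3)
  have h3 := card_le_alph (subset_univ _) h2
  have h5 := card_sdiff_add_card (s := W) (t := (cop pt W).image fun t => pt t ⟨0, hk⟩)
  have h6 := card_image_le (s := cop pt W) (f := fun t => pt t ⟨0, hk⟩)
  have h7 := card_le_card (subset_union_left (s₁ := W)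
    (s₂ := (cop pt W).image fun t => pt t ⟨0, hk⟩))
  unfold cnt
  omega

variable {p : ℕ} [hp : Fact p.Prime] {L : Type} [AddCommGroup L] [Module (ZMod p) L] [Fintype L]
  {k : ℕ}

/-- The configurations. -/
def ptv (a : Fin k → L) (n : ℕ)
    (t : {z : (Fin n → L) × (Fin n → ZMod p) // z.2 ≠ 0}) (j : Fin k) : Fin n → L :=
  fun i => t.1.1 i + t.1.2 i • a j

theorem sysv {a : Fin k → L} (ha : Function.Injective a) (n : ℕ) :
    Sys (ptv (p := p) a n) := by
  constructor
  · rintro ⟨⟨x, y⟩, hy⟩ j j' h
    obtain ⟨i, hi⟩ := Function.ne_iff.1 hy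
    have h1 := congrFun h i
    simp only [ptv, add_right_inj] at h1
    exact ha (smul_right_injective L (by simpa using hi) h1)
  · rintro ⟨⟨x, y⟩, hy⟩ ⟨⟨x', y'⟩, hy'⟩ j j' hjj h1 h2
    have h3 : ∀ i, y i = y' i := by
      intro i
      have h4 := congrFun h1 i
      have h5 := congrFun h2 i
      simp only [ptv] at h4 h5
      have h6 : (y i - y' i) • (a j - a j') = 0 := by
        have h7 : y i • a j - y' i • a j = x' i - x i := by
          rw [eq_sub_iff_add_eq, ← sub_eq_zero] at *
          rw [← h4]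
          abel
        have h8 : y i • a j' - y' i • a j' = x' i - x i := by
          rw [eq_sub_iff_add_eq, ← sub_eq_zero] at *
          rw [← h5]
          abel
        rw [sub_smul, smul_sub, smul_sub]
        calc y i • a j - y i • a j' - (y' i • a j - y' i • a j')
            = (y i • a j - y' i • a j) - (y i • a j' - y' i • a j') := by abel
          _ = 0 := by rw [h7, h8, sub_self]
      rcases smul_eq_zero.1 h6 with h7 | h7
      · exact sub_eq_zero.1 h7
      · exact absurd (ha (sub_eq_zero.1 h7)) hjj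
    have h4 : y = y' := funext h3
    subst h4
    have h5 : x = x' := by
      funext i
      have h6 := congrFun h1 i
      simp only [ptv] at h6
      exact add_right_cancel h6
    subst h5
    rfl

/-- The largest size of a configuration-free subset of `L ^ n`. -/
noncomputable def rr (p : ℕ) [Fact p.Prime] {L : Type} [AddCommGroup L] [Module (ZMod p) L]
    [Fintype L] {k : ℕ} (a : Fin k → L) (n : ℕ) : ℕ :=
  alph (Free (ptv (p := p) a n)) univ

/-- The number of the configurations in `W` with difference `z`. -/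
noncomputable def gz (a : Fin k → L) {n : ℕ} (W : Finset (Fin n → L)) (z : Fin n → ZMod p) : ℕ :=
  (univ.filter fun x : Fin n → L => ∀ j, (fun i => x i + z i • a j) ∈ W).card

theorem sum_gz (a : Fin k → L) {n : ℕ} (W : Finset (Fin n → L)) (hk : 0 < k) :
    ∑ z : Fin n → ZMod p, gz a W z = cnt (ptv (p := p) a n) W + W.card := by
  have h1 : gz a W (0 : Fin n → ZMod p) = W.card := by
    unfold gz
    congr 1
    ext x
    rw [mem_filter]
    simp only [Pi.zero_apply, zero_smul, add_zero, mem_univ, true_and]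
    exact ⟨fun h => h ⟨0, hk⟩, fun h _ => h⟩
  rw [← add_sum_erase univ _ (mem_univ (0 : Fin n → ZMod p)), h1, add_comm]
  congr 1
  have h2 : cnt (ptv (p := p) a n) W =
      (univ.filter fun z : (Fin n → L) × (Fin n → ZMod p) =>
        z.2 ≠ 0 ∧ ∀ j, (fun i => z.1 i + z.2 i • a j) ∈ W).card := by
    refine card_bij (fun t _ => t.1) ?_ ?_ ?_
    · intro t ht
      rw [mem_filter]
      exact ⟨mem_univ _, t.2, mem_cop.1 ht⟩
    · intro t _ t' _ h
      exact Subtype.ext h
    · intro z hz
      rw [mem_filter] at hz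
      exact ⟨⟨z, hz.2.1⟩, mem_cop.2 hz.2.2, rfl⟩
  rw [h2]
  unfold gz
  rw [eq_comm, card_eq_sum_card_fiberwise (f := Prod.snd) (t := univ.erase 0)]
  · refine sum_congr rfl fun z hz => ?_
    refine card_bij (fun q _ => q.1) ?_ ?_ ?_
    · rintro ⟨x, y⟩ hq
      simp only [mem_filter, mem_univ, true_and] at hq ⊢
      obtain ⟨⟨_, h3⟩, rfl⟩ := hq
      exact h3
    · rintro ⟨x, y⟩ hq ⟨x', y'⟩ hq' h
      simp only [mem_filter, mem_univ, true_and] at hq hq' h
      rw [h, hq.2, hq'.2]
    · intro x hx
      simp only [mem_filter, mem_univ, true_and] at hx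
      exact ⟨(x, z), by
        simp only [mem_filter, mem_univ, true_and]
        exact ⟨⟨(mem_erase.1 hz).1, hx⟩, trivial⟩, rfl⟩
  · rintro ⟨x, y⟩ hq
    simp only [coe_filter, mem_univ, true_and, Set.mem_ofPred_eq] at hq
    simp only [coe_erase, coe_univ, Set.mem_sdiff, Set.mem_univ, true_and, Set.mem_singleton_iff]
    exact hq.1

/-- The affine maps. -/
def phi {m n : ℕ} (x : Fin n → L) (M : Fin n → Fin m → ZMod p) (u : Fin m → L) : Fin n → L :=
  fun i => x i + ∑ l, M i l • u l

/-- `M y` is uniformly distributed for `y ≠ 0`. -/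
theorem sum_mat {m n : ℕ} (y : Fin m → ZMod p) (hy : y ≠ 0) (g : (Fin n → ZMod p) → ℕ) :
    p ^ n * ∑ M : Fin n → Fin m → ZMod p, g (fun i => ∑ l, M i l * y l) =
      Fintype.card (Fin n → Fin m → ZMod p) * ∑ z, g z := by
  obtain ⟨l₀, hl₀⟩ := Function.ne_iff.1 hy
  rw [Pi.zero_apply] at hl₀
  have h1 : ∀ z : Fin n → ZMod p, ∑ M : Fin n → Fin m → ZMod p,
      g (fun i => (∑ l, M i l * y l) + z i) =
      ∑ M : Fin n → Fin m → ZMod p, g (fun i => ∑ l, M i l * y l) := by
    intro z
    refine Fintype.sum_equiv (Equiv.addRight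
      (fun i l => if l = l₀ then z i * (y l₀)⁻¹ else 0)) _ _ fun M => ?_
    congr 1
    funext i
    simp only [Equiv.coe_addRight, Pi.add_apply, add_mul, sum_add_distrib, ite_mul, zero_mul,
      sum_ite_eq', mem_univ, if_true]
    rw [inv_mul_cancel_right₀ hl₀]
  have h2 : ∑ z : Fin n → ZMod p, ∑ M : Fin n → Fin m → ZMod p,
      g (fun i => (∑ l, M i l * y l) + z i) =
      p ^ n * ∑ M : Fin n → Fin m → ZMod p, g (fun i => ∑ l, M i l * y l) := by
    rw [sum_congr rfl fun z _ => h1 z, sum_const, card_univ, smul_eq_mul, Fintype.card_fun,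
      ZMod.card, Fintype.card_fin]
  rw [← h2, sum_comm]
  have h3 : ∀ M : Fin n → Fin m → ZMod p, ∑ z : Fin n → ZMod p,
      g (fun i => (∑ l, M i l * y l) + z i) = ∑ z, g z := by
    intro M
    exact Fintype.sum_equiv (Equiv.addLeft (fun i => ∑ l, M i l * y l)) _ _ fun z => rfl
  rw [sum_congr rfl fun M _ => h3 M, sum_const, card_univ, smul_eq_mul]

/-- **Supersaturation.** -/
theorem supersat_aux (a : Fin k → L) (hk : 0 < k) (m n : ℕ) (W : Finset (Fin n → L)) :
    p ^ n * (Fintype.card L ^ m * W.card) ≤ p ^ n * (Fintype.card L ^ n * rr p a m) +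
      Fintype.card L ^ m * p ^ m * (cnt (ptv (p := p) a n) W + W.card) := by
  set Mat := Fin n → Fin m → ZMod p with hMat
  set A : (Fin n → L) → Mat → Finset (Fin m → L) :=
    fun x M => univ.filter fun u => phi x M u ∈ W with hA
  -- sum of the sizes
  have h1 : ∑ M : Mat, ∑ x : Fin n → L, (A x M).card =
      Fintype.card Mat * (Fintype.card L ^ m * W.card) := by
    have h2 : ∀ M : Mat, ∑ x : Fin n → L, (A x M).card = Fintype.card L ^ m * W.card := by
      intro M
      simp only [hA, card_filter]
      rw [sum_comm]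
      have h3 : ∀ u : Fin m → L, (∑ x : Fin n → L, if phi x M u ∈ W then 1 else 0) = W.card := by
        intro u
        rw [← Fintype.sum_equiv (Equiv.subRight (fun i => ∑ l, M i l • u l))
          (fun x => if x ∈ W then 1 else 0) _ (fun x => ?_)]
        · simp
        · congr 2
          funext i
          simp only [phi, Equiv.subRight_apply, Pi.sub_apply, sub_add_cancel]
      rw [sum_congr rfl fun u _ => h3 u, sum_const, card_univ, smul_eq_mul, Fintype.card_fun,
        Fintype.card_fin]
    rw [sum_congr rfl fun M _ => h2 M, sum_const, card_univ, smul_eq_mul]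
  -- sum of the numbers of configurations
  have h2 : ∀ (x : Fin n → L) (M : Mat), (A x M).card ≤ rr p a m +
      cnt (ptv (p := p) a m) (A x M) := fun x M => del hk _ _
  have h3 : p ^ n * ∑ M : Mat, ∑ x : Fin n → L, cnt (ptv (p := p) a m) (A x M) ≤
      Fintype.card Mat * (Fintype.card L ^ m * p ^ m * (cnt (ptv (p := p) a n) W + W.card)) := by
    have h4 : ∀ (M : Mat), ∑ x : Fin n → L, cnt (ptv (p := p) a m) (A x M) =
        ∑ t : {z : (Fin m → L) × (Fin m → ZMod p) // z.2 ≠ 0},
          gz a W (fun i => ∑ l, M i l * t.1.2 l) := by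
      intro M
      unfold cnt cop gz
      simp only [card_filter]
      rw [sum_comm]
      refine sum_congr rfl fun t _ => ?_
      refine Fintype.sum_equiv (Equiv.addRight (fun i => ∑ l, M i l • t.1.1 l)) _ _ fun x => ?_
      have h5 : (∀ j, ptv a m t j ∈ A x M) ↔
          ∀ j, (fun i => (Equiv.addRight (fun i => ∑ l, M i l • t.1.1 l)) x i +
            (∑ l, M i l * t.1.2 l) • a j) ∈ W := by
        refine forall_congr' fun j => ?_
        simp only [hA, mem_filter, mem_univ, true_and]
        have h6 : phi x M (ptv a m t j) =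
            fun i => (Equiv.addRight (fun i => ∑ l, M i l • t.1.1 l)) x i +
            (∑ l, M i l * t.1.2 l) • a j := by
          funext i
          simp only [phi, ptv, Equiv.coe_addRight, Pi.add_apply, smul_add, sum_add_distrib, sum_smul,
            mul_smul, add_assoc]
        rw [h6]
      simp only [h5]
    rw [sum_congr rfl fun M _ => h4 M, sum_comm, mul_sum]
    have h5 : ∀ t : {z : (Fin m → L) × (Fin m → ZMod p) // z.2 ≠ 0},
        p ^ n * ∑ M : Mat, gz a W (fun i => ∑ l, M i l * t.1.2 l) =
        Fintype.card Mat * (cnt (ptv (p := p) a n) W + W.card) := by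
      intro t
      rw [sum_mat t.1.2 t.2, sum_gz a W hk]
    rw [sum_congr rfl fun t _ => h5 t, sum_const, card_univ, smul_eq_mul]
    have h6 : Fintype.card {z : (Fin m → L) × (Fin m → ZMod p) // z.2 ≠ 0} ≤
        Fintype.card L ^ m * p ^ m := by
      refine (Fintype.card_subtype_le _).trans (le_of_eq ?_)
      rw [Fintype.card_prod, Fintype.card_fun, Fintype.card_fun, Fintype.card_fin, ZMod.card]
    calc _ ≤ (Fintype.card L ^ m * p ^ m) *
          (Fintype.card Mat * (cnt (ptv (p := p) a n) W + W.card)) := Nat.mul_le_mul_right _ h6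
      _ = _ := by ring
  have h4 : ∑ M : Mat, ∑ x : Fin n → L, (A x M).card ≤
      Fintype.card Mat * (Fintype.card L ^ n * rr p a m) +
        ∑ M : Mat, ∑ x : Fin n → L, cnt (ptv (p := p) a m) (A x M) := by
    have h5 : ∑ M : Mat, ∑ _x : Fin n → L, rr p a m =
        Fintype.card Mat * (Fintype.card L ^ n * rr p a m) := by
      have hX : Fintype.card (Fin n → L) = Fintype.card L ^ n := by
        rw [Fintype.card_fun, Fintype.card_fin]
      rw [sum_const, sum_const, card_univ, card_univ, smul_eq_mul, smul_eq_mul, hX]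
    rw [← h5, ← sum_add_distrib]
    refine sum_le_sum fun M _ => ?_
    rw [← sum_add_distrib]
    exact sum_le_sum fun x _ => h2 x M
  rw [h1] at h4
  have h5 : Fintype.card Mat * (p ^ n * (Fintype.card L ^ m * W.card)) ≤
      Fintype.card Mat * (p ^ n * (Fintype.card L ^ n * rr p a m) +
      Fintype.card L ^ m * p ^ m * (cnt (ptv (p := p) a n) W + W.card)) := by
    calc Fintype.card Mat * (p ^ n * (Fintype.card L ^ m * W.card))
        = p ^ n * (Fintype.card Mat * (Fintype.card L ^ m * W.card)) := by ring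
      _ ≤ p ^ n * (Fintype.card Mat * (Fintype.card L ^ n * rr p a m) +
        ∑ M : Mat, ∑ x : Fin n → L, cnt (ptv (p := p) a m) (A x M)) := Nat.mul_le_mul_left _ h4
      _ = Fintype.card Mat * (p ^ n * (Fintype.card L ^ n * rr p a m)) +
        p ^ n * ∑ M : Mat, ∑ x : Fin n → L, cnt (ptv (p := p) a m) (A x M) := by ring
      _ ≤ Fintype.card Mat * (p ^ n * (Fintype.card L ^ n * rr p a m)) +
        Fintype.card Mat * (Fintype.card L ^ m * p ^ m *
          (cnt (ptv (p := p) a n) W + W.card)) := Nat.add_le_add_left h3 _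
      _ = _ := by ring
  exact Nat.le_of_mul_le_mul_left h5 Fintype.card_pos

end

end Pool.Agent.U465.SR
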