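import Pool.Agent.U465.SR.Vec

set_option autoImplicit false

/-!
# Random subsets of `L ^ n`: upper and lower bounds
-/

open Finset

namespace Pool.Agent.U465.SR

section

open scoped Classical

variable {p : ℕ} [hp : Fact p.Prime] {L : Type} [AddCommGroup L] [Module (ZMod p) L] [Fintype L]
  {k : ℕ}

/-- **Supersaturation**: sets with at least `2 rr m |L| ^ s` elements in `L ^ (m + s)` contain at
least `p ^ s / 2 - 1` configurations per element. -/
theorem supersat (a : Fin k → L) (hk : 0 < k) (m s : ℕ) (W : Finset (Fin (m + s) → L))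
    (hW : 2 * (rr p a m : ℝ) * (Fintype.card L : ℝ) ^ s ≤ W.card) :
    ((p : ℝ) ^ s / 2 - 1) * W.card ≤ cnt (ptv (p := p) a (m + s)) W := by
  have h1 := supersat_aux (p := p) a hk m (m + s) W
  have hp0 : (0 : ℝ) < p := by exact_mod_cast hp.out.pos
  have hL0 : (0 : ℝ) < Fintype.card L := by exact_mod_cast Fintype.card_pos
  have h2 : (p : ℝ) ^ (m + s) * ((Fintype.card L : ℝ) ^ m * W.card) ≤
      (p : ℝ) ^ (m + s) * ((Fintype.card L : ℝ) ^ (m + s) * rr p a m) +
      (Fintype.card L : ℝ) ^ m * (p : ℝ) ^ m * (cnt (ptv (p := p) a (m + s)) W + W.card) := by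
    exact_mod_cast h1
  have h3 : (Fintype.card L : ℝ) ^ m * (p : ℝ) ^ m * ((p : ℝ) ^ s * W.card) ≤
      (Fintype.card L : ℝ) ^ m * (p : ℝ) ^ m * ((p : ℝ) ^ s * ((Fintype.card L : ℝ) ^ s * rr p a m) +
      (cnt (ptv (p := p) a (m + s)) W + W.card)) := by
    calc _ = (p : ℝ) ^ (m + s) * ((Fintype.card L : ℝ) ^ m * W.card) := by
          rw [pow_add]
          ring
      _ ≤ _ := h2
      _ = _ := by
          rw [pow_add, pow_add]
          ring
  have h4 := le_of_mul_le_mul_left h3 (by positivity)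
  have h5 : (p : ℝ) ^ s * ((Fintype.card L : ℝ) ^ s * rr p a m) ≤ (p : ℝ) ^ s * (W.card / 2) := by
    refine mul_le_mul_of_nonneg_left ?_ (by positivity)
    linarith
  linarith

/-- **Upper bound.** -/
theorem upV (a : Fin k → L) (ha : Function.Injective a) (hk : 2 ≤ k) (hL : p ≤ Fintype.card L)
    (Λ : ℝ) (hΛ1 : 1 ≤ Λ) (hΛL : Λ ≤ Fintype.card L)
    (hΛp : (Fintype.card L : ℝ) < Λ * (p : ℝ) ^ (1 / ((k : ℝ) - 1)))
    (hr : ∀ m, (rr p a m : ℝ) ≤ Λ ^ m) :
    ∃ C : ℝ, 0 < C ∧ ∀ (n h : ℕ) (q : ℝ), h ≤ n → 0 < q → q ≤ 1 → 1 ≤ (p : ℝ) ^ h * q ^ (k - 1) →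
      Pr q (univ : Finset (Fin n → L))
        (fun S => C * (q * (Λ ^ (n - h) * (Fintype.card L : ℝ) ^ h)) ≤
          alph (Free (ptv (p := p) a n)) S) ≤
        Real.exp (-(q * (Λ ^ (n - h) * (Fintype.card L : ℝ) ^ h))) := by
  obtain ⟨A₀, hA₀, hup⟩ := upper k hk
  set B : ℝ := (Fintype.card L : ℝ) with hB
  have hp0 : (0 : ℝ) < p := by exact_mod_cast hp.out.pos
  have hp1 : (1 : ℝ) < p := by exact_mod_cast hp.out.one_lt
  have hp2 : (2 : ℝ) ≤ p := by exact_mod_cast hp.out.two_le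
  have hk1 : (0 : ℝ) < (k : ℝ) - 1 := by
    have : (2 : ℝ) ≤ k := by exact_mod_cast hk
    linarith
  have hk2 : ((k - 1 : ℕ) : ℝ) = (k : ℝ) - 1 := by
    rw [Nat.cast_sub (by omega), Nat.cast_one]
  have hΛ0 : 0 < Λ := by linarith
  set θ : ℝ := B / Λ with hθ
  have hθ1 : 1 ≤ θ := by rwa [hθ, one_le_div hΛ0]
  have hBθ : B = Λ * θ := by
    rw [hθ]
    field_simp
  set σ : ℝ := (p : ℝ) ^ (-(1 / ((k : ℝ) - 1))) with hσ
  have hσ0 : 0 < σ := by positivity
  have hσ1 : σ < 1 := Real.rpow_lt_one_of_one_lt_of_neg hp1 (by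
    rw [neg_lt_zero]
    positivity)
  have hσk : σ ^ (k - 1) = (p : ℝ)⁻¹ := by
    rw [hσ, ← Real.rpow_natCast, ← Real.rpow_mul hp0.le, hk2, neg_mul, one_div,
      inv_mul_cancel₀ hk1.ne', Real.rpow_neg_one]
  have hσp : (p : ℝ)⁻¹ ≤ σ := by
    rw [← Real.rpow_neg_one, hσ]
    refine Real.rpow_le_rpow_of_exponent_le hp1.le (neg_le_neg ?_)
    rw [div_le_one hk1]
    have : (2 : ℝ) ≤ k := by exact_mod_cast hk
    linarith
  have hθσ : θ * σ < 1 := by
    rw [hθ, hσ, Real.rpow_neg hp0.le, ← div_eq_mul_inv, div_div, div_lt_one (by positivity)]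
    exact hΛp
  -- the choice of `ζ`
  obtain ⟨ζ, hζ0, hζ1, hζ⟩ : ∃ ζ : ℝ, 0 < ζ ∧ ζ < 1 ∧ θ * σ ^ (1 - ζ) < 1 := by
    have h1 : Filter.Tendsto (fun ζ : ℝ => θ * σ ^ (1 - ζ)) (nhds 0) (nhds (θ * σ ^ (1 - (0 : ℝ)))) := by
      refine Filter.Tendsto.const_mul θ ?_
      refine Filter.Tendsto.rpow tendsto_const_nhds ?_ (Or.inl hσ0.ne')
      exact tendsto_const_nhds.sub Filter.tendsto_id
    rw [sub_zero, Real.rpow_one] at h1
    have h2 := h1.eventually (gt_mem_nhds hθσ)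
    obtain ⟨ε, hε, h3⟩ := Metric.eventually_nhds_iff.1 h2
    refine ⟨min (ε / 2) (1 / 2), by positivity, lt_of_le_of_lt (min_le_right _ _) (by norm_num), ?_⟩
    refine h3 ?_
    rw [dist_zero_right, Real.norm_of_nonneg (by positivity)]
    exact lt_of_le_of_lt (min_le_left _ _) (by linarith)
  set ω : ℝ := θ * σ ^ (1 - ζ) with hω
  have hω0 : 0 < ω := by positivity
  set C₁ : ℝ := A₀ / ζ * (4 * θ ^ 3 / (1 - ω)) + 8 * θ ^ 2 + 1 with hC₁
  have h1ω : 0 < 1 - ω := by linarith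
  have hC₁0 : 0 < C₁ := by positivity
  refine ⟨C₁, hC₁0, ?_⟩
  intro n h q hhn hq0 hq1 hq
  have hB1 : 1 ≤ B := hΛ1.trans hΛL
  have hB0 : 0 < B := by linarith
  -- `Λ ^ (n - s) B ^ s = Λ ^ n θ ^ s`
  have hΛB : ∀ s, s ≤ n → Λ ^ (n - s) * B ^ s = Λ ^ n * θ ^ s := by
    intro s hs
    obtain ⟨t, rfl⟩ := Nat.exists_eq_add_of_le hs
    rw [Nat.add_sub_cancel_left, hBθ, mul_pow, pow_add]
    ring
  rw [hΛB h hhn]
  have hX : (Fintype.card (Fin n → L) : ℝ) = B ^ n := by
    rw [Fintype.card_fun, Fintype.card_fin, Nat.cast_pow]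
  have hBn : B ^ n = Λ ^ n * θ ^ n := by rw [hBθ, mul_pow]
  by_cases hh2 : h + 2 ≤ n
  · set J : ℕ := n - 2 - h with hJ
    have hJn : J + (h + 2) = n := by omega
    have h1 := hup (ptv (p := p) a n) (sysv ha n) (fun j => 4 * Λ ^ n * θ ^ (h + 2 + j))
      (fun j => q * σ ^ j) (fun j => p ^ (h + j)) q ζ J hq0 hq1 hζ0 hζ1.le
      (fun j hj => by
        have hσj : σ ^ j ≤ 1 := pow_le_one₀ hσ0.le hσ1.le
        refine ⟨Nat.one_le_pow _ _ hp.out.pos, by positivity, ?_, ?_, ?_, ?_⟩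
        · exact mul_le_of_le_one_right hq0.le hσj
        · have h2 : ((p ^ (h + j) : ℕ) : ℝ) * (q * σ ^ j) ^ (k - 1) = (p : ℝ) ^ h * q ^ (k - 1) := by
            rw [mul_pow, ← pow_mul, mul_comm j, pow_mul, hσk, Nat.cast_pow, pow_add, inv_pow]
            field_simp
          rw [h2]
          exact hq
        · have h2 : σ ^ h ≤ q := by
            have h3 : (σ ^ h) ^ (k - 1) ≤ q ^ (k - 1) := by
              rw [← pow_mul, mul_comm h, pow_mul, hσk, inv_pow, inv_le_iff_one_le_mul₀ (by positivity),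
                mul_comm]
              exact hq
            exact le_of_pow_le_pow_left₀ (by omega) hq0.le h3
          have h3 : Λ ^ n * θ ^ (h + 2 + j) = Λ ^ (n - (h + 2 + j)) * B ^ (h + 2 + j) :=
            (hΛB _ (by omega)).symm
          have h4 : (1 : ℝ) ≤ Λ ^ (n - (h + 2 + j)) := one_le_pow₀ hΛ1
          have h5 : ((p : ℝ)⁻¹) ^ (h + j) ≤ q * σ ^ j := by
            calc ((p : ℝ)⁻¹) ^ (h + j) ≤ σ ^ (h + j) := pow_le_pow_left₀ (by positivity) hσp _
              _ = σ ^ h * σ ^ j := pow_add _ _ _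
              _ ≤ _ := by gcongr
          have h6 : (p : ℝ) ^ (h + j) ≤ B ^ (h + 2 + j) := by
            have hpB : (p : ℝ) ≤ B := by rw [hB]; exact_mod_cast hL
            calc (p : ℝ) ^ (h + j) ≤ B ^ (h + j) := pow_le_pow_left₀ hp0.le hpB _
              _ ≤ B ^ (h + 2 + j) := pow_le_pow_right₀ hB1 (by omega)
          have h7 : 1 ≤ B ^ (h + 2 + j) * (q * σ ^ j) := by
            calc (1 : ℝ) = (p : ℝ) ^ (h + j) * ((p : ℝ)⁻¹) ^ (h + j) := by
                  rw [← mul_pow, mul_inv_cancel₀ hp0.ne', one_pow]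
              _ ≤ _ := by gcongr
          have h8 : (4 * Λ ^ n * θ ^ (h + 2 + j)) * (q * σ ^ j) =
              4 * (Λ ^ (n - (h + 2 + j)) * (B ^ (h + 2 + j) * (q * σ ^ j))) := by
            rw [mul_assoc 4, h3]
            ring
          rw [h8]
          nlinarith [one_le_mul_of_one_le_of_one_le h4 h7]
        · intro W hW
          obtain ⟨m, hm⟩ : ∃ m, n = m + (h + 2 + j) := ⟨n - (h + 2 + j), by omega⟩
          subst hm
          have h3 : Λ ^ (m + (h + 2 + j)) * θ ^ (h + 2 + j) = Λ ^ m * B ^ (h + 2 + j) := by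
            rw [← hΛB _ (by omega), Nat.add_sub_cancel]
          have h4 : 2 * (rr p a m : ℝ) * B ^ (h + 2 + j) ≤ W.card := by
            refine le_trans ?_ hW
            have h5 := hr m
            calc 2 * (rr p a m : ℝ) * B ^ (h + 2 + j) ≤ 2 * Λ ^ m * B ^ (h + 2 + j) := by gcongr
              _ = 4 * (Λ ^ (m + (h + 2 + j)) * θ ^ (h + 2 + j)) / 2 := by
                  rw [h3]
                  ring
              _ = _ := by ring
          refine le_trans ?_ (supersat a (by omega) m (h + 2 + j) W h4)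
          refine mul_le_mul_of_nonneg_right ?_ (Nat.cast_nonneg _)
          have h5 : (p : ℝ) ^ (h + 2 + j) = p ^ (h + j) * p ^ 2 := by
            rw [← pow_add]
            congr 1
            omega
          have h6 : (1 : ℝ) ≤ (p : ℝ) ^ (h + j) := one_le_pow₀ hp1.le
          rw [Nat.cast_pow, h5]
          have h7 : (4 : ℝ) ≤ (p : ℝ) ^ 2 := by nlinarith
          have h8 : (p : ℝ) ^ (h + j) * 4 ≤ (p : ℝ) ^ (h + j) * p ^ 2 := by gcongr
          linarith)
      (by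
        rw [hX, hBn, show h + 2 + J = n by omega]
        have : 0 < Λ ^ n * θ ^ n := by positivity
        linarith)
      (C₁ * (q * (Λ ^ n * θ ^ h)))
    refine h1.trans (Real.exp_le_exp.2 ?_)
    have hμ : 0 < q * (Λ ^ n * θ ^ h) := by positivity
    have h2 : ∀ j, 4 * Λ ^ n * θ ^ (h + 2 + (j + 1)) * (q ^ ζ * (q * σ ^ j) ^ (1 - ζ)) =
        4 * θ ^ 3 * (q * (Λ ^ n * θ ^ h)) * ω ^ j := by
      intro j
      have h3 : (q * σ ^ j) ^ (1 - ζ) = q ^ (1 - ζ) * (σ ^ (1 - ζ)) ^ j := by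
        rw [Real.mul_rpow hq0.le (by positivity), ← Real.rpow_natCast, ← Real.rpow_mul hσ0.le,
          mul_comm (j : ℝ), Real.rpow_mul hσ0.le, Real.rpow_natCast]
      have h4 : q ^ ζ * q ^ (1 - ζ) = q := by
        rw [← Real.rpow_add hq0, add_sub_cancel, Real.rpow_one]
      rw [h3, hω, mul_pow]
      calc 4 * Λ ^ n * θ ^ (h + 2 + (j + 1)) * (q ^ ζ * (q ^ (1 - ζ) * (σ ^ (1 - ζ)) ^ j))
          = 4 * Λ ^ n * θ ^ (h + 2 + (j + 1)) * ((q ^ ζ * q ^ (1 - ζ)) * (σ ^ (1 - ζ)) ^ j) := by ring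
        _ = _ := by
          rw [h4, show h + 2 + (j + 1) = h + j + 3 by ring, pow_add, pow_add]
          ring
    simp only [h2]
    rw [← mul_sum, add_zero]
    have h3 : ∑ j ∈ range J, ω ^ j ≤ 1 / (1 - ω) := by
      rw [le_div_iff₀ h1ω, geom_sum_mul_neg]
      have : 0 ≤ ω ^ J := by positivity
      linarith
    have h4 : A₀ / ζ * (4 * θ ^ 3 * (q * (Λ ^ n * θ ^ h)) * ∑ j ∈ range J, ω ^ j) ≤
        A₀ / ζ * (4 * θ ^ 3 / (1 - ω)) * (q * (Λ ^ n * θ ^ h)) := by
      calc _ ≤ A₀ / ζ * (4 * θ ^ 3 * (q * (Λ ^ n * θ ^ h)) * (1 / (1 - ω))) := by gcongr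
        _ = _ := by ring
    have h5 : 2 * q * (4 * Λ ^ n * θ ^ (h + 2)) = 8 * θ ^ 2 * (q * (Λ ^ n * θ ^ h)) := by
      rw [pow_add]
      ring
    rw [h5, hC₁]
    linarith
  · -- `h ≥ n - 1`
    have h1 := hup (ptv (p := p) a n) (sysv ha n) (fun j => B ^ n)
      (fun j => q) (fun j => 1) q ζ 0 hq0 hq1 hζ0 hζ1.le (fun j hj => absurd hj (Nat.not_lt_zero j))
      (by rw [hX]) (C₁ * (q * (Λ ^ n * θ ^ h)))
    refine h1.trans (Real.exp_le_exp.2 ?_)
    rw [range_zero, sum_empty, mul_zero, zero_add, hBn]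
    have h2 : θ ^ n ≤ θ ^ 2 * θ ^ h := by
      rw [← pow_add]
      exact pow_le_pow_right₀ hθ1 (by omega)
    have h3 : 2 * q * (Λ ^ n * θ ^ n) ≤ 2 * θ ^ 2 * (q * (Λ ^ n * θ ^ h)) := by
      calc 2 * q * (Λ ^ n * θ ^ n) ≤ 2 * q * (Λ ^ n * (θ ^ 2 * θ ^ h)) := by gcongr
        _ = _ := by ring
    have h4 : (2 * θ ^ 2 + 1) * (q * (Λ ^ n * θ ^ h)) ≤ C₁ * (q * (Λ ^ n * θ ^ h)) := by
      refine mul_le_mul_of_nonneg_right ?_ (by positivity)
      rw [hC₁]
      have h5 : 0 ≤ A₀ / ζ * (4 * θ ^ 3 / (1 - ω)) := by positivity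
      nlinarith [sq_nonneg θ]
    linarith

/-- **Lower bound.** -/
theorem loV (a : Fin k → L) (ha : Function.Injective a) (hk : 1 ≤ k) (m h : ℕ) (q : ℝ)
    (hq0 : 0 ≤ q) (hq1 : q ≤ 1) :
    (1 - (p : ℝ) ^ h * q ^ (k - 1)) * (q * (rr p a m * (Fintype.card L : ℝ) ^ h)) ≤
      EE q (univ : Finset (Fin (m + h) → L))
        (fun S => (alph (Free (ptv (p := p) a (m + h))) S : ℝ)) := by
  have h0 : Free (ptv (p := p) a m) ∅ := fun t ht => notMem_empty _ (ht ⟨0, hk⟩)
  obtain ⟨A, _, hA, hAc⟩ := exists_alph h0 (univ : Finset (Fin m → L))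
  set W : Finset (Fin (m + h) → L) := univ.filter fun x => (fun i => x (Fin.castAdd h i)) ∈ A with hW
  have hWc : W.card = rr p a m * Fintype.card L ^ h := by
    have h1 : W.card = (A ×ˢ (univ : Finset (Fin h → L))).card := by
      refine card_bij (fun x _ => (fun i => x (Fin.castAdd h i), fun i => x (Fin.natAdd m i))) ?_ ?_ ?_
      · intro x hx
        rw [mem_product]
        exact ⟨(mem_filter.1 hx).2, mem_univ _⟩
      · intro x _ y _ hxy
        rw [Prod.mk.injEq] at hxy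
        funext i
        refine Fin.addCases (fun i => ?_) (fun i => ?_) i
        · exact congrFun hxy.1 i
        · exact congrFun hxy.2 i
      · rintro ⟨x, y⟩ hxy
        rw [mem_product] at hxy
        refine ⟨Fin.append x y, ?_, ?_⟩
        · rw [mem_filter]
          refine ⟨mem_univ _, ?_⟩
          simp only [Fin.append_left]
          exact hxy.1
        · simp only [Fin.append_left, Fin.append_right]
    rw [h1, card_product, card_univ, Fintype.card_fun, Fintype.card_fin, hAc]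
    rfl
  have hcnt : cnt (ptv (p := p) a (m + h)) W ≤ W.card * p ^ h := by
    have h1 : ∀ t ∈ cop (ptv (p := p) a (m + h)) W,
        (fun i : Fin m => t.1.2 (Fin.castAdd h i)) = 0 := by
      intro t ht
      rw [mem_cop] at ht
      by_contra h2
      refine hA ⟨(fun i => t.1.1 (Fin.castAdd h i), fun i => t.1.2 (Fin.castAdd h i)), h2⟩ fun j => ?_
      exact (mem_filter.1 (ht j)).2
    have h2 : cnt (ptv (p := p) a (m + h)) W ≤ (W ×ˢ (univ : Finset (Fin h → ZMod p))).card := by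
      refine card_le_card_of_injOn
        (fun t => (ptv (p := p) a (m + h) t ⟨0, hk⟩, fun i => t.1.2 (Fin.natAdd m i))) ?_ ?_
      · intro t ht
        exact mem_coe.2 (mem_product.2 ⟨mem_cop.1 ht _, mem_univ _⟩)
      · intro t ht t' ht' htt
        simp only [Prod.mk.injEq] at htt
        have h3 : t.1.2 = t'.1.2 := by
          funext i
          refine Fin.addCases (fun i => ?_) (fun i => ?_) i
          · have h4 := congrFun (h1 t (mem_coe.1 ht)) i
            have h5 := congrFun (h1 t' (mem_coe.1 ht')) i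
            exact h4.trans h5.symm
          · exact congrFun htt.2 i
        refine Subtype.ext (Prod.ext ?_ h3)
        funext i
        have h4 := congrFun htt.1 i
        simp only [ptv, h3] at h4
        exact add_right_cancel h4
    refine h2.trans (le_of_eq ?_)
    rw [card_product, card_univ, Fintype.card_fun, Fintype.card_fin, ZMod.card]
  refine le_trans ?_ (lower (by omega) (sysv ha (m + h)) hq0 hq1 W)
  have h1 : (cnt (ptv (p := p) a (m + h)) W : ℝ) ≤ W.card * (p : ℝ) ^ h := by exact_mod_cast hcnt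
  have h2 : q ^ k = q * q ^ (k - 1) := by
    rw [← pow_succ']
    congr 1
    omega
  have h3 : (W.card : ℝ) = rr p a m * (Fintype.card L : ℝ) ^ h := by exact_mod_cast hWc
  have h4 : q ^ k * cnt (ptv (p := p) a (m + h)) W ≤ q ^ k * (W.card * (p : ℝ) ^ h) := by
    gcongr
  rw [← h3]
  rw [h2] at h4 ⊢
  linarith

end

end Pool.Agent.U465.SR
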