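import Pool.Agent.U465.SR.Link2

set_option autoImplicit false

/-!
# Containers, partition functions and random subsets in `L ^ n`, up to constant factors
-/

open Finset

namespace Pool.Agent.U465.SR

section

open scoped Classical

variable {p : ℕ} [hp : Fact p.Prime] {L : Type} [AddCommGroup L] [Module (ZMod p) L] [Fintype L]
  {k : ℕ}

theorem rr_pos (a : Fin k → L) (ha : Function.Injective a) (hk : 2 ≤ k) (m : ℕ) :
    1 ≤ rr p a m := by
  have h2 : Free (ptv (p := p) a m) ({0} : Finset (Fin m → L)) := by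
    intro t ht
    have h3 := (sysv (p := p) ha m).inj t (a₁ := ⟨0, by omega⟩) (a₂ := ⟨1, by omega⟩)
      (by rw [mem_singleton.1 (ht _), mem_singleton.1 (ht _)])
    simp at h3
  have h4 := card_le_alph (subset_univ _) h2
  rwa [card_singleton] at h4

/-- **Containers in `L ^ n`.** -/
theorem coverV (a : Fin k → L) (ha : Function.Injective a) (hk : 2 ≤ k) (hL : p ≤ Fintype.card L)
    (θ K : ℝ) (hθ1 : 1 ≤ θ) (hθp : θ < (p : ℝ) ^ (1 / ((k : ℝ) - 1))) (hK0 : 0 < K)
    (hK : ∀ m s : ℕ, (rr p a m : ℝ) * (Fintype.card L : ℝ) ^ s ≤ K * θ ^ s * rr p a (m + s)) :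
    ∃ C : ℝ, 0 < C ∧ ∀ (n h : ℕ) (t β : ℝ), h ≤ n → 0 < t → t ≤ 1 → t ≤ β → β ≤ Real.exp 1 * t →
      1 ≤ (p : ℝ) ^ h * t ^ (k - 1) →
      XCov β (Free (ptv (p := p) a n))
        (Real.exp (C * (t * (rr p a (n - h) * (Fintype.card L : ℝ) ^ h))))
        (C * (rr p a (n - h) * (Fintype.card L : ℝ) ^ h)) := by
  obtain ⟨A₀, hA₀, hcov⟩ := cover k hk
  set B : ℝ := (Fintype.card L : ℝ) with hB
  have hp0 : (0 : ℝ) < p := by exact_mod_cast hp.out.pos
  have hp1 : (1 : ℝ) < p := by exact_mod_cast hp.out.one_lt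
  have hp2 : (2 : ℝ) ≤ p := by exact_mod_cast hp.out.two_le
  have hpB : (p : ℝ) ≤ B := by rw [hB]; exact_mod_cast hL
  have hB1 : 1 ≤ B := hp1.le.trans hpB
  have hB0 : 0 < B := by linarith
  have hk1 : (0 : ℝ) < (k : ℝ) - 1 := by
    have : (2 : ℝ) ≤ k := by exact_mod_cast hk
    linarith
  have hk2 : ((k - 1 : ℕ) : ℝ) = (k : ℝ) - 1 := by
    rw [Nat.cast_sub (by omega), Nat.cast_one]
  set σ : ℝ := (p : ℝ) ^ (-(1 / ((k : ℝ) - 1))) with hσ
  have hσ0 : 0 < σ := by positivity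
  have hσ1 : σ < 1 := Real.rpow_lt_one_of_one_lt_of_neg hp1 (by
    rw [neg_lt_zero]
    positivity)
  have hσk : σ ^ (k - 1) = (p : ℝ)⁻¹ := by
    rw [hσ, ← Real.rpow_natCast, ← Real.rpow_mul hp0.le, hk2, neg_mul, one_div,
      inv_mul_cancel₀ hk1.ne', Real.rpow_neg_one]
  have hσp : (p : ℝ)⁻¹ ≤ σ := by
    rw [← Real.rpow_neg_one, hσ]
    refine Real.rpow_le_rpow_of_exponent_le hp1.le (neg_le_neg ?_)
    rw [div_le_one hk1]
    have : (2 : ℝ) ≤ k := by exact_mod_cast hk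
    linarith
  have hθσ : θ * σ < 1 := by
    rw [hσ, Real.rpow_neg hp0.le, ← div_eq_mul_inv, div_lt_one (by positivity)]
    exact hθp
  obtain ⟨ζ, hζ0, hζ1, hζ⟩ : ∃ ζ : ℝ, 0 < ζ ∧ ζ < 1 ∧ θ * σ ^ (1 - ζ) < 1 := by
    have h1 : Filter.Tendsto (fun ζ : ℝ => θ * σ ^ (1 - ζ)) (nhds 0) (nhds (θ * σ ^ (1 - (0 : ℝ)))) := by
      refine Filter.Tendsto.const_mul θ ?_
      refine Filter.Tendsto.rpow tendsto_const_nhds ?_ (Or.inl hσ0.ne')
      exact tendsto_const_nhds.sub Filter.tendsto_id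
    rw [sub_zero, Real.rpow_one] at h1
    have h2 := h1.eventually (gt_mem_nhds hθσ)
    obtain ⟨ε, hε, h3⟩ := Metric.eventually_nhds_iff.1 h2
    refine ⟨min (ε / 2) (1 / 2), by positivity, lt_of_le_of_lt (min_le_right _ _) (by norm_num), ?_⟩
    refine h3 ?_
    rw [dist_zero_right, Real.norm_of_nonneg (by positivity)]
    exact lt_of_le_of_lt (min_le_left _ _) (by linarith)
  set ω : ℝ := θ * σ ^ (1 - ζ) with hω
  have hω0 : 0 < ω := by positivity
  have h1ω : 0 < 1 - ω := by linarith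
  set C₁ : ℝ := A₀ / ζ * (4 * K * θ ^ 3 * Real.exp 1 / (1 - ω)) + 4 * K * θ ^ 2 + B with hC₁
  have hC₁0 : 0 < C₁ := by positivity
  refine ⟨C₁, hC₁0, ?_⟩
  intro n h t β hhn ht0 ht1 htβ hβt ht
  have hβ0 : 0 < β := ht0.trans_le htβ
  have hrr1 : ∀ m, (1 : ℝ) ≤ rr p a m := fun m => by exact_mod_cast rr_pos (p := p) a ha hk m
  set μ : ℝ := rr p a (n - h) * B ^ h with hμ
  have hμ0 : 0 < μ := by
    have := hrr1 (n - h)
    positivity
  have hX : (Fintype.card (Fin n → L) : ℝ) = B ^ n := by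
    rw [Fintype.card_fun, Fintype.card_fin, Nat.cast_pow]
  -- comparison of the scales
  have hscale : ∀ s, h + s ≤ n → (rr p a (n - (h + s)) : ℝ) * B ^ (h + s) ≤ K * θ ^ s * μ := by
    intro s hs
    have h1 := hK (n - (h + s)) s
    rw [show n - (h + s) + s = n - h by omega] at h1
    calc (rr p a (n - (h + s)) : ℝ) * B ^ (h + s)
        = (rr p a (n - (h + s)) * B ^ s) * B ^ h := by rw [pow_add]; ring
      _ ≤ (K * θ ^ s * rr p a (n - h)) * B ^ h := by gcongr
      _ = _ := by rw [hμ]; ring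
  by_cases hh2 : h + 2 ≤ n
  · set J : ℕ := n - 2 - h with hJ
    have hJn : J + (h + 2) = n := by omega
    have h1 := hcov (ptv (p := p) a n) (sysv ha n) (fun j => 4 * K * θ ^ (2 + j) * μ)
      (fun j => t * σ ^ j) (fun j => p ^ (h + j)) β ζ J hβ0 hζ0 hζ1.le
      (fun j hj => by
        have hσj : σ ^ j ≤ 1 := pow_le_one₀ hσ0.le hσ1.le
        have hτj : t * σ ^ j ≤ t := mul_le_of_le_one_right ht0.le hσj
        refine ⟨Nat.one_le_pow _ _ hp.out.pos, by positivity, hτj.trans ht1, hτj.trans htβ, ?_, ?_, ?_⟩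
        · have h2 : ((p ^ (h + j) : ℕ) : ℝ) * (t * σ ^ j) ^ (k - 1) = (p : ℝ) ^ h * t ^ (k - 1) := by
            rw [mul_pow, ← pow_mul, mul_comm j, pow_mul, hσk, Nat.cast_pow, pow_add, inv_pow]
            field_simp
          rw [h2]
          exact ht
        · have h2 : σ ^ h ≤ t := by
            have h3 : (σ ^ h) ^ (k - 1) ≤ t ^ (k - 1) := by
              rw [← pow_mul, mul_comm h, pow_mul, hσk, inv_pow, inv_le_iff_one_le_mul₀ (by positivity),
                mul_comm]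
              exact ht
            exact le_of_pow_le_pow_left₀ (by omega) ht0.le h3
          have h3 := hscale (2 + j) (by omega)
          have h4 := hrr1 (n - (h + (2 + j)))
          have h5 : ((p : ℝ)⁻¹) ^ (h + j) ≤ t * σ ^ j := by
            calc ((p : ℝ)⁻¹) ^ (h + j) ≤ σ ^ (h + j) := pow_le_pow_left₀ (by positivity) hσp _
              _ = σ ^ h * σ ^ j := pow_add _ _ _
              _ ≤ _ := by gcongr
          have h6 : (p : ℝ) ^ (h + j) ≤ B ^ (h + (2 + j)) := by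
            calc (p : ℝ) ^ (h + j) ≤ B ^ (h + j) := pow_le_pow_left₀ hp0.le hpB _
              _ ≤ B ^ (h + (2 + j)) := pow_le_pow_right₀ hB1 (by omega)
          have h7 : 1 ≤ B ^ (h + (2 + j)) * (t * σ ^ j) := by
            calc (1 : ℝ) = (p : ℝ) ^ (h + j) * ((p : ℝ)⁻¹) ^ (h + j) := by
                  rw [← mul_pow, mul_inv_cancel₀ hp0.ne', one_pow]
              _ ≤ _ := by gcongr
          have h8 : 0 < B ^ (h + (2 + j)) := by positivity
          have h9 : B ^ (h + (2 + j)) ≤ K * θ ^ (2 + j) * μ :=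
            (le_mul_of_one_le_left h8.le h4).trans h3
          have h10 : 0 < t * σ ^ j := by positivity
          calc (1 : ℝ) ≤ B ^ (h + (2 + j)) * (t * σ ^ j) := h7
            _ ≤ (K * θ ^ (2 + j) * μ) * (t * σ ^ j) := by gcongr
            _ ≤ (4 * K * θ ^ (2 + j) * μ) * (t * σ ^ j) := by
              have : 0 < K * θ ^ (2 + j) * μ * (t * σ ^ j) := by positivity
              linarith
        · intro W hW
          have h3 := hscale (2 + j) (by omega)
          obtain ⟨m, hm⟩ : ∃ m, n = m + (h + (2 + j)) := ⟨n - (h + (2 + j)), by omega⟩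
          subst hm
          rw [Nat.add_sub_cancel] at h3
          have h4 : 2 * (rr p a m : ℝ) * B ^ (h + (2 + j)) ≤ W.card := by
            refine le_trans ?_ hW
            linarith
          refine le_trans ?_ (supersat a (by omega) m (h + (2 + j)) W h4)
          refine mul_le_mul_of_nonneg_right ?_ (Nat.cast_nonneg _)
          have h5 : (p : ℝ) ^ (h + (2 + j)) = p ^ (h + j) * p ^ 2 := by
            rw [← pow_add]
            congr 1
            omega
          have h6 : (1 : ℝ) ≤ (p : ℝ) ^ (h + j) := one_le_pow₀ hp1.le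
          rw [Nat.cast_pow, h5]
          have h7 : (4 : ℝ) ≤ (p : ℝ) ^ 2 := by nlinarith
          have h8 : (p : ℝ) ^ (h + j) * 4 ≤ (p : ℝ) ^ (h + j) * p ^ 2 := by gcongr
          linarith)
      (by
        rw [hX]
        have h3 := hscale (2 + J) (by omega)
        rw [show n - (h + (2 + J)) = 0 by omega, show h + (2 + J) = n by omega] at h3
        have h4 : B ^ n ≤ (rr p a 0 : ℝ) * B ^ n := le_mul_of_one_le_left (by positivity) (hrr1 0)
        have h5 : 0 < K * θ ^ (2 + J) * μ := by positivity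
        linarith)
    refine h1.mono (Real.exp_le_exp.2 ?_) ?_
    · have h2 : ∀ j, 4 * K * θ ^ (2 + (j + 1)) * μ * (β ^ ζ * (t * σ ^ j) ^ (1 - ζ)) ≤
          4 * K * θ ^ 3 * Real.exp 1 * (t * μ) * ω ^ j := by
        intro j
        have h3 : (t * σ ^ j) ^ (1 - ζ) = t ^ (1 - ζ) * (σ ^ (1 - ζ)) ^ j := by
          rw [Real.mul_rpow ht0.le (by positivity), ← Real.rpow_natCast, ← Real.rpow_mul hσ0.le,
            mul_comm (j : ℝ), Real.rpow_mul hσ0.le, Real.rpow_natCast]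
        have h4 : t ^ ζ * t ^ (1 - ζ) = t := by
          rw [← Real.rpow_add ht0, add_sub_cancel, Real.rpow_one]
        have h5 : β ^ ζ ≤ Real.exp 1 * t ^ ζ := by
          calc β ^ ζ ≤ (Real.exp 1 * t) ^ ζ := Real.rpow_le_rpow hβ0.le hβt hζ0.le
            _ = Real.exp 1 ^ ζ * t ^ ζ := Real.mul_rpow (Real.exp_pos 1).le ht0.le
            _ ≤ Real.exp 1 * t ^ ζ := by
                refine mul_le_mul_of_nonneg_right ?_ (by positivity)
                calc Real.exp 1 ^ ζ ≤ Real.exp 1 ^ (1 : ℝ) :=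
                      Real.rpow_le_rpow_of_exponent_le (Real.one_le_exp (by norm_num)) hζ1.le
                  _ = _ := Real.rpow_one _
        rw [h3]
        calc 4 * K * θ ^ (2 + (j + 1)) * μ * (β ^ ζ * (t ^ (1 - ζ) * (σ ^ (1 - ζ)) ^ j))
            ≤ 4 * K * θ ^ (2 + (j + 1)) * μ *
              ((Real.exp 1 * t ^ ζ) * (t ^ (1 - ζ) * (σ ^ (1 - ζ)) ^ j)) := by gcongr
          _ = 4 * K * θ ^ (2 + (j + 1)) * μ * Real.exp 1 * (t ^ ζ * t ^ (1 - ζ)) *
              (σ ^ (1 - ζ)) ^ j := by ring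
          _ = _ := by
            rw [h4, hω, mul_pow, show 2 + (j + 1) = j + 3 by ring, pow_add]
            ring
      have h3 : ∑ j ∈ range J, ω ^ j ≤ 1 / (1 - ω) := by
        rw [le_div_iff₀ h1ω, geom_sum_mul_neg]
        have : 0 ≤ ω ^ J := by positivity
        linarith
      have h4 : ∑ j ∈ range J, 4 * K * θ ^ (2 + (j + 1)) * μ * (β ^ ζ * (t * σ ^ j) ^ (1 - ζ)) ≤
          4 * K * θ ^ 3 * Real.exp 1 * (t * μ) * (1 / (1 - ω)) := by
        refine (sum_le_sum fun j _ => h2 j).trans ?_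
        rw [← mul_sum]
        gcongr
      calc A₀ / ζ * ∑ j ∈ range J, 4 * K * θ ^ (2 + (j + 1)) * μ *
            (β ^ ζ * (t * σ ^ j) ^ (1 - ζ))
          ≤ A₀ / ζ * (4 * K * θ ^ 3 * Real.exp 1 * (t * μ) * (1 / (1 - ω))) := by gcongr
        _ = A₀ / ζ * (4 * K * θ ^ 3 * Real.exp 1 / (1 - ω)) * (t * μ) := by ring
        _ ≤ C₁ * (t * μ) := by
          refine mul_le_mul_of_nonneg_right ?_ (by positivity)
          rw [hC₁]
          have : 0 < 4 * K * θ ^ 2 := by positivity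
          linarith
    · refine mul_le_mul_of_nonneg_right ?_ hμ0.le
      rw [hC₁, add_zero]
      have : 0 ≤ A₀ / ζ * (4 * K * θ ^ 3 * Real.exp 1 / (1 - ω)) := by positivity
      linarith
  · have h1 := hcov (ptv (p := p) a n) (sysv ha n) (fun j => B ^ n)
      (fun j => t) (fun j => 1) β ζ 0 hβ0 hζ0 hζ1.le (fun j hj => absurd hj (Nat.not_lt_zero j))
      (by rw [hX])
    refine h1.mono (Real.exp_le_exp.2 ?_) ?_
    · rw [range_zero, sum_empty, mul_zero]
      positivity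
    · have h2 : B ^ n ≤ B * B ^ h := by
        rw [← pow_succ']
        exact pow_le_pow_right₀ hB1 (by omega)
      have h3 : B ^ h ≤ μ := le_mul_of_one_le_left (by positivity) (hrr1 _)
      calc B ^ n ≤ B * B ^ h := h2
        _ ≤ B * μ := by gcongr
        _ ≤ C₁ * μ := by
          refine mul_le_mul_of_nonneg_right ?_ hμ0.le
          rw [hC₁]
          have h4 : 0 ≤ A₀ / ζ * (4 * K * θ ^ 3 * Real.exp 1 / (1 - ω)) := by positivity
          have h5 : 0 < 4 * K * θ ^ 2 := by positivity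
          linarith

/-- **Random subsets, upper bound.** -/
theorem tailV (a : Fin k → L) (ha : Function.Injective a) (hk : 2 ≤ k) (hL : p ≤ Fintype.card L)
    (θ K : ℝ) (hθ1 : 1 ≤ θ) (hθp : θ < (p : ℝ) ^ (1 / ((k : ℝ) - 1))) (hK0 : 0 < K)
    (hK : ∀ m s : ℕ, (rr p a m : ℝ) * (Fintype.card L : ℝ) ^ s ≤ K * θ ^ s * rr p a (m + s)) :
    ∃ C : ℝ, 0 < C ∧ ∀ (n h : ℕ) (q : ℝ), h ≤ n → 0 < q → q ≤ 1 → 1 ≤ (p : ℝ) ^ h * q ^ (k - 1) →
      Pr q (univ : Finset (Fin n → L))
        (fun S => C * (q * (rr p a (n - h) * (Fintype.card L : ℝ) ^ h)) ≤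
          alph (Free (ptv (p := p) a n)) S) ≤
        Real.exp (-(q * (rr p a (n - h) * (Fintype.card L : ℝ) ^ h))) := by
  obtain ⟨C, hC, hcov⟩ := coverV a ha hk hL θ K hθ1 hθp hK0 hK
  refine ⟨3 * C + 1, by positivity, ?_⟩
  intro n h q hhn hq0 hq1 hq
  set μ : ℝ := rr p a (n - h) * (Fintype.card L : ℝ) ^ h with hμ
  have h1 := hcov n h q (Real.exp 1 * q) hhn hq0 hq1
    (le_mul_of_one_le_left hq0.le (Real.one_le_exp (by norm_num))) le_rfl hq
  have h2 := h1.tail hq0.le hq1 (fun t ht => notMem_empty _ (ht ⟨0, by omega⟩))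
    ((3 * C + 1) * (q * μ))
  refine h2.trans (le_of_eq ?_)
  rw [← Real.exp_add]
  congr 1
  ring

/-- **Partition function.** -/
theorem partV (a : Fin k → L) (ha : Function.Injective a) (hk : 2 ≤ k) (hL : p ≤ Fintype.card L)
    (θ K : ℝ) (hθ1 : 1 ≤ θ) (hθp : θ < (p : ℝ) ^ (1 / ((k : ℝ) - 1))) (hK0 : 0 < K)
    (hK : ∀ m s : ℕ, (rr p a m : ℝ) * (Fintype.card L : ℝ) ^ s ≤ K * θ ^ s * rr p a (m + s)) :
    ∃ C : ℝ, 0 < C ∧ ∀ (n h : ℕ) (β : ℝ), h ≤ n → 0 < β → β ≤ 1 → 1 ≤ (p : ℝ) ^ h * β ^ (k - 1) →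
      Real.log (ZZ β (Free (ptv (p := p) a n)) univ) ≤
        C * (β * (rr p a (n - h) * (Fintype.card L : ℝ) ^ h)) := by
  obtain ⟨C, hC, hcov⟩ := coverV a ha hk hL θ K hθ1 hθp hK0 hK
  refine ⟨2 * C, by positivity, ?_⟩
  intro n h β hhn hβ0 hβ1 hβ
  set μ : ℝ := rr p a (n - h) * (Fintype.card L : ℝ) ^ h with hμ
  have hμ0 : 0 ≤ μ := by positivity
  have h1 := hcov n h β β hhn hβ0 hβ1 le_rfl
    (le_mul_of_one_le_left hβ0.le (Real.one_le_exp (by norm_num))) hβ
  have h2 := h1.part hβ0.le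
  have h3 : (1 + β) ^ (C * μ) ≤ Real.exp (C * (β * μ)) := by
    have h4 : 1 + β ≤ Real.exp β := by
      have := Real.add_one_le_exp β
      linarith
    calc (1 + β) ^ (C * μ) ≤ (Real.exp β) ^ (C * μ) :=
          Real.rpow_le_rpow (by positivity) h4 (by positivity)
      _ = _ := by
          rw [← Real.exp_mul]
          congr 1
          ring
  have h4 : ZZ β (Free (ptv (p := p) a n)) univ ≤ Real.exp (2 * C * (β * μ)) := by
    refine h2.trans ?_
    calc _ ≤ Real.exp (C * (β * μ)) * Real.exp (C * (β * μ)) := by gcongr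
      _ = _ := by
          rw [← Real.exp_add]
          congr 1
          ring
  have h5 : 0 < ZZ β (Free (ptv (p := p) a n)) univ := by
    unfold ZZ
    refine sum_pos (fun I _ => by positivity) ⟨∅, ?_⟩
    rw [mem_filter]
    exact ⟨mem_powerset.2 (empty_subset _), fun t ht => notMem_empty _ (ht ⟨0, by omega⟩)⟩
  calc Real.log (ZZ β (Free (ptv (p := p) a n)) univ) ≤ Real.log (Real.exp (2 * C * (β * μ))) :=
        Real.log_le_log h5 h4
    _ = _ := Real.log_exp _

end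

end Pool.Agent.U465.SR
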