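import Pool.Agent.U465.SR.Vec3

set_option autoImplicit false

/-!
# The order of magnitude in `L ^ n`
-/

open Finset

namespace Pool.Agent.U465.SR

section

open scoped Classical

variable {p : ℕ} [hp : Fact p.Prime] {L : Type} [AddCommGroup L] [Module (ZMod p) L] [Fintype L]
  {k : ℕ}

/-- **The order of magnitude** of the largest configuration-free subset of a random set and of the
logarithm of the partition function. -/
theorem orderV (a : Fin k → L) (ha : Function.Injective a) (hk : 2 ≤ k) (hL : p ≤ Fintype.card L)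
    (θ K : ℝ) (hθ1 : 1 ≤ θ) (hθp : θ < (p : ℝ) ^ (1 / ((k : ℝ) - 1))) (hθL : θ ≤ Fintype.card L)
    (hK0 : 0 < K)
    (hK : ∀ m s : ℕ, (rr p a m : ℝ) * (Fintype.card L : ℝ) ^ s ≤ K * θ ^ s * rr p a (m + s)) :
    ∃ c C : ℝ, 0 < c ∧ 0 < C ∧ ∀ (n : ℕ) (q : ℝ),
      (p : ℝ) ^ (-((n : ℝ) / ((k : ℝ) - 1))) ≤ q → q ≤ 1 →
      ∀ h : ℕ, h = ⌈((k : ℝ) - 1) * Real.logb p (1 / q)⌉₊ → ∀ μ : ℝ,
      μ = q * (rr p a (n - h) * (Fintype.card L : ℝ) ^ h) →
      h ≤ n ∧ c * μ ≤ EE q (univ : Finset (Fin n → L)) (fun S => (alph (Free (ptv (p := p) a n)) S : ℝ)) ∧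
      EE q (univ : Finset (Fin n → L)) (fun S => (alph (Free (ptv (p := p) a n)) S : ℝ)) ≤ C * μ ∧
      Pr q (univ : Finset (Fin n → L)) (fun S => C * μ ≤ alph (Free (ptv (p := p) a n)) S) ≤
        Real.exp (-μ) ∧
      c * μ ≤ Real.log (ZZ q (Free (ptv (p := p) a n)) univ) ∧
      Real.log (ZZ q (Free (ptv (p := p) a n)) univ) ≤ C * μ := by
  obtain ⟨C₁, hC₁, htail⟩ := tailV a ha hk hL θ K hθ1 hθp hK0 hK
  obtain ⟨C₂, hC₂, hpart⟩ := partV a ha hk hL θ K hθ1 hθp hK0 hK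
  set B : ℝ := (Fintype.card L : ℝ) with hB
  have hp0 : (0 : ℝ) < p := by exact_mod_cast hp.out.pos
  have hp1 : (1 : ℝ) < p := by exact_mod_cast hp.out.one_lt
  have hp2 : (2 : ℝ) ≤ p := by exact_mod_cast hp.out.two_le
  have hpB : (p : ℝ) ≤ B := by rw [hB]; exact_mod_cast hL
  have hB1 : 1 ≤ B := hp1.le.trans hpB
  have hB0 : 0 < B := by linarith
  have hk1 : (0 : ℝ) < (k : ℝ) - 1 := by
    have : (2 : ℝ) ≤ k := by exact_mod_cast hk
    linarith
  have hk2 : ((k - 1 : ℕ) : ℝ) = (k : ℝ) - 1 := by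
    rw [Nat.cast_sub (by omega), Nat.cast_one]
  have hlog2 : 0 < Real.log 2 := Real.log_pos (by norm_num)
  have hlog21 : Real.log 2 ≤ 1 := by
    have := Real.log_two_lt_d9
    linarith
  set c : ℝ := Real.log 2 * (1 / 2 * (K * B ^ 2)⁻¹) with hc
  refine ⟨c, C₁ + C₂ / Real.log 2 + C₂, by positivity, by positivity, ?_⟩
  intro n q hq hq1 h hh μ hμ
  have hq0 : 0 < q := lt_of_lt_of_le (Real.rpow_pos_of_pos hp0 _) hq
  set w : ℝ := ((k : ℝ) - 1) * Real.logb p (1 / q) with hw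
  have hw' : w = -((k : ℝ) - 1) * Real.logb p q := by
    rw [hw, one_div, Real.logb_inv]
    ring
  have hw0 : 0 ≤ w := by
    rw [hw', neg_mul, neg_nonneg]
    exact mul_nonpos_of_nonneg_of_nonpos hk1.le (Real.logb_nonpos hp1 hq0.le hq1)
  have hwn : w ≤ n := by
    have h1 : -((n : ℝ) / ((k : ℝ) - 1)) ≤ Real.logb p q := by
      rw [Real.le_logb_iff_rpow_le hp1 hq0]
      exact hq
    have h2 : (n : ℝ) = ((k : ℝ) - 1) * (n / ((k : ℝ) - 1)) := by field_simp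
    rw [hw', h2]
    nlinarith
  have hq2 : q ^ (k - 1) = (p : ℝ) ^ (-w) := by
    rw [hw', neg_mul, neg_neg, mul_comm, Real.rpow_mul hp0.le, Real.rpow_logb hp0 hp1.ne' hq0,
      ← hk2, Real.rpow_natCast]
  have hhn : h ≤ n := by
    rw [hh]
    exact Nat.ceil_le.2 hwn
  have hwh : w ≤ h := by
    rw [hh]
    exact Nat.le_ceil w
  have hpq : 1 ≤ (p : ℝ) ^ h * q ^ (k - 1) := by
    rw [hq2, ← Real.rpow_natCast, ← Real.rpow_add hp0]
    exact Real.one_le_rpow hp1.le (by linarith)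
  have hμ0 : 0 ≤ μ := by
    rw [hμ]
    positivity
  have h1 := htail n h q hhn hq0 hq1 hpq
  have h2 := hpart n h q hhn hq0 hq1 hpq
  rw [← hμ] at h1 h2
  -- the lower bound
  obtain ⟨h', hh'n, hhh', hh'⟩ : ∃ h' : ℕ, h' ≤ h ∧ h ≤ h' + 2 ∧
      (h' = 0 ∨ (p : ℝ) ^ h' * q ^ (k - 1) ≤ 1 / 2) := by
    by_cases hw1 : w < 1
    · refine ⟨0, Nat.zero_le _, ?_, Or.inl rfl⟩
      have : h ≤ 1 := by
        rw [hh]
        exact Nat.ceil_le.2 (by rw [Nat.cast_one]; exact hw1.le)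
      omega
    · push Not at hw1
      have h1 : 1 ≤ ⌊w⌋₊ := by
        rw [Nat.one_le_floor_iff]
        exact hw1
      have h2 : (⌊w⌋₊ : ℝ) ≤ w := Nat.floor_le hw0
      have h3 : w < ⌊w⌋₊ + 1 := Nat.lt_floor_add_one w
      have h4 : h ≤ ⌊w⌋₊ + 1 := by
        rw [hh]
        exact Nat.ceil_le_floor_add_one w
      have h5 : ⌊w⌋₊ ≤ h := by
        rw [hh]
        exact Nat.floor_le_ceil w
      refine ⟨⌊w⌋₊ - 1, by omega, by omega, Or.inr ?_⟩
      rw [hq2, ← Real.rpow_natCast, ← Real.rpow_add hp0, Nat.cast_sub h1, Nat.cast_one]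
      calc (p : ℝ) ^ ((⌊w⌋₊ : ℝ) - 1 + -w) ≤ (p : ℝ) ^ (-1 : ℝ) :=
            Real.rpow_le_rpow_of_exponent_le hp1.le (by linarith)
        _ ≤ 1 / 2 := by
            rw [Real.rpow_neg_one, ← one_div]
            exact one_div_le_one_div_of_le (by norm_num) hp2
  have hlow : 1 / 2 * (K * B ^ 2)⁻¹ * μ ≤
      EE q (univ : Finset (Fin n → L)) (fun S => (alph (Free (ptv (p := p) a n)) S : ℝ)) := by
    obtain ⟨m, rfl⟩ : ∃ m, n = m + h' := ⟨n - h', by omega⟩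
    refine le_trans ?_ (loV2 a ha (by omega) m h' q hq0.le hq1 hh')
    obtain ⟨s, rfl⟩ : ∃ s, h = h' + s := ⟨h - h', by omega⟩
    have h3 := hK (m - s) s
    rw [show m - s + s = m by omega] at h3
    have h4 : θ ^ s ≤ B ^ s := pow_le_pow_left₀ (by linarith) hθL s
    have h5 : (rr p a (m - s) : ℝ) ≤ K * rr p a m := by
      have h6 : (rr p a (m - s) : ℝ) * B ^ s ≤ (K * rr p a m) * B ^ s := by
        calc (rr p a (m - s) : ℝ) * B ^ s ≤ K * θ ^ s * rr p a m := h3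
          _ ≤ K * B ^ s * rr p a m := by gcongr
          _ = _ := by ring
      exact le_of_mul_le_mul_right h6 (by positivity)
    have h6 : B ^ (h' + s) ≤ B ^ h' * B ^ 2 := by
      rw [← pow_add]
      exact pow_le_pow_right₀ hB1 (by omega)
    rw [hμ, show m + h' - (h' + s) = m - s by omega]
    calc 1 / 2 * (K * B ^ 2)⁻¹ * (q * (rr p a (m - s) * B ^ (h' + s)))
        ≤ 1 / 2 * (K * B ^ 2)⁻¹ * (q * ((K * rr p a m) * (B ^ h' * B ^ 2))) := by gcongr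
      _ = 1 / 2 * (q * (rr p a m * B ^ h')) := by
          field_simp
  have hclow : c * μ ≤ Real.log 2 *
      EE q (univ : Finset (Fin n → L)) (fun S => (alph (Free (ptv (p := p) a n)) S : ℝ)) := by
    rw [hc, mul_assoc]
    exact mul_le_mul_of_nonneg_left hlow hlog2.le
  have hEE0 : 0 ≤ EE q (univ : Finset (Fin n → L))
      (fun S => (alph (Free (ptv (p := p) a n)) S : ℝ)) :=
    EE_nonneg hq0.le hq1 fun S _ => Nat.cast_nonneg _
  have hpl := part_lower (X := Fin n → L) hq0.le hq1 (P := Free (ptv (p := p) a n))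
    (fun t ht => notMem_empty _ (ht ⟨0, by omega⟩)) (fun I J h hI => hI.mono h)
  refine ⟨hhn, ?_, ?_, ?_, hclow.trans hpl, ?_⟩
  · refine hclow.trans ?_
    exact mul_le_of_le_one_left hEE0 hlog21
  · have h3 := hpl.trans h2
    rw [mul_comm, ← le_div_iff₀ hlog2] at h3
    refine h3.trans ?_
    have h4 : C₂ * μ / Real.log 2 = C₂ / Real.log 2 * μ := by ring
    rw [h4]
    refine mul_le_mul_of_nonneg_right ?_ hμ0
    have : 0 < C₂ / Real.log 2 := by positivity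
    linarith
  · refine le_trans (Pr_mono hq0.le hq1 fun S _ hS => le_trans ?_ hS) h1
    refine mul_le_mul_of_nonneg_right ?_ hμ0
    have : 0 < C₂ / Real.log 2 := by positivity
    linarith
  · refine h2.trans (mul_le_mul_of_nonneg_right ?_ hμ0)
    have : 0 < C₂ / Real.log 2 := by positivity
    linarith

/-- The comparison of scales from supermultiplicativity. -/
theorem scales (a : Fin k → L) (ha : Function.Injective a) (hk : 2 ≤ k)
    (Λ : ℝ) (hΛ1 : 1 < Λ) (hΛL : Λ ≤ Fintype.card L)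
    (hΛp : (Fintype.card L : ℝ) < Λ * (p : ℝ) ^ (1 / ((k : ℝ) - 1)))
    (hr' : ∀ ρ : ℝ, 1 ≤ ρ → ρ < Λ → ∃ n₀ : ℕ, ∀ n ≥ n₀, ρ ^ n ≤ (rr p a n : ℝ))
    (hmul : ∀ m n, rr p a m * rr p a n ≤ rr p a (m + n)) :
    ∃ θ K : ℝ, 1 ≤ θ ∧ θ < (p : ℝ) ^ (1 / ((k : ℝ) - 1)) ∧ θ ≤ Fintype.card L ∧ 0 < K ∧
      ∀ m s : ℕ, (rr p a m : ℝ) * (Fintype.card L : ℝ) ^ s ≤ K * θ ^ s * rr p a (m + s) := by
  have hp0 : (0 : ℝ) < p := by exact_mod_cast hp.out.pos
  set B : ℝ := (Fintype.card L : ℝ) with hB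
  have hx0 : 0 < (p : ℝ) ^ (1 / ((k : ℝ) - 1)) := by positivity
  have hB0 : 0 < B := by linarith
  obtain ⟨ρ, hρ1, hρ2⟩ := exists_between (max_lt hΛ1
    (show B / (p : ℝ) ^ (1 / ((k : ℝ) - 1)) < Λ by rwa [div_lt_iff₀ hx0]))
  have hρ3 : 1 < ρ := (le_max_left _ _).trans_lt hρ1
  have hρ4 : B / (p : ℝ) ^ (1 / ((k : ℝ) - 1)) < ρ := (le_max_right _ _).trans_lt hρ1
  obtain ⟨n₀, hn₀⟩ := hr' ρ hρ3.le hρ2
  have hρ0 : 0 < ρ := by linarith
  refine ⟨B / ρ, ρ ^ n₀, ?_, ?_, ?_, by positivity, ?_⟩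
  · rw [one_le_div hρ0]
    linarith
  · rw [div_lt_iff₀ hρ0]
    rw [div_lt_iff₀ hx0] at hρ4
    linarith
  · rw [div_le_iff₀ hρ0]
    nlinarith
  · intro m s
    have h1 : ρ ^ s ≤ ρ ^ n₀ * rr p a s := by
      by_cases hs : n₀ ≤ s
      · have h2 := hn₀ s hs
        have h3 : (1 : ℝ) ≤ ρ ^ n₀ := one_le_pow₀ hρ3.le
        exact h2.trans (le_mul_of_one_le_left (Nat.cast_nonneg _) h3)
      · have h2 : (1 : ℝ) ≤ rr p a s := by exact_mod_cast rr_pos (p := p) a ha hk s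
        calc ρ ^ s ≤ ρ ^ n₀ := pow_le_pow_right₀ hρ3.le (by omega)
          _ ≤ _ := le_mul_of_one_le_right (by positivity) h2
    have h2 : (rr p a m : ℝ) * rr p a s ≤ rr p a (m + s) := by exact_mod_cast hmul m s
    have h3 : (1 : ℝ) ≤ ρ ^ n₀ * rr p a s / ρ ^ s := by
      rwa [one_le_div (by positivity)]
    calc (rr p a m : ℝ) * B ^ s ≤ ((rr p a m : ℝ) * B ^ s) * (ρ ^ n₀ * rr p a s / ρ ^ s) :=
          le_mul_of_one_le_right (by positivity) h3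
      _ = ρ ^ n₀ * (B / ρ) ^ s * (rr p a m * rr p a s) := by
          rw [div_pow]
          ring
      _ ≤ _ := by gcongr

end

end Pool.Agent.U465.SR
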